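import Pool.Agent.H26.Defs

namespace Pool.Agent.H26

universe u

open CategoryTheory CategoryTheory.Abelian CategoryTheory.Limits

/-- `N` is (a direct summand of) a second syzygy: a retract of the kernel of a map between
finitely generated projective modules. -/
def IsSecondSyzygy {R : Type u} [Ring R] (N : ModuleCat.{u} R) : Prop :=
  ∃ (P Q : ModuleCat.{u} R) (f : P →ₗ[R] Q), Module.Finite R P ∧ Projective P ∧
    Module.Finite R Q ∧ Projective Q ∧
    Nonempty (Retract N (ModuleCat.of R (LinearMap.ker f)))

/-- The number of isomorphism classes of indecomposable non-projective (direct summands of)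
second syzygies. -/
noncomputable def numSecondSyzygies (R : Type u) [Ring R] : ℕ∞ :=
  Set.encard {c | ∃ N : ModuleCat.{u} R, Indecomposable N ∧ ¬ Projective N ∧
    IsSecondSyzygy N ∧ isoClass N = c}

end Pool.Agent.H26
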