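import Pool.Agent.H26.Wrap
import Pool.Agent.H26.SyzDefs

namespace Pool.Agent.H26

universe u

open CategoryTheory CategoryTheory.Abelian CategoryTheory.Limits

section Shifts

variable {B : Type u} [Ring B]
variable {P M : Type u} [AddCommGroup P] [Module B P] [AddCommGroup M] [Module B M]

/-- reverse dimension shift in the first variable -/
theorem ext_shift_rev [Module.Projective B P] (p : P →ₗ[B] M) (hp : Function.Surjective p)
    (Z : ModuleCat.{u} B) (n : ℕ)
    (h : Subsingleton (Ext (ModuleCat.of B (LinearMap.ker p)) Z (n + 1))) :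
    Subsingleton (Ext (ModuleCat.of B M) Z (n + 2)) := by
  have hS := LinearMap.shortExact_shortComplexKer hp
  have hproj : Projective (p.shortComplexKer.X₂) :=
    (IsProjective.iff_projective P).mp inferInstance
  refine subsingleton_of_forall_eq 0 fun x₃ => ?_
  have e : 1 + (n + 1) = n + 2 := by omega
  obtain ⟨x₁, hx₁⟩ := Ext.contravariant_sequence_exact₃ hS Z x₃
    (Ext.eq_zero_of_projective (n := n + 1) _) e
  rw [← hx₁]
  have h0 : x₁ = 0 := h.elim _ _
  rw [h0, Ext.comp_zero]

/-- dimension shift in the second variable -/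
theorem ext_shift_right (p : P →ₗ[B] M) (hp : Function.Surjective p)
    (X : ModuleCat.{u} B) (n : ℕ)
    (h1 : Subsingleton (Ext X (ModuleCat.of B M) n))
    (h2 : Subsingleton (Ext X (ModuleCat.of B P) (n + 1))) :
    Subsingleton (Ext X (ModuleCat.of B (LinearMap.ker p)) (n + 1)) := by
  have hS := LinearMap.shortExact_shortComplexKer hp
  refine subsingleton_of_forall_eq 0 fun x₁ => ?_
  obtain ⟨x₃, hx₃⟩ := Ext.covariant_sequence_exact₁ X hS x₁ (h2.elim _ _) (n₀ := n) rfl
  rw [← hx₃]
  have h0 : x₃ = 0 := h1.elim _ _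
  rw [h0, Ext.zero_comp]

theorem ext_retract_right {X Y Y' : ModuleCat.{u} B} {n : ℕ} (r : Retract Y' Y)
    (h : Subsingleton (Ext X Y n)) : Subsingleton (Ext X Y' n) := by
  refine subsingleton_of_forall_eq 0 fun x => ?_
  have h1 : x.comp (Ext.mk₀ r.i) (add_zero n) = 0 := h.elim _ _
  have h2 : (x.comp (Ext.mk₀ r.i) (add_zero n)).comp (Ext.mk₀ r.r) (add_zero n) = x := by
    simp
  rw [← h2, h1]
  simp

theorem ext_retract_left {X X' Y : ModuleCat.{u} B} {n : ℕ} (r : Retract X' X)
    (h : Subsingleton (Ext X Y n)) : Subsingleton (Ext X' Y n) := by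
  refine subsingleton_of_forall_eq 0 fun x => ?_
  have h1 : (Ext.mk₀ r.r).comp x (zero_add n) = 0 := h.elim _ _
  have h2 : (Ext.mk₀ r.i).comp ((Ext.mk₀ r.r).comp x (zero_add n)) (zero_add n) = x := by
    simp
  rw [← h2, h1]
  simp

/-- `Ext^n(X, B) = 0` implies `Ext^n(X, B^m) = 0`. -/
theorem ext_free_zero (X : ModuleCat.{u} B) (n : ℕ)
    (h : Subsingleton (Ext X (ModuleCat.of B B) n)) (m : ℕ) :
    Subsingleton (Ext X (ModuleCat.of B (Fin m → B)) n) := by
  classical
  refine subsingleton_of_forall_eq 0 fun x => ?_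
  have hid : (𝟙 (ModuleCat.of B (Fin m → B))) =
      ∑ i, (ModuleCat.ofHom (LinearMap.proj (R := B) (φ := fun _ : Fin m => B) i) ≫
        ModuleCat.ofHom (LinearMap.single B (fun _ : Fin m => B) i)) := by
    apply ModuleCat.hom_ext
    rw [ModuleCat.hom_sum]
    refine LinearMap.ext fun v => ?_
    rw [LinearMap.sum_apply]
    exact (Finset.univ_sum_single v).symm
  have h2 : x.comp (Ext.mk₀ (𝟙 (ModuleCat.of B (Fin m → B)))) (add_zero n) = x := by simp
  rw [← h2, hid, Ext.mk₀_sum, Ext.comp_sum]
  apply Finset.sum_eq_zero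
  intro i _
  have h3 : x.comp (Ext.mk₀ (ModuleCat.ofHom
    (LinearMap.proj (R := B) (φ := fun _ : Fin m => B) i))) (add_zero n) = 0 := h.elim _ _
  have h4 : x.comp (Ext.mk₀ (ModuleCat.ofHom (LinearMap.proj (R := B) (φ := fun _ : Fin m => B) i) ≫
        ModuleCat.ofHom (LinearMap.single B (fun _ : Fin m => B) i))) (add_zero n) =
      (x.comp (Ext.mk₀ (ModuleCat.ofHom
    (LinearMap.proj (R := B) (φ := fun _ : Fin m => B) i))) (add_zero n)).comp
      (Ext.mk₀ (ModuleCat.ofHom (LinearMap.single B (fun _ : Fin m => B) i))) (add_zero n) := by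
    rw [← Ext.mk₀_comp_mk₀]
    simp
  rw [h4, h3, Ext.zero_comp]

end Shifts

section Chain

variable {B : Type u} [Ring B]

/-- A f.g. projective module is a retract of a free module of finite rank. -/
theorem retract_free {Y : ModuleCat.{u} B} [Module.Finite B Y] [Module.Projective B Y] :
    ∃ m : ℕ, Nonempty (Retract Y (ModuleCat.of B (Fin m → B))) := by
  obtain ⟨m, p, hp⟩ := Module.Finite.exists_fin' B Y
  obtain ⟨s, hs⟩ := Module.projective_lifting_property p LinearMap.id hp
  refine ⟨m, ⟨⟨ModuleCat.ofHom s, ModuleCat.ofHom p, ?_⟩⟩⟩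
  ext x
  exact congrArg (fun h => h x) hs

/-- Vanishing of `Ext^i(N, B)` for second syzygies when `B` has injective dimension `≤ 2`. -/
theorem second_syzygy_ext (hinj : ∀ X : ModuleCat.{u} B, Module.Finite B X → ∀ i : ℕ, 3 ≤ i →
    Subsingleton (Ext X (ModuleCat.of B B) i)) {N : ModuleCat.{u} B} (hN : IsSecondSyzygy N)
    (i : ℕ) (hi : 1 ≤ i) : Subsingleton (Ext N (ModuleCat.of B B) i) := by
  obtain ⟨P, Q, f, hPf, hPp, hQf, hQp, ⟨r⟩⟩ := hN
  refine ext_retract_left r ?_
  have hPp' : Module.Projective B P := ModuleCat.projective_of_module_projective P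
  have hQp' : Module.Projective B Q := ModuleCat.projective_of_module_projective Q
  obtain ⟨n, rfl⟩ : ∃ n, i = n + 1 := ⟨i - 1, by omega⟩
  let q : Q →ₗ[B] (Q ⧸ LinearMap.range f) := (LinearMap.range f).mkQ
  have h1 := ext_shift q (LinearMap.range f).mkQ_surjective (ModuleCat.of B B) (n + 1)
    (hinj (ModuleCat.of B (Q ⧸ LinearMap.range f)) (inferInstance) (n + 3) (by omega))
  have hmem : ∀ x, f x ∈ LinearMap.ker q := by
    intro x
    simp [q]
  let g : P →ₗ[B] LinearMap.ker q := f.codRestrict (LinearMap.ker q) hmem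
  have hg : Function.Surjective g := by
    rintro ⟨y, hy⟩
    have : y ∈ LinearMap.range f := by simpa [q] using hy
    obtain ⟨x, rfl⟩ := this
    exact ⟨x, rfl⟩
  have h2 := ext_shift g hg (ModuleCat.of B B) n h1
  have hker : LinearMap.ker g = LinearMap.ker f := LinearMap.ker_codRestrict _ _ _
  rw [← hker]
  exact h2

/-- The chain of syzygies. -/
def Rel (X X' : ModuleCat.{u} B) : Prop :=
  ∃ (n : ℕ) (p : (Fin n → B) →ₗ[B] X), Function.Surjective p ∧
    Nonempty (Retract X' (ModuleCat.of B (LinearMap.ker p)))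

theorem rel_ext {X X' Z : ModuleCat.{u} B} (h : Rel X X') (n : ℕ)
    (hZ : Subsingleton (Ext X Z (n + 2))) : Subsingleton (Ext X' Z (n + 1)) := by
  obtain ⟨m, p, hp, ⟨r⟩⟩ := h
  exact ext_retract_left r (ext_shift p hp Z n hZ)

/-- If `X'` is a summand of the syzygy of `X` and `Ext^1(X, X') = 0` then `X'` is projective. -/
theorem rel_projective {X X' : ModuleCat.{u} B} (h : Rel X X')
    (hZ : Subsingleton (Ext X X' 1)) : Module.Projective B X' := by
  obtain ⟨m, p, hp, ⟨r⟩⟩ := h
  obtain ⟨g, hg⟩ := ext_one p hp X' hZ r.r.hom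
  refine Module.Projective.of_split ((LinearMap.ker p).subtype ∘ₗ r.i.hom) g ?_
  rw [← LinearMap.comp_assoc, hg]
  have := congrArg ModuleCat.Hom.hom r.retract
  exact this

theorem ext_congr_left {X X' Z : ModuleCat.{u} B} (e : X ≅ X') (n : ℕ)
    (h : Subsingleton (Ext X Z n)) : Subsingleton (Ext X' Z n) :=
  ext_retract_left ⟨e.inv, e.hom, by simp⟩ h

theorem ext_congr_right {X Z Z' : ModuleCat.{u} B} (e : Z ≅ Z') (n : ℕ)
    (h : Subsingleton (Ext X Z n)) : Subsingleton (Ext X Z' n) :=
  ext_retract_right ⟨e.inv, e.hom, by simp⟩ h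

theorem chain_ext (X : ℕ → ModuleCat.{u} B) (hX : ∀ j, Rel (X j) (X (j + 1)))
    (Z : ModuleCat.{u} B) : ∀ (p a : ℕ), Subsingleton (Ext (X a) Z (p + 1)) →
      Subsingleton (Ext (X (a + p)) Z 1) := by
  intro p
  induction p with
  | zero => intro a h; exact h
  | succ p ih =>
    intro a h
    have h1 := rel_ext (hX a) p h
    have h2 := ih (a + 1) h1
    have e : a + 1 + p = a + (p + 1) := by omega
    rw [e] at h2
    exact h2

/-- No chain of non-projective rigid modules has a repetition. -/
theorem chain_contra (k : ℕ) (hk : 2 ≤ k) (X : ℕ → ModuleCat.{u} B)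
    (hX : ∀ j, Rel (X j) (X (j + 1)))
    (hnp : ∀ j, ¬ Module.Projective B (X j))
    (hrig : ∀ j i, 2 ≤ i → i ≤ k → Subsingleton (Ext (X j) (X j) i))
    (a p : ℕ) (hp : 1 ≤ p) (hpk : p ≤ k) (e : X a ≅ X (a + p)) : False := by
  by_cases hp1 : p = 1
  · subst hp1
    have h2 := hrig a 2 le_rfl hk
    have h1 := rel_ext (hX a) 0 h2
    have h1' := ext_congr_left e.symm 1 h1
    have h1'' := ext_congr_right e 1 h1'
    exact hnp _ (rel_projective (hX a) h1'')
  · obtain ⟨q, rfl⟩ : ∃ q, p = q + 1 := ⟨p - 1, by omega⟩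
    have h2 := hrig a (q + 1) (by omega) hpk
    have h1 := chain_ext X hX (X a) q a h2
    have h1' := ext_congr_right e 1 h1
    exact hnp _ (rel_projective (hX (a + q)) h1')

end Chain

section Step

variable (K : Type*) [Field K] {B : Type u} [Ring B] [Algebra K B]

/-- A non-projective finite-dimensional module has an indecomposable non-projective summand. -/
theorem exists_indec_nonproj :
    ∀ (d : ℕ) (X : Type u) [AddCommGroup X] [Module K X] [Module B X]
    [IsScalarTower K B X] [Module.Finite K X], Module.finrank K X ≤ d →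
    ¬ Module.Projective B X → ∃ (N : ModuleCat.{u} B), Indec B N ∧
      (∃ (i : N →ₗ[B] X) (r : X →ₗ[B] N), r ∘ₗ i = LinearMap.id) ∧
      ¬ Module.Projective B N := by
  intro d
  induction d with
  | zero =>
    rintro X _ _ _ _ _ hX hf
    exfalso
    have : Subsingleton X := by
      have h0 : Module.finrank K X = 0 := by omega
      exact Module.finrank_zero_iff.mp h0
    apply hf
    exact Module.Projective.of_free
  | succ d ih =>
    rintro X _ _ _ _ _ hX hf
    by_cases hind : Indec B X
    · exact ⟨ModuleCat.of B X, hind, ⟨LinearMap.id, LinearMap.id, rfl⟩, hf⟩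
    have hnt : Nontrivial X := by
      rw [← not_subsingleton_iff_nontrivial]
      intro hs
      apply hf
      exact Module.Projective.of_free
    have : ∃ P Q : Submodule B X, IsCompl P Q ∧ P ≠ ⊥ ∧ Q ≠ ⊥ := by
      by_contra hcon
      apply hind
      refine ⟨hnt, fun P Q hPQ => ?_⟩
      by_contra hc
      push Not at hc
      exact hcon ⟨P, Q, hPQ, hc.1, hc.2⟩
    have key : ∀ P Q : Submodule B X, IsCompl P Q → Q ≠ ⊥ → ¬ Module.Projective B P →
        ∃ (N : ModuleCat.{u} B), Indec B N ∧
        (∃ (i : N →ₗ[B] X) (r : X →ₗ[B] N), r ∘ₗ i = LinearMap.id) ∧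
        ¬ Module.Projective B N := by
      intro P Q hPQ hQ hfP
      have hPfin : Module.Finite K P := by
        have : Module.Finite K (P.restrictScalars K) := inferInstance
        exact this
      have hlt : Module.finrank K P < Module.finrank K X := by
        have : Module.finrank K (P.restrictScalars K) < Module.finrank K X := by
          apply Submodule.finrank_lt
          intro h
          apply hQ
          have hP : P = ⊤ := by
            rw [eq_top_iff]
            intro x _
            have : x ∈ P.restrictScalars K := by rw [h]; trivial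
            exact this
          have := hPQ.inf_eq_bot
          rwa [hP, top_inf_eq] at this
        exact this
      obtain ⟨N, hN, ⟨i, r, hir⟩, hg⟩ := ih P (by omega) hfP
      refine ⟨N, hN, ⟨P.subtype ∘ₗ i, r ∘ₗ Submodule.projectionOnto P Q hPQ, ?_⟩, hg⟩
      ext x
      have h1 : r (i x) = x := congrArg (fun h => h x) hir
      simp [Submodule.projectionOnto_apply_left, h1]
    obtain ⟨P, Q, hPQ, hP, hQ⟩ := this
    by_cases h1 : Module.Projective B P
    · apply key Q P hPQ.symm hP
      intro h2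
      apply hf
      exact Module.Projective.of_equiv (Submodule.prodEquivOfIsCompl P Q hPQ)
    · exact key P Q hPQ hQ h1

/-- The properties propagated along the chain. -/
structure Good (k : ℕ) (X : ModuleCat.{u} B) : Prop where
  fin : Module.Finite B X
  indec : Indec B X
  np : ¬ Module.Projective B X
  syz : IsSecondSyzygy X
  rig : ∀ i, 2 ≤ i → i ≤ k → Subsingleton (Ext X X i)

theorem rig_ker (hinj : ∀ X : ModuleCat.{u} B, Module.Finite B X → ∀ i : ℕ, 3 ≤ i →
    Subsingleton (Ext X (ModuleCat.of B B) i)) (k : ℕ) (X : ModuleCat.{u} B)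
    (hXf : Module.Finite B X)
    (hrig : ∀ i, 2 ≤ i → i ≤ k → Subsingleton (Ext X X i)) (n : ℕ)
    (p : (Fin n → B) →ₗ[B] X) (hp : Function.Surjective p) :
    ∀ i, 2 ≤ i → i ≤ k → Subsingleton (Ext (ModuleCat.of B (LinearMap.ker p))
      (ModuleCat.of B (LinearMap.ker p)) i) := by
  intro i hi hik
  obtain ⟨j, rfl⟩ : ∃ j, i = j + 1 := ⟨i - 1, by omega⟩
  have h1 := ext_shift_right p hp X (j + 1) (hrig (j + 1) hi hik)
    (ext_free_zero X (j + 2) (hinj X hXf (j + 2) (by omega)) n)
  exact ext_shift p hp _ j h1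

theorem good_of_ker [Module.Finite K B] (k : ℕ) (Y : ModuleCat.{u} B)
    (hYf : Module.Finite B Y) (hYs : IsSecondSyzygy Y) (hYp : ¬ Module.Projective B Y)
    (hrig : ∀ i, 2 ≤ i → i ≤ k → Subsingleton (Ext Y Y i)) :
    ∃ X', Good k X' ∧ Nonempty (Retract X' Y) := by
  let _ : Module K Y := Module.restrictScalars K B Y
  have : IsScalarTower K B Y := IsScalarTower.restrictScalars K B Y
  have hfK : Module.Finite K Y := Module.Finite.trans B Y
  obtain ⟨N, hN, ⟨i, r, hir⟩, hNp⟩ := exists_indec_nonproj (B := B) K (Module.finrank K Y) Y le_rfl hYp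
  have R : Retract N Y := ⟨ModuleCat.ofHom i, ModuleCat.ofHom r, by
    ext x
    exact congrArg (fun h => h x) hir⟩
  refine ⟨N, ⟨module_finite_of_retract R, hN, hNp, ?_, ?_⟩, ⟨R⟩⟩
  · obtain ⟨P, Q, f, h1, h2, h3, h4, ⟨R'⟩⟩ := hYs
    exact ⟨P, Q, f, h1, h2, h3, h4, ⟨R.trans R'⟩⟩
  · intro i hi hik
    exact rigid_retract (hrig i hi hik) R R

theorem good_step [Module.Finite K B] (hinj : ∀ X : ModuleCat.{u} B, Module.Finite B X →
    ∀ i : ℕ, 3 ≤ i → Subsingleton (Ext X (ModuleCat.of B B) i)) (k : ℕ) (X : ModuleCat.{u} B)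
    (hX : Good k X) : ∃ X', Good k X' ∧ Rel X X' := by
  have hnoeth : IsNoetherianRing B := isNoetherian_of_tower K (inferInstance : IsNoetherian K B)
  have hXf := hX.fin
  obtain ⟨n, p, hp⟩ := Module.Finite.exists_fin' B X
  have hproj : Projective (ModuleCat.of B (Fin n → B)) :=
    (IsProjective.iff_projective _).mp inferInstance
  have hfin : Module.Finite B (ModuleCat.of B (LinearMap.ker p)) :=
    (inferInstance : Module.Finite B (LinearMap.ker p))
  have hsyz : IsSecondSyzygy (ModuleCat.of B (LinearMap.ker p)) := by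
    obtain ⟨P, Q, f, h1, h2, h3, h4, ⟨R⟩⟩ := hX.syz
    refine ⟨ModuleCat.of B (Fin n → B), P,
      (LinearMap.ker f).subtype ∘ₗ R.i.hom ∘ₗ p, (inferInstance : Module.Finite B (Fin n → B)),
      hproj, h1, h2, ?_⟩
    have hker : LinearMap.ker ((LinearMap.ker f).subtype ∘ₗ R.i.hom ∘ₗ p) = LinearMap.ker p := by
      ext x
      constructor
      · intro hx
        have h5 : R.i.hom (p x) = 0 := Subtype.ext hx
        have h6 : R.r.hom (R.i.hom (p x)) = p x :=
          congrArg (fun f => ModuleCat.Hom.hom f (p x)) R.retract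
        rw [LinearMap.mem_ker, ← h6, h5, map_zero]
      · intro hx
        rw [LinearMap.mem_ker] at hx ⊢
        simp [hx]
    rw [hker]
    exact ⟨Retract.refl _⟩
  have hnp : ¬ Module.Projective B (ModuleCat.of B (LinearMap.ker p)) := by
    intro hker
    apply hX.np
    obtain ⟨m, ⟨R⟩⟩ := retract_free (Y := ModuleCat.of B (LinearMap.ker p))
    have h1 := ext_free_zero X 1 (second_syzygy_ext hinj hX.syz 1 le_rfl) m
    exact projective_of_ext_one p hp (ext_retract_right R h1)
  obtain ⟨X', hX', hR⟩ := good_of_ker K k (ModuleCat.of B (LinearMap.ker p)) hfin hsyz hnp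
    (rig_ker hinj k X hXf hX.rig n p hp)
  exact ⟨X', hX', n, p, hp, hR⟩

theorem projective_syzygy [Module.Finite K B] (hinj : ∀ X : ModuleCat.{u} B, Module.Finite B X →
    ∀ i : ℕ, 3 ≤ i → Subsingleton (Ext X (ModuleCat.of B B) i)) (k : ℕ) (hk : 2 ≤ k)
    (hr : numSecondSyzygies B ≤ k) (Y : ModuleCat.{u} B)
    (hYf : Module.Finite B Y) (hYs : IsSecondSyzygy Y)
    (hrig : ∀ i, 2 ≤ i → i ≤ k → Subsingleton (Ext Y Y i)) : Module.Projective B Y := by
  by_contra hYp
  obtain ⟨X0, hX0, -⟩ := good_of_ker K k Y hYf hYs hYp hrig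
  let next : {X : ModuleCat.{u} B // Good k X} → {X : ModuleCat.{u} B // Good k X} := fun X =>
    ⟨(good_step K hinj k X.1 X.2).choose, (good_step K hinj k X.1 X.2).choose_spec.1⟩
  let X : ℕ → {X : ModuleCat.{u} B // Good k X} := fun j =>
    Nat.rec ⟨X0, hX0⟩ (fun _ x => next x) j
  have hrel : ∀ j, Rel (X j).1 (X (j + 1)).1 := fun j =>
    (good_step K hinj k (X j).1 (X j).2).choose_spec.2
  -- pigeonhole
  have hmap : ∀ j, isoClass (X j).1 ∈ {c | ∃ N : ModuleCat.{u} B, Indecomposable N ∧
      ¬ Projective N ∧ IsSecondSyzygy N ∧ isoClass N = c} := by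
    intro j
    refine ⟨(X j).1, indecomposable_of_indec (X j).2.indec, ?_, (X j).2.syz, rfl⟩
    intro h
    exact (X j).2.np (ModuleCat.projective_of_module_projective (X j).1)
  have hnotinj : ¬ Set.InjOn (fun j => isoClass (X j).1) (Set.Iic k) := by
    intro hinj'
    have h1 := Set.encard_le_encard_of_injOn (fun j _ => hmap j) hinj'
    have h2 : Set.encard (Set.Iic k) = k + 1 := by
      rw [← Finset.coe_Iic, Set.encard_coe_eq_coe_finsetCard, Nat.card_Iic]
      norm_cast
    rw [h2] at h1
    have h3 := h1.trans hr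
    have h4 : ((k + 1 : ℕ) : ℕ∞) ≤ (k : ℕ∞) := by exact_mod_cast h3
    have h5 : k + 1 ≤ k := by exact_mod_cast h4
    omega
  have hex : ∃ a b, a < b ∧ b ≤ k ∧ isoClass (X a).1 = isoClass (X b).1 := by
    by_contra hcon
    push Not at hcon
    apply hnotinj
    intro a ha b hb hab
    rcases lt_trichotomy a b with h | h | h
    · exact absurd hab (hcon a b h hb)
    · exact h
    · exact absurd hab.symm (hcon b a h ha)
  obtain ⟨a, b, hab, hbk, heq⟩ := hex
  obtain ⟨e⟩ := (isoClass_eq_iff _ _).mp heq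
  obtain ⟨p, rfl⟩ : ∃ p, b = a + p := ⟨b - a, by omega⟩
  exact chain_contra k hk (fun j => (X j).1) hrel (fun j => (X j).2.np)
    (fun j => (X j).2.rig) a p (by omega) (by omega) e.toModuleIso

/-- Over an algebra of injective dimension at most two with at most `k` types of second syzygies,
`Ext^3(M, -) = 0` for every `k`-rigid module `M`. -/
theorem ext_three_of_rigid [Module.Finite K B] (hinj : ∀ X : ModuleCat.{u} B,
    Module.Finite B X → ∀ i : ℕ, 3 ≤ i → Subsingleton (Ext X (ModuleCat.of B B) i))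
    (k : ℕ) (hk : 2 ≤ k) (hr : numSecondSyzygies B ≤ k) (M : ModuleCat.{u} B)
    (hMf : Module.Finite B M) (hM : IsRigid k M) (N : ModuleCat.{u} B) :
    Subsingleton (Ext M N 3) := by
  have hnoeth : IsNoetherianRing B := isNoetherian_of_tower K (inferInstance : IsNoetherian K B)
  obtain ⟨n, p, hp⟩ := Module.Finite.exists_fin' B M
  have h1 := rig_ker hinj k M hMf (fun i hi hik => hM i (by omega) hik) n p hp
  have hf1 : Module.Finite B (ModuleCat.of B (LinearMap.ker p)) :=
    (inferInstance : Module.Finite B (LinearMap.ker p))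
  obtain ⟨m, q, hq⟩ := Module.Finite.exists_fin' B (LinearMap.ker p)
  have h2 := rig_ker hinj k (ModuleCat.of B (LinearMap.ker p)) hf1 h1 m q hq
  have hf2 : Module.Finite B (ModuleCat.of B (LinearMap.ker q)) :=
    (inferInstance : Module.Finite B (LinearMap.ker q))
  have hproj : ∀ m : ℕ, Projective (ModuleCat.of B (Fin m → B)) := fun m =>
    (IsProjective.iff_projective _).mp inferInstance
  have hs : IsSecondSyzygy (ModuleCat.of B (LinearMap.ker q)) := by
    refine ⟨ModuleCat.of B (Fin m → B), ModuleCat.of B (Fin n → B),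
      (LinearMap.ker p).subtype ∘ₗ q, (inferInstance : Module.Finite B (Fin m → B)), hproj m,
      (inferInstance : Module.Finite B (Fin n → B)), hproj n, ?_⟩
    have hker : LinearMap.ker ((LinearMap.ker p).subtype ∘ₗ q) = LinearMap.ker q := by
      ext x
      constructor
      · intro hx
        exact Subtype.ext hx
      · intro hx
        exact congrArg Subtype.val hx
    rw [hker]
    exact ⟨Retract.refl _⟩
  have hP := projective_syzygy K hinj k hk hr _ hf2 hs h2
  apply ext_shift_rev p hp N 1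
  apply ext_shift_rev q hq N 0
  have hP' : Module.Projective B (LinearMap.ker q) := hP
  have hP'' : Projective (ModuleCat.of B (LinearMap.ker q)) :=
    (IsProjective.iff_projective _).mp hP'
  exact Ext.subsingleton_of_projective _ _ _

end Step

end Pool.Agent.H26
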