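import Pool.Agent.H26.Wrap
import Pool.Agent.H26.Periodic

/-!
Infinitely many pairwise orthogonal indecomposable modules give `o k R = ⊤`.
-/

namespace Pool.Agent.H26

universe u

open CategoryTheory CategoryTheory.Abelian CategoryTheory.Limits

section SumId

variable {R : Type u} [Ring R]

theorem ext_right_of_sum {ι : Type} [Fintype ι] {Y : ModuleCat.{u} R} (Z : ι → ModuleCat.{u} R)
    (r : ∀ i, Y ⟶ Z i) (s : ∀ i, Z i ⟶ Y) (hid : 𝟙 Y = ∑ i, r i ≫ s i)
    (W : ModuleCat.{u} R) (n : ℕ) (h : ∀ i, Subsingleton (Ext W (Z i) n)) :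
    Subsingleton (Ext W Y n) := by
  refine subsingleton_of_forall_eq 0 fun x => ?_
  have h2 : x.comp (Ext.mk₀ (𝟙 Y)) (add_zero n) = x := by simp
  rw [← h2, hid, Ext.mk₀_sum, Ext.comp_sum]
  apply Finset.sum_eq_zero
  intro i _
  have h3 : x.comp (Ext.mk₀ (r i)) (add_zero n) = 0 := (h i).elim _ _
  have h4 : x.comp (Ext.mk₀ (r i ≫ s i)) (add_zero n) =
      (x.comp (Ext.mk₀ (r i)) (add_zero n)).comp (Ext.mk₀ (s i)) (add_zero n) := by
    rw [← Ext.mk₀_comp_mk₀]
    simp
  rw [h4, h3, Ext.zero_comp]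

theorem ext_left_of_sum {ι : Type} [Fintype ι] {Y : ModuleCat.{u} R} (Z : ι → ModuleCat.{u} R)
    (r : ∀ i, Y ⟶ Z i) (s : ∀ i, Z i ⟶ Y) (hid : 𝟙 Y = ∑ i, r i ≫ s i)
    (W : ModuleCat.{u} R) (n : ℕ) (h : ∀ i, Subsingleton (Ext (Z i) W n)) :
    Subsingleton (Ext Y W n) := by
  refine subsingleton_of_forall_eq 0 fun x => ?_
  have h2 : (Ext.mk₀ (𝟙 Y)).comp x (zero_add n) = x := by simp
  rw [← h2, hid, Ext.mk₀_sum, Ext.sum_comp]
  apply Finset.sum_eq_zero
  intro i _
  have h3 : (Ext.mk₀ (s i)).comp x (zero_add n) = 0 := (h i).elim _ _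
  have h4 : (Ext.mk₀ (r i ≫ s i)).comp x (zero_add n) =
      (Ext.mk₀ (r i)).comp ((Ext.mk₀ (s i)).comp x (zero_add n)) (zero_add n) := by
    rw [← Ext.mk₀_comp_mk₀]
    simp
  rw [h4, h3, Ext.comp_zero]

theorem pi_id {ι : Type} [Fintype ι] [DecidableEq ι] (Z : ι → ModuleCat.{u} R) :
    𝟙 (ModuleCat.of R (∀ i, Z i)) =
      ∑ i, (ModuleCat.ofHom (LinearMap.proj (R := R) (φ := fun i => (Z i : Type u)) i) ≫
        ModuleCat.ofHom (LinearMap.single R (fun i => (Z i : Type u)) i)) := by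
  apply ModuleCat.hom_ext
  rw [ModuleCat.hom_sum]
  refine LinearMap.ext fun v => ?_
  rw [LinearMap.sum_apply]
  exact (Finset.univ_sum_single v).symm

end SumId

/-- Infinitely many pairwise orthogonal indecomposable modules give `o k R = ⊤`. -/
theorem o_eq_top {R : Type u} [Ring R] (X : ℕ → ModuleCat.{u} R)
    (hfin : ∀ n, Module.Finite R (X n)) (hind : ∀ n, Indecomposable (X n))
    (hiso : ∀ n m, Nonempty (X n ≅ X m) → n = m)
    (hext : ∀ n m i, 1 ≤ i → Subsingleton (Ext (X n) (X m) i)) (k : ℕ) : o k R = ⊤ := by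
  classical
  rw [ENat.eq_top_iff_forall_ge]
  intro N
  let M : ModuleCat.{u} R := ModuleCat.of R (∀ j : Fin N, X j)
  have hMfin : Module.Finite R M := by
    have : ∀ j : Fin N, Module.Finite R (X j) := fun j => hfin j
    exact (inferInstance : Module.Finite R (∀ j : Fin N, X j))
  have hM : IsRigid k M := by
    intro i hi _
    refine ext_right_of_sum (fun j : Fin N => X j) _ _ (pi_id (fun j : Fin N => X j)) M i ?_
    intro j
    refine ext_left_of_sum (fun j : Fin N => X j) _ _ (pi_id (fun j : Fin N => X j)) (X j) i ?_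
    intro j'
    exact hext j' j i hi
  have hsize : (N : ℕ∞) ≤ size M := by
    unfold size
    have hinj : Function.Injective (fun j : Fin N => isoClass (X j)) := by
      intro a b hab
      have h1 := (isoClass_eq_iff _ _).mp hab
      obtain ⟨e⟩ := h1
      exact Fin.ext (hiso _ _ ⟨e.toModuleIso⟩)
    have hcard : (Set.range (fun j : Fin N => isoClass (X j))).encard = N := by
      rw [← Set.image_univ, hinj.encard_image, Set.encard_univ]
      simp
    rw [← hcard]
    apply Set.encard_le_encard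
    rintro c ⟨j, rfl⟩
    refine ⟨X j, hind j, ⟨⟨ModuleCat.ofHom (LinearMap.single R (fun j : Fin N => (X j : Type u)) j),
      ModuleCat.ofHom (LinearMap.proj (R := R) (φ := fun j : Fin N => (X j : Type u)) j), ?_⟩⟩, rfl⟩
    ext x
    exact Pi.single_eq_same (M := fun j : Fin N => (X j : Type u)) j x
  refine hsize.trans ?_
  unfold o
  exact le_iSup (fun M : {M : ModuleCat.{u} R // Module.Finite R M ∧ IsRigid k M} => size M.1)
    ⟨M, hMfin, hM⟩

end Pool.Agent.H26
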