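import Mathlib

namespace Pool.Agent.H26

universe u

/-! ### Fitting's lemma -/

section Fitting

variable {B : Type*} [Ring B] {M : Type*} [AddCommGroup M] [Module B M]

/-- Indecomposable module, in terms of complementary submodules. -/
def Indec (B : Type*) [Ring B] (M : Type*) [AddCommGroup M] [Module B M] : Prop :=
  Nontrivial M ∧ ∀ N N' : Submodule B M, IsCompl N N' → N = ⊥ ∨ N' = ⊥

theorem Indec.isUnit_or_isNilpotent [IsArtinian B M] [IsNoetherian B M] (h : Indec B M)
    (f : Module.End B M) : IsUnit f ∨ IsNilpotent f := by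
  obtain ⟨n, hn, hn1⟩ := ((LinearMap.eventually_isCompl_ker_pow_range_pow f).and
    (Filter.eventually_ge_atTop 1)).exists
  rcases h.2 _ _ hn with hk | hr
  · left
    rw [Module.End.isUnit_iff]
    apply IsArtinian.bijective_of_injective_endomorphism
    rw [← LinearMap.ker_eq_bot, eq_bot_iff, ← hk]
    intro x hx
    rw [LinearMap.mem_ker] at hx ⊢
    obtain ⟨k, rfl⟩ : ∃ k, n = k + 1 := ⟨n - 1, by omega⟩
    rw [pow_succ, Module.End.mul_apply, hx, map_zero]
  · right
    exact ⟨n, LinearMap.range_eq_bot.mp hr⟩

theorem Indec.isLocalRing [IsArtinian B M] [IsNoetherian B M] (h : Indec B M) :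
    IsLocalRing (Module.End B M) := by
  haveI := h.1
  haveI : Nontrivial (Module.End B M) := inferInstance
  refine ⟨fun {a b} hab => ?_⟩
  rcases h.isUnit_or_isNilpotent a with ha | ha
  · exact Or.inl ha
  · right
    have : b = 1 - a := by rw [← hab]; abel
    rw [this]
    exact ha.isUnit_one_sub

theorem Indec.exists_isUnit_of_sum [IsArtinian B M] [IsNoetherian B M] (h : Indec B M)
    {ι : Type*} (s : Finset ι) (f : ι → Module.End B M) (hs : IsUnit (∑ i ∈ s, f i)) :
    ∃ i ∈ s, IsUnit (f i) := by
  classical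
  haveI := h.1
  haveI := h.isLocalRing
  induction s using Finset.induction_on with
  | empty =>
    simp at hs
  | insert a t ha ih =>
    rw [Finset.sum_insert ha] at hs
    obtain ⟨v, hv⟩ := hs
    have h1 : (↑v⁻¹ : Module.End B M) * f a + ↑v⁻¹ * ∑ i ∈ t, f i = 1 := by
      rw [← mul_add, ← hv, Units.inv_mul]
    rcases IsLocalRing.isUnit_or_isUnit_of_add_one h1 with h2 | h2
    · exact ⟨a, Finset.mem_insert_self _ _, by
        have := (Units.isUnit v).mul h2
        rwa [← mul_assoc, Units.mul_inv, one_mul] at this⟩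
    · have h3 : IsUnit (∑ i ∈ t, f i) := by
        have := (Units.isUnit v).mul h2
        rwa [← mul_assoc, Units.mul_inv, one_mul] at this
      obtain ⟨i, hi, hi'⟩ := ih h3
      exact ⟨i, Finset.mem_insert_of_mem hi, hi'⟩

/-- If `g ∘ f` is bijective for `f : M → N`, `g : N → M`, `N` indecomposable and `M` nontrivial,
then `M ≃ N`. -/
theorem Indec.equiv_of_comp_isUnit {N : Type*} [AddCommGroup N] [Module B N] [Nontrivial M]
    (hN : Indec B N) (f : M →ₗ[B] N) (g : N →ₗ[B] M)
    (h : Function.Bijective (g ∘ₗ f)) : Nonempty (M ≃ₗ[B] N) := by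
  have hinj : Function.Injective f := by
    intro x y hxy
    apply h.1
    simp [hxy]
  have hc : IsCompl (LinearMap.range f) (LinearMap.ker g) := by
    constructor
    · rw [Submodule.disjoint_def]
      rintro x ⟨y, rfl⟩ hx
      rw [LinearMap.mem_ker] at hx
      have : y = 0 := by
        apply h.1
        simp [hx]
      simp [this]
    · rw [codisjoint_iff, Submodule.eq_top_iff']
      intro x
      obtain ⟨y, hy⟩ := h.2 (g x)
      rw [Submodule.mem_sup]
      refine ⟨f y, ⟨y, rfl⟩, x - f y, ?_, by abel⟩
      rw [LinearMap.mem_ker, map_sub, ← hy]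
      simp
  rcases hN.2 _ _ hc with h1 | h1
  · exfalso
    obtain ⟨x, hx⟩ := exists_ne (0 : M)
    apply hx
    apply hinj
    rw [LinearMap.range_eq_bot] at h1
    simp [h1]
  · refine ⟨LinearEquiv.ofBijective f ⟨hinj, ?_⟩⟩
    rw [h1] at hc
    have := hc.sup_eq_top
    rw [sup_bot_eq] at this
    exact LinearMap.range_eq_top.mp this

end Fitting

section FiniteHom

variable (K : Type*) [Field K] {B : Type*} [Ring B] [Algebra K B]
variable {M N : Type*} [AddCommGroup M] [Module K M] [Module B M] [IsScalarTower K B M]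
  [AddCommGroup N] [Module K N] [Module B N] [IsScalarTower K B N]

/-- dimension of the Hom space -/
noncomputable def hd (K : Type*) [Field K] (B : Type*) [Ring B] [Algebra K B]
    (M N : Type*) [AddCommGroup M] [Module K M] [Module B M] [IsScalarTower K B M]
    [AddCommGroup N] [Module K N] [Module B N] [IsScalarTower K B N] : ℕ :=
  Module.finrank K (M →ₗ[B] N)

instance finite_hom [Module.Finite K M] [Module.Finite K N] : Module.Finite K (M →ₗ[B] N) := by
  let φ : (M →ₗ[B] N) →ₗ[K] (M →ₗ[K] N) :=
    { toFun := fun f => f.restrictScalars K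
      map_add' := fun f g => rfl
      map_smul' := fun c f => rfl }
  have hφ : Function.Injective φ := by
    intro f g hfg
    ext x
    exact congrArg (fun h : M →ₗ[K] N => h x) hfg
  exact Module.Finite.of_injective φ hφ

end FiniteHom

end Pool.Agent.H26
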