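import Pool.Agent.H26.Defs

namespace Pool.Agent.H26

universe u

/-- The elements `t 0, …, t (c-1)` of the ring `B` are central, and each of them is a
non-zero-divisor modulo the ideal generated by any subset of the others. -/
def IsRegularSystem {B : Type u} [Ring B] {c : ℕ} (t : Fin c → B) : Prop :=
  (∀ i b, t i * b = b * t i) ∧
  ∀ (i : Fin c) (S : Set (Fin c)), i ∉ S → ∀ b : B,
    t i * b ∈ Ideal.span (t '' S) → b ∈ Ideal.span (t '' S)

end Pool.Agent.H26
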