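import Pool.Agent.H26.Cut
import Pool.Agent.H26.CIDefs

namespace Pool.Agent.H26

universe u

open CategoryTheory CategoryTheory.Abelian CategoryTheory.Limits

section CI

variable {B : Type u} [Ring B] {c : ℕ} (t : Fin c → B)

theorem span_twoSided (ht : ∀ i b, t i * b = b * t i) (S : Set (Fin c)) :
    (Ideal.span (t '' S)).IsTwoSided := by
  constructor
  intro x r hx
  induction hx using Submodule.span_induction with
  | mem x hx =>
    obtain ⟨i, hi, rfl⟩ := hx
    rw [ht i r]
    exact Ideal.mul_mem_left _ r (Ideal.subset_span ⟨i, hi, rfl⟩)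
  | zero => rw [zero_mul]; exact Submodule.zero_mem _
  | add x y _ _ hx hy => rw [add_mul]; exact Submodule.add_mem _ hx hy
  | smul a x _ hx =>
    rw [smul_eq_mul, mul_assoc]
    exact Ideal.mul_mem_left _ a hx

theorem mem_span_insert' (ht : ∀ i b, t i * b = b * t i) (S : Set (Fin c)) (i : Fin c) (x : B) :
    x ∈ Ideal.span (t '' (insert i S)) ↔ ∃ y, x - t i * y ∈ Ideal.span (t '' S) := by
  rw [Set.image_insert_eq, Ideal.mem_span_insert]
  constructor
  · rintro ⟨a, z, hz, rfl⟩
    refine ⟨a, ?_⟩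
    rw [ht i a]
    simpa using hz
  · rintro ⟨y, hy⟩
    exact ⟨y, _, hy, by rw [ht i y]; abel⟩

theorem exists_lift {R C D : Type u} [Ring R] [Ring C] [Ring D] (q : R →+* C)
    (hq : Function.Surjective q) (g : R →+* D) (h : ∀ x, q x = 0 → g x = 0) :
    ∃ f : C →+* D, ∀ x, f (q x) = g x := by
  have hker : RingHom.ker q ≤ RingHom.ker g := fun x hx => h x hx
  refine ⟨RingHom.liftOfSurjective q hq ⟨g, hker⟩, fun x => ?_⟩
  exact RingHom.liftOfRightInverse_comp_apply q _ _ ⟨g, hker⟩ x

/-- The induction statement along the chain of quotients. -/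
def ChainStmt {A' : Type u} [Ring A'] (π : B →+* A') (n : ℕ) (S : Set (Fin c)) : Prop :=
  ∃ (R : Type u) (_ : Ring R) (q : B →+* R) (g : R →+* A'), Function.Surjective q ∧
    (∀ x, q x = 0 ↔ x ∈ Ideal.span (t '' S)) ∧ (∀ b, g (q b) = π b) ∧
    ∀ (M : Type u) [AddCommGroup M] [Module A' M],
      Subsingleton (Ext (ModuleCat.of A' M) (ModuleCat.of A' M) 2) →
      ∀ [Module R M], (∀ (r : R) (m : M), r • m = g r • m) →
      HasProjectiveDimensionLT (ModuleCat.of R M) n

theorem chain_step {A' : Type u} [Ring A'] (π : B →+* A') (hπ : Function.Surjective π)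
    (hker : ∀ x, π x = 0 ↔ x ∈ Ideal.span (Set.range t)) (ht : IsRegularSystem t)
    (n : ℕ) (S : Set (Fin c)) (i : Fin c) (hi : i ∉ S) (h : ChainStmt t π (n + 2) S)
    (R2 : Type u) [Ring R2] (q2 : B →+* R2) (g2 : R2 →+* A') (hq2 : Function.Surjective q2)
    (hk2 : ∀ x, q2 x = 0 ↔ x ∈ Ideal.span (t '' (insert i S))) (hg2 : ∀ b, g2 (q2 b) = π b)
    (M : Type u) [AddCommGroup M] [Module A' M]
    (hM : Subsingleton (Ext (ModuleCat.of A' M) (ModuleCat.of A' M) 2))
    [Module R2 M] (hcomp : ∀ (r : R2) (m : M), r • m = g2 r • m) :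
    HasProjectiveDimensionLT (ModuleCat.of R2 M) (n + 1) := by
  obtain ⟨R, _, q, g, hq, hk, hg, hpd⟩ := h
  have hmono : ∀ x, x ∈ Ideal.span (t '' S) → x ∈ Ideal.span (t '' (insert i S)) := fun x hx =>
    Ideal.span_mono (Set.image_mono (Set.subset_insert i S)) hx
  obtain ⟨f, hf⟩ := exists_lift q hq q2 (fun x hx => (hk2 x).mpr (hmono x ((hk x).mp hx)))
  have hcut : IsCut f (q (t i)) := by
    constructor
    · intro y
      obtain ⟨b, rfl⟩ := hq2 y
      exact ⟨q b, hf b⟩
    · intro x
      obtain ⟨b, rfl⟩ := hq x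
      rw [← map_mul, ← map_mul, ht.1]
    · intro x hx
      obtain ⟨b, rfl⟩ := hq x
      rw [← map_mul, hk] at hx
      exact (hk b).mpr (ht.2 i S hi b hx)
    · intro x
      obtain ⟨b, rfl⟩ := hq x
      rw [hf, hk2, mem_span_insert' t ht.1]
      constructor
      · rintro ⟨y, hy⟩
        refine ⟨q y, ?_⟩
        have h1 := (hk _).mpr hy
        rw [map_sub, map_mul, sub_eq_zero] at h1
        exact h1
      · rintro ⟨y, hy⟩
        obtain ⟨z, rfl⟩ := hq y
        refine ⟨z, (hk _).mp ?_⟩
        rw [map_sub, map_mul, hy, sub_self]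
  -- the ring `C = B / (t_l : l ≠ i)`
  let T : Set (Fin c) := {l | l ≠ i}
  have hT : i ∉ T := fun h => h rfl
  have hST : S ⊆ T := fun l hl h => hi (h ▸ hl)
  have hTi : insert i T = Set.univ := by
    ext l
    simp only [Set.mem_insert_iff, Set.mem_univ, iff_true]
    exact em (l = i)
  have htwo : (Ideal.span (t '' T)).IsTwoSided := span_twoSided t ht.1 T
  let C := B ⧸ Ideal.span (t '' T)
  let qC : B →+* C := Ideal.Quotient.mk (Ideal.span (t '' T))
  have hqC : Function.Surjective qC := Ideal.Quotient.mk_surjective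
  have hkC : ∀ x, qC x = 0 ↔ x ∈ Ideal.span (t '' T) := fun x => Ideal.Quotient.eq_zero_iff_mem
  have hkerT : ∀ x, π x = 0 ↔ x ∈ Ideal.span (t '' (insert i T)) := by
    intro x
    rw [hTi, Set.image_univ]
    exact hker x
  obtain ⟨gC, hgC⟩ := exists_lift qC hqC π (fun x hx => (hkerT x).mpr
    (Ideal.span_mono (Set.image_mono (Set.subset_insert i T)) ((hkC x).mp hx)))
  have hcutC : IsCut gC (qC (t i)) := by
    constructor
    · intro y
      obtain ⟨b, rfl⟩ := hπ y
      exact ⟨qC b, hgC b⟩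
    · intro x
      obtain ⟨b, rfl⟩ := hqC x
      rw [← map_mul, ← map_mul, ht.1]
    · intro x hx
      obtain ⟨b, rfl⟩ := hqC x
      rw [← map_mul, hkC] at hx
      exact (hkC b).mpr (ht.2 i T hT b hx)
    · intro x
      obtain ⟨b, rfl⟩ := hqC x
      rw [hgC, hkerT, mem_span_insert' t ht.1]
      constructor
      · rintro ⟨y, hy⟩
        refine ⟨qC y, ?_⟩
        have h1 := (hkC _).mpr hy
        rw [map_sub, map_mul, sub_eq_zero] at h1
        exact h1
      · rintro ⟨y, hy⟩
        obtain ⟨z, rfl⟩ := hqC y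
        refine ⟨z, (hkC _).mp ?_⟩
        rw [map_sub, map_mul, hy, sub_self]
  obtain ⟨φ, hφ⟩ := exists_lift q hq qC (fun x hx => (hkC x).mpr
    (Ideal.span_mono (Set.image_mono hST) ((hk x).mp hx)))
  let _ : Module C M := Module.compHom M gC
  let _ : Module R M := Module.compHom M g
  have hCM : ∀ (b : C) (m : M), b • m = gC b • m := fun b m => rfl
  have hRM : ∀ (b : R) (m : M), b • m = g b • m := fun b m => rfl
  have hsplitC : SplitAt C (qC (t i)) M := split_of_ext hcutC M hCM hM
  have hsplitR : SplitAt R (q (t i)) M := by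
    refine split_pass φ (q (t i)) M ?_ ?_
    · intro b m
      rw [hRM, hCM]
      obtain ⟨x, rfl⟩ := hq b
      rw [hφ, hgC, hg]
    · rw [hφ]
      exact hsplitC
  refine split_step hcut M ?_ hsplitR n (hpd M hM hRM)
  intro b m
  obtain ⟨x, rfl⟩ := hq b
  rw [hRM, hcomp, hf, hg, hg2]

theorem chain_base {A' : Type u} [Ring A'] (π : B →+* A') (n : ℕ)
    (hB : ∀ X : ModuleCat.{u} B, HasProjectiveDimensionLT X n) : ChainStmt t π n ∅ := by
  refine ⟨B, inferInstance, RingHom.id B, π, Function.surjective_id, ?_, fun b => rfl, ?_⟩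
  · intro x
    rw [Set.image_empty, Ideal.span_empty]
    rfl
  · intro M _ _ _ _ _
    exact hB _

theorem chain_all {A' : Type u} [Ring A'] (π : B →+* A') (hπ : Function.Surjective π)
    (hker : ∀ x, π x = 0 ↔ x ∈ Ideal.span (Set.range t)) (ht : IsRegularSystem t) (m : ℕ)
    (hB : ∀ X : ModuleCat.{u} B, HasProjectiveDimensionLT X (c + m + 1)) :
    ∀ j : ℕ, j ≤ c → ChainStmt t π (c - j + m + 1) {l | l.val < j} := by
  intro j
  induction j with
  | zero =>
    intro _
    have h0 : {l : Fin c | l.val < 0} = ∅ := by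
      ext l
      simp
    rw [h0]
    exact chain_base t π _ hB
  | succ j ih =>
    intro hj
    have h1 := ih (by omega)
    have e1 : c - j + m + 1 = (c - (j + 1) + m) + 2 := by omega
    rw [e1] at h1
    let i : Fin c := ⟨j, by omega⟩
    have hi : i ∉ {l : Fin c | l.val < j} := by simp [i]
    have hins : insert i {l : Fin c | l.val < j} = {l : Fin c | l.val < j + 1} := by
      ext l
      simp only [Set.mem_insert_iff, Set.mem_ofPred_eq, i, Fin.ext_iff]
      omega
    have htwo : (Ideal.span (t '' {l : Fin c | l.val < j + 1})).IsTwoSided :=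
      span_twoSided t ht.1 _
    have hkq : ∀ x, Ideal.Quotient.mk (Ideal.span (t '' {l : Fin c | l.val < j + 1})) x = 0 ↔
        x ∈ Ideal.span (t '' {l : Fin c | l.val < j + 1}) := fun x =>
      Ideal.Quotient.eq_zero_iff_mem
    obtain ⟨g2, hg2⟩ := exists_lift
      (Ideal.Quotient.mk (Ideal.span (t '' {l : Fin c | l.val < j + 1})))
      Ideal.Quotient.mk_surjective π (fun x hx => (hker x).mpr
        (Ideal.span_mono (Set.image_subset_range _ _) ((hkq x).mp hx)))
    refine ⟨B ⧸ Ideal.span (t '' {l : Fin c | l.val < j + 1}), inferInstance,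
      Ideal.Quotient.mk _, g2, Ideal.Quotient.mk_surjective, hkq, hg2, ?_⟩
    intro M _ _ hM _ hcomp
    exact chain_step t π hπ hker ht (c - (j + 1) + m) {l : Fin c | l.val < j} i hi h1
      (B ⧸ Ideal.span (t '' {l : Fin c | l.val < j + 1})) (Ideal.Quotient.mk _) g2
      Ideal.Quotient.mk_surjective (by rw [hins]; exact hkq) hg2 M hM hcomp

/-- Over a quotient `A'` of a ring `B` of global dimension at most `c + m` by a regular system of
`c ≥ 1` central elements, a module with `Ext^2(M, M) = 0` has projective dimension at most `m`. -/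
theorem ci_pd {A' : Type u} [Ring A'] (π : B →+* A') (hπ : Function.Surjective π)
    (hker : ∀ x, π x = 0 ↔ x ∈ Ideal.span (Set.range t)) (ht : IsRegularSystem t) (m : ℕ)
    (hB : ∀ X : ModuleCat.{u} B, HasProjectiveDimensionLT X (c + m + 1)) (hc : 0 < c)
    (M : Type u) [AddCommGroup M] [Module A' M]
    (hM : Subsingleton (Ext (ModuleCat.of A' M) (ModuleCat.of A' M) 2)) :
    HasProjectiveDimensionLT (ModuleCat.of A' M) (m + 1) := by
  have h1 := chain_all t π hπ hker ht m hB (c - 1) (by omega)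
  have e1 : c - (c - 1) + m + 1 = m + 2 := by omega
  rw [e1] at h1
  let i : Fin c := ⟨c - 1, by omega⟩
  have hi : i ∉ {l : Fin c | l.val < c - 1} := by simp [i]
  have hins : insert i {l : Fin c | l.val < c - 1} = Set.univ := by
    ext l
    have := l.2
    simp only [Set.mem_insert_iff, Set.mem_ofPred_eq, i, Fin.ext_iff, Set.mem_univ, iff_true]
    omega
  exact chain_step t π hπ hker ht m {l : Fin c | l.val < c - 1} i hi h1 A' π (RingHom.id A') hπ
    (by rw [hins, Set.image_univ]; exact hker) (fun b => rfl) M hM (fun r m => rfl)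

end CI

end Pool.Agent.H26
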