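import Pool.Agent.H26.CI

namespace Pool.Agent.H26

universe u

open CategoryTheory CategoryTheory.Abelian CategoryTheory.Limits MulOpposite

section Op

variable {B : Type u} [Ring B] {c : ℕ} (t : Fin c → B)

theorem span_op (ht : ∀ i b, t i * b = b * t i) (S : Set (Fin c)) (x : B)
    (hx : x ∈ Ideal.span (t '' S)) : op x ∈ Ideal.span ((fun i => op (t i)) '' S) := by
  have ht' : ∀ i b, (fun i => op (t i)) i * b = b * (fun i => op (t i)) i := by
    intro i b
    change op (t i) * b = b * op (t i)
    rw [← op_unop b, ← op_mul, ← op_mul, ht]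
  have := span_twoSided (fun i => op (t i)) ht' S
  induction hx using Submodule.span_induction with
  | mem x hx =>
    obtain ⟨i, hi, rfl⟩ := hx
    exact Ideal.subset_span ⟨i, hi, rfl⟩
  | zero => exact Submodule.zero_mem _
  | add x y _ _ hx hy => rw [MulOpposite.op_add]; exact Submodule.add_mem _ hx hy
  | smul a x _ hx =>
    rw [smul_eq_mul, op_mul]
    exact Ideal.mul_mem_right _ _ hx

theorem span_unop (ht : ∀ i b, t i * b = b * t i) (S : Set (Fin c)) (x : Bᵐᵒᵖ)
    (hx : x ∈ Ideal.span ((fun i => op (t i)) '' S)) : unop x ∈ Ideal.span (t '' S) := by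
  have := span_twoSided t ht S
  induction hx using Submodule.span_induction with
  | mem x hx =>
    obtain ⟨i, hi, rfl⟩ := hx
    exact Ideal.subset_span ⟨i, hi, rfl⟩
  | zero => exact Submodule.zero_mem _
  | add x y _ _ hx hy => rw [MulOpposite.unop_add]; exact Submodule.add_mem _ hx hy
  | smul a x _ hx =>
    rw [smul_eq_mul, unop_mul]
    exact Ideal.mul_mem_right _ _ hx

theorem isRegularSystem_op (ht : IsRegularSystem t) :
    IsRegularSystem (fun i => op (t i)) := by
  refine ⟨?_, ?_⟩
  · intro i b
    rw [← op_unop b, ← op_mul, ← op_mul, ht.1]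
  · intro i S hi b hb
    have h1 := span_unop t ht.1 S _ hb
    rw [unop_mul, unop_op, ← ht.1] at h1
    have h2 := span_op t ht.1 S _ (ht.2 i S hi _ h1)
    rwa [op_unop] at h2

end Op

/-- For `A` a quotient of `B` by a regular system of `c ≥ 1` central elements, where the right
modules over `B` have projective dimension at most `c + m`, a right `A`-module with
`Ext^2(M, M) = 0` has projective dimension at most `m`. -/
theorem ci_pd_right {A B : Type u} [Ring A] [Ring B] {c : ℕ} (hc : 0 < c) (t : Fin c → B)
    (ht : IsRegularSystem t) (m : ℕ)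
    (hB : ∀ X : ModuleCat.{u} Bᵐᵒᵖ, HasProjectiveDimensionLE X (c + m))
    (π : B →+* A) (hπ : Function.Surjective π)
    (hker : RingHom.ker π = Ideal.span (Set.range t)) (M : ModuleCat.{u} Aᵐᵒᵖ)
    (hM : Subsingleton (Ext M M 2)) : HasProjectiveDimensionLE M m := by
  refine ci_pd (fun i => op (t i)) (RingHom.op π) ?_ ?_ (isRegularSystem_op t ht) m hB hc M hM
  · intro y
    obtain ⟨x, hx⟩ := hπ (unop y)
    exact ⟨op x, by
      change op (π (unop (op x))) = y
      rw [unop_op, hx, op_unop]⟩
  · intro x
    have h1 : RingHom.op π x = 0 ↔ unop x ∈ RingHom.ker π := by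
      rw [RingHom.mem_ker]
      change op (π (unop x)) = 0 ↔ _
      rw [op_eq_zero_iff]
    rw [h1, hker, ← Set.image_univ, ← Set.image_univ]
    constructor
    · intro h
      have := span_op t ht.1 Set.univ _ h
      rwa [op_unop] at this
    · exact span_unop t ht.1 Set.univ x

end Pool.Agent.H26
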