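import Pool.Agent.H26.Basic

namespace Pool.Agent.H26

universe u

section ExtVanish

variable {B : Type*} [Ring B]
  {P0 P1 P2 : Type*} [AddCommGroup P0] [Module B P0] [AddCommGroup P1] [Module B P1]
  [AddCommGroup P2] [Module B P2]

/-- `Ext^1(M, Z) = 0`, read off from a resolution `P2 → P1 → P0 → M`. -/
def E1 (d1 : P1 →ₗ[B] P0) (d2 : P2 →ₗ[B] P1) (Z : Type*) [AddCommGroup Z] [Module B Z] : Prop :=
  ∀ f : P1 →ₗ[B] Z, f ∘ₗ d2 = 0 → ∃ g : P0 →ₗ[B] Z, g ∘ₗ d1 = f

/-- `Ext^2(M, Z) = 0`, read off from a resolution `0 → P2 → P1 → P0 → M`. -/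
def E2 (d2 : P2 →ₗ[B] P1) (Z : Type*) [AddCommGroup Z] [Module B Z] : Prop :=
  ∀ f : P2 →ₗ[B] Z, ∃ g : P1 →ₗ[B] Z, g ∘ₗ d2 = f

variable {d1 : P1 →ₗ[B] P0} {d2 : P2 →ₗ[B] P1}

theorem E2.quot [Module.Projective B P2] {X Y : Type*} [AddCommGroup X] [Module B X]
    [AddCommGroup Y] [Module B Y] (h : E2 d2 X) (q : X →ₗ[B] Y) (hq : Function.Surjective q) :
    E2 d2 Y := by
  intro f
  obtain ⟨f', hf'⟩ := Module.projective_lifting_property q f hq
  obtain ⟨g, hg⟩ := h f'
  exact ⟨q ∘ₗ g, by rw [LinearMap.comp_assoc, hg, hf']⟩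

theorem E2.extension [Module.Projective B P2] [Module.Projective B P1]
    {X' X Y : Type*} [AddCommGroup X'] [Module B X'] [AddCommGroup X] [Module B X]
    [AddCommGroup Y] [Module B Y] (j : X' →ₗ[B] X) (q : X →ₗ[B] Y) (hq : Function.Surjective q)
    (hjq : ∀ x, q x = 0 → ∃ y, j y = x) (h' : E2 d2 X') (h'' : E2 d2 Y) : E2 d2 X := by
  intro f
  obtain ⟨g, hg⟩ := h'' (q ∘ₗ f)
  obtain ⟨g1, hg1⟩ := Module.projective_lifting_property q g hq
  have hker : ∀ x, (f - g1 ∘ₗ d2) x ∈ LinearMap.range j := by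
    intro x
    apply hjq
    have e1 : q (g1 (d2 x)) = g (d2 x) := by
      rw [← hg1]; rfl
    have e2 : g (d2 x) = q (f x) := by
      have := congrArg (fun h => h x) hg
      simpa using this
    rw [LinearMap.sub_apply, map_sub, LinearMap.comp_apply, e1, e2, sub_self]
  obtain ⟨f2, hf2⟩ := Module.projective_lifting_property j.rangeRestrict
    ((f - g1 ∘ₗ d2).codRestrict (LinearMap.range j) hker) (LinearMap.surjective_rangeRestrict j)
  obtain ⟨g2, hg2⟩ := h' f2
  refine ⟨g1 + j ∘ₗ g2, ?_⟩
  ext x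
  have e3 : j (f2 x) = f x - g1 (d2 x) := by
    have := congrArg (fun h => ((h x : LinearMap.range j) : X)) hf2
    simpa using this
  have e4 : g2 (d2 x) = f2 x := by
    have := congrArg (fun h => h x) hg2
    simpa using this
  simp [e4, e3]

theorem E1.quot [Module.Projective B P1] {N : Type*} [AddCommGroup N] [Module B N]
    (T : Submodule B N) (h1 : E1 d1 d2 N) (h2 : E2 d2 T) : E1 d1 d2 (N ⧸ T) := by
  intro f hf
  obtain ⟨h, hh⟩ := Module.projective_lifting_property T.mkQ f T.mkQ_surjective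
  have hT : ∀ x, (h ∘ₗ d2) x ∈ T := by
    intro x
    rw [← Submodule.Quotient.mk_eq_zero]
    have : T.mkQ (h (d2 x)) = f (d2 x) := by rw [← hh]; rfl
    have h0 : f (d2 x) = 0 := by
      have := congrArg (fun h => h x) hf
      simpa using this
    rw [h0] at this
    exact this
  obtain ⟨e, he⟩ := h2 ((h ∘ₗ d2).codRestrict T hT)
  have h3 : (h - T.subtype ∘ₗ e) ∘ₗ d2 = 0 := by
    ext x
    have := congrArg (fun h => ((h x : T) : N)) he
    simp only [LinearMap.comp_apply, LinearMap.codRestrict_apply] at this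
    simp [this]
  obtain ⟨g, hg⟩ := h1 _ h3
  refine ⟨T.mkQ ∘ₗ g, ?_⟩
  rw [LinearMap.comp_assoc, hg]
  ext x
  have : T.mkQ (h x) = f x := by rw [← hh]; rfl
  simp only [LinearMap.comp_apply, LinearMap.sub_apply, map_sub, this, Submodule.subtype_apply]
  simp

theorem E1.pi {ι : Type*} {X : ι → Type*} [∀ i, AddCommGroup (X i)] [∀ i, Module B (X i)]
    (h : ∀ i, E1 d1 d2 (X i)) : E1 d1 d2 (∀ i, X i) := by
  intro f hf
  have h' : ∀ i, ∃ g : P0 →ₗ[B] X i, g ∘ₗ d1 = LinearMap.proj i ∘ₗ f := by
    intro i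
    apply h i
    rw [LinearMap.comp_assoc, hf, LinearMap.comp_zero]
  choose g hg using h'
  refine ⟨LinearMap.pi g, ?_⟩
  ext x i
  have := congrArg (fun h => h x) (hg i)
  simpa using this

theorem E2.pi {ι : Type*} {X : ι → Type*} [∀ i, AddCommGroup (X i)] [∀ i, Module B (X i)]
    (h : ∀ i, E2 d2 (X i)) : E2 d2 (∀ i, X i) := by
  intro f
  have h' : ∀ i, ∃ g : P1 →ₗ[B] X i, g ∘ₗ d2 = LinearMap.proj i ∘ₗ f := by
    intro i
    apply h i
  choose g hg using h'
  refine ⟨LinearMap.pi g, ?_⟩
  ext x i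
  have := congrArg (fun h => h x) (hg i)
  simpa using this

theorem E2.of_subsingleton {X : Type*} [AddCommGroup X] [Module B X] [Subsingleton X] :
    E2 d2 X := by
  intro f
  refine ⟨0, ?_⟩
  ext x
  exact Subsingleton.elim _ _

end ExtVanish

section Approx

variable (K : Type*) [Field K] {B : Type*} [Ring B] [Algebra K B]
variable {ι : Type*} [Fintype ι] (M : ι → Type u) [∀ i, AddCommGroup (M i)]
  [∀ i, Module K (M i)] [∀ i, Module B (M i)] [∀ i, IsScalarTower K B (M i)]
  [∀ i, Module.Finite K (M i)]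

theorem exists_approx (Y : Type*) [AddCommGroup Y] [Module K Y] [Module B Y]
    [IsScalarTower K B Y] [Module.Finite K Y] :
    ∃ (n : ι → ℕ) (p : (∀ i, Fin (n i) → M i) →ₗ[B] Y),
      ∀ i (f : M i →ₗ[B] Y), ∃ f' : M i →ₗ[B] (∀ i, Fin (n i) → M i), p ∘ₗ f' = f := by
  classical
  let n : ι → ℕ := fun i => Module.finrank K (M i →ₗ[B] Y)
  let b : ∀ i, Module.Basis (Fin (n i)) K (M i →ₗ[B] Y) := fun i => Module.finBasis K _
  let p : (∀ i, Fin (n i) → M i) →ₗ[B] Y :=
    ∑ i, (∑ j, (b i j) ∘ₗ LinearMap.proj (R := B) (φ := fun _ : Fin (n i) => M i) j) ∘ₗ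
      LinearMap.proj (R := B) (φ := fun i => (Fin (n i) → M i)) i
  refine ⟨n, p, fun i f => ?_⟩
  let f1 : M i →ₗ[B] (Fin (n i) → M i) :=
    LinearMap.pi (fun j => ((b i).repr f j) • (LinearMap.id : M i →ₗ[B] M i))
  refine ⟨LinearMap.single B (fun i => (Fin (n i) → M i)) i ∘ₗ f1, ?_⟩
  ext x
  have hf : f = ∑ j, (b i).repr f j • b i j := ((b i).sum_repr f).symm
  have hx : f x = ∑ j, (b i).repr f j • b i j x := by
    conv_lhs => rw [hf]
    simp only [LinearMap.sum_apply, LinearMap.smul_apply]
  rw [hx]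
  simp only [p, LinearMap.comp_apply, LinearMap.sum_apply, LinearMap.proj_apply,
    LinearMap.coe_single]
  rw [Finset.sum_eq_single i]
  · simp only [Pi.single_eq_same, f1, LinearMap.pi_apply, LinearMap.smul_apply, LinearMap.id_apply]
    refine Finset.sum_congr rfl fun j _ => ?_
    exact (LinearMap.map_smul_of_tower (b i j) _ _)
  · intro k _ hk
    simp [Pi.single_eq_of_ne hk]
  · intro h
    exact absurd (Finset.mem_univ i) h

end Approx

section Counting

variable (K : Type*) [Field K] {B : Type*} [Ring B] [Algebra K B]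

/-- composition with a fixed map, as a `K`-linear map on Hom spaces. -/
def postc {M N N' : Type*} [AddCommGroup M] [Module K M] [Module B M] [IsScalarTower K B M]
    [AddCommGroup N] [Module K N] [Module B N] [IsScalarTower K B N]
    [AddCommGroup N'] [Module K N'] [Module B N'] [IsScalarTower K B N'] (g : N →ₗ[B] N') :
    (M →ₗ[B] N) →ₗ[K] (M →ₗ[B] N') where
  toFun f := g ∘ₗ f
  map_add' f f' := by ext x; simp
  map_smul' c f := by
    ext x
    simp only [LinearMap.comp_apply, LinearMap.smul_apply, RingHom.id_apply]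
    exact LinearMap.map_smul_of_tower g c (f x)

/-- composition with a fixed map on the right, as a `K`-linear map on Hom spaces. -/
def prec {M M' N : Type*} [AddCommGroup M] [Module K M] [Module B M] [IsScalarTower K B M]
    [AddCommGroup N] [Module K N] [Module B N] [IsScalarTower K B N]
    [AddCommGroup M'] [Module K M'] [Module B M'] [IsScalarTower K B M'] (g : M' →ₗ[B] M) :
    (M →ₗ[B] N) →ₗ[K] (M' →ₗ[B] N) where
  toFun f := f ∘ₗ g
  map_add' f f' := by ext x; simp
  map_smul' c f := by
    ext x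
    simp

@[simp] theorem postc_apply {M N N' : Type*} [AddCommGroup M] [Module K M] [Module B M]
    [IsScalarTower K B M] [AddCommGroup N] [Module K N] [Module B N] [IsScalarTower K B N]
    [AddCommGroup N'] [Module K N'] [Module B N'] [IsScalarTower K B N'] (g : N →ₗ[B] N')
    (f : M →ₗ[B] N) : postc K g f = g ∘ₗ f := rfl

@[simp] theorem prec_apply {M M' N : Type*} [AddCommGroup M] [Module K M] [Module B M]
    [IsScalarTower K B M] [AddCommGroup N] [Module K N] [Module B N] [IsScalarTower K B N]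
    [AddCommGroup M'] [Module K M'] [Module B M'] [IsScalarTower K B M'] (g : M' →ₗ[B] M)
    (f : M →ₗ[B] N) : prec K g f = f ∘ₗ g := rfl

theorem hd_congr {M M' N N' : Type*} [AddCommGroup M] [Module K M] [Module B M]
    [IsScalarTower K B M]
    [AddCommGroup M'] [Module K M'] [Module B M'] [IsScalarTower K B M']
    [AddCommGroup N] [Module K N] [Module B N] [IsScalarTower K B N]
    [AddCommGroup N'] [Module K N'] [Module B N'] [IsScalarTower K B N']
    (e : M ≃ₗ[B] M') (e' : N ≃ₗ[B] N') : hd K B M N = hd K B M' N' := by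
  unfold hd
  refine LinearEquiv.finrank_eq (LinearEquiv.ofLinearMap
    (postc K e'.toLinearMap ∘ₗ prec K e.symm.toLinearMap)
    (postc K e'.symm.toLinearMap ∘ₗ prec K e.toLinearMap) ?_ ?_)
  · ext f x; simp
  · ext f x; simp

/-- Hom out of a projective module is exact, counted. -/
theorem hd_projective (P : Type*) [AddCommGroup P] [Module K P] [Module B P]
    [IsScalarTower K B P] [Module.Finite K P] [Module.Projective B P]
    {Z : Type*} [AddCommGroup Z] [Module K Z] [Module B Z] [IsScalarTower K B Z]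
    [Module.Finite K Z] (T : Submodule B Z) :
    hd K B P Z = hd K B P T + hd K B P (Z ⧸ T) := by
  have h1 := LinearMap.finrank_range_add_finrank_ker (postc (M := P) K T.mkQ)
  have hr : LinearMap.range (postc (M := P) K T.mkQ) = ⊤ := by
    rw [LinearMap.range_eq_top]
    intro f
    obtain ⟨h, hh⟩ := Module.projective_lifting_property T.mkQ f T.mkQ_surjective
    exact ⟨h, hh⟩
  have hk : Module.finrank K (LinearMap.ker (postc (M := P) K T.mkQ)) = hd K B P T := by
    have hinj : Function.Injective (postc (M := P) K T.subtype) := by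
      intro f g hfg
      ext x
      exact congrArg (fun h => h x) hfg
    have hkr : LinearMap.ker (postc (M := P) K T.mkQ) =
        LinearMap.range (postc (M := P) K T.subtype) := by
      ext f
      rw [LinearMap.mem_ker, LinearMap.mem_range]
      constructor
      · intro hf
        have hf' : ∀ x, f x ∈ T := by
          intro x
          rw [← Submodule.Quotient.mk_eq_zero]
          exact congrArg (fun h => h x) hf
        exact ⟨f.codRestrict T hf', by ext x; rfl⟩
      · rintro ⟨g, rfl⟩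
        ext x
        simp
    rw [hkr, LinearMap.finrank_range_of_inj hinj]
    rfl
  rw [hr, finrank_top, hk] at h1
  unfold hd at *
  omega

theorem hd_three {P0 P1 P2 M : Type*} [AddCommGroup P0] [Module K P0] [Module B P0]
    [IsScalarTower K B P0] [Module.Finite K P0]
    [AddCommGroup P1] [Module K P1] [Module B P1] [IsScalarTower K B P1] [Module.Finite K P1]
    [AddCommGroup P2] [Module K P2] [Module B P2] [IsScalarTower K B P2] [Module.Finite K P2]
    [AddCommGroup M] [Module K M] [Module B M] [IsScalarTower K B M] [Module.Finite K M]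
    {Z : Type*} [AddCommGroup Z] [Module K Z] [Module B Z] [IsScalarTower K B Z]
    [Module.Finite K Z]
    (p : P0 →ₗ[B] M) (d1 : P1 →ₗ[B] P0) (d2 : P2 →ₗ[B] P1) (hp : Function.Surjective p)
    (h1 : Function.Exact d1 p) (h2 : Function.Exact d2 d1)
    (he1 : E1 d1 d2 Z) (he2 : E2 d2 Z) :
    (hd K B M Z : ℤ) = hd K B P0 Z - hd K B P1 Z + hd K B P2 Z := by
  have f1 := LinearMap.finrank_range_add_finrank_ker (prec (N := Z) K p)
  have f2 := LinearMap.finrank_range_add_finrank_ker (prec (N := Z) K d1)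
  have f3 := LinearMap.finrank_range_add_finrank_ker (prec (N := Z) K d2)
  have k1 : LinearMap.ker (prec (N := Z) K p) = ⊥ := by
    rw [LinearMap.ker_eq_bot']
    intro f hf
    ext m
    obtain ⟨x, rfl⟩ := hp m
    exact congrArg (fun h => h x) hf
  have k2 : LinearMap.ker (prec (N := Z) K d1) = LinearMap.range (prec (N := Z) K p) := by
    ext f
    rw [LinearMap.mem_ker, LinearMap.mem_range]
    constructor
    · intro hf
      have hf' : LinearMap.ker p ≤ LinearMap.ker f := by
        intro x hx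
        obtain ⟨y, rfl⟩ := (h1 x).mp hx
        exact congrArg (fun h => h y) hf
      refine ⟨(LinearMap.ker p).liftQ f hf' ∘ₗ
        (p.quotKerEquivOfSurjective hp).symm.toLinearMap, ?_⟩
      ext x
      simp only [prec_apply, LinearMap.comp_apply, LinearEquiv.coe_coe]
      have : (p.quotKerEquivOfSurjective hp).symm (p x) = (LinearMap.ker p).mkQ x := by
        rw [LinearEquiv.symm_apply_eq]
        rfl
      rw [this]
      simp
    · rintro ⟨g, rfl⟩
      ext x
      simp [h1.apply_apply_eq_zero]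
  have k3 : LinearMap.ker (prec (N := Z) K d2) = LinearMap.range (prec (N := Z) K d1) := by
    ext f
    rw [LinearMap.mem_ker, LinearMap.mem_range]
    constructor
    · intro hf
      exact he1 f hf
    · rintro ⟨g, rfl⟩
      ext x
      simp [h2.apply_apply_eq_zero]
  have k4 : LinearMap.range (prec (N := Z) K d2) = ⊤ := by
    rw [LinearMap.range_eq_top]
    exact he2
  rw [k1, finrank_bot] at f1
  rw [k2] at f2
  rw [k3, k4, finrank_top] at f3
  unfold hd
  omega

end Counting

end Pool.Agent.H26
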