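import Pool.Agent.H26.Periodic

namespace Pool.Agent.H26

universe u

open CategoryTheory CategoryTheory.Abelian CategoryTheory.Limits

section PD

variable {B : Type u} [Ring B]

theorem pd_retract {X X' : ModuleCat.{u} B} (r : Retract X' X) (n : ℕ)
    (h : HasProjectiveDimensionLT X n) : HasProjectiveDimensionLT X' n := by
  rw [hasProjectiveDimensionLT_iff]
  intro i hi Y e
  exact (ext_retract_left r (HasProjectiveDimensionLT.subsingleton X n i hi Y)).elim _ _

end PD

/-- `f : R' → R` is a surjective ring homomorphism whose kernel is generated by the central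
non-zero-divisor `t`. -/
structure IsCut {R' R : Type u} [Ring R'] [Ring R] (f : R' →+* R) (t : R') : Prop where
  surj : Function.Surjective f
  comm : ∀ x, t * x = x * t
  reg : ∀ x, t * x = 0 → x = 0
  ker : ∀ x, f x = 0 ↔ ∃ y, x = t * y

section Cut

variable {R' R : Type u} [Ring R'] [Ring R] {f : R' →+* R} {t : R'}

theorem IsCut.ft (hc : IsCut f t) : f t = 0 := (hc.ker t).mpr ⟨1, by rw [mul_one]⟩

/-- multiplication by the central element `t` -/
def IsCut.mulT (hc : IsCut f t) (N : Type u) [AddCommGroup N] [Module R' N] : N →ₗ[R'] N where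
  toFun n := t • n
  map_add' := smul_add t
  map_smul' r n := by
    simp only [RingHom.id_apply, ← mul_smul]
    rw [hc.comm]

/-- The `R`-module structure on an `R'`-module killed by `t`. -/
@[implicit_reducible]
noncomputable def IsCut.toModule (hc : IsCut f t) (N : Type u) [AddCommGroup N] [Module R' N]
    (hN : ∀ n : N, t • n = 0) : Module R N := by
  have key : ∀ (b b' : R') (n : N), f b = f b' → b • n = b' • n := by
    intro b b' n h
    have h1 : f (b - b') = 0 := by rw [map_sub, h, sub_self]
    obtain ⟨y, hy⟩ := (hc.ker _).mp h1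
    have h2 : (b - b') • n = 0 := by rw [hy, mul_smul, hN]
    rwa [sub_smul, sub_eq_zero] at h2
  have hs : ∀ a, f (Function.surjInv hc.surj a) = a := Function.surjInv_eq hc.surj
  exact
  { smul := fun a n => Function.surjInv hc.surj a • n
    one_smul := fun n => by
      change Function.surjInv hc.surj 1 • n = n
      rw [key (Function.surjInv hc.surj 1) 1 n (by rw [hs, map_one]), one_smul]
    mul_smul := fun a b n => by
      change Function.surjInv hc.surj (a * b) • n =
        Function.surjInv hc.surj a • Function.surjInv hc.surj b • n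
      rw [← mul_smul]
      exact key _ _ n (by rw [map_mul, hs, hs, hs])
    smul_zero := fun a => smul_zero _
    smul_add := fun a n n' => smul_add _ n n'
    add_smul := fun a b n => by
      change Function.surjInv hc.surj (a + b) • n =
        Function.surjInv hc.surj a • n + Function.surjInv hc.surj b • n
      rw [← add_smul]
      exact key _ _ n (by rw [map_add, hs, hs, hs])
    zero_smul := fun n => by
      change Function.surjInv hc.surj 0 • n = 0
      rw [key (Function.surjInv hc.surj 0) 0 n (by rw [hs, map_zero]), zero_smul] }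

/-- The reduction `N / tN` as an `R`-module. -/
def Red (hc : IsCut f t) (N : Type u) [AddCommGroup N] [Module R' N] : Type u :=
  N ⧸ LinearMap.range (hc.mulT N)

variable (hc : IsCut f t)

noncomputable instance (N : Type u) [AddCommGroup N] [Module R' N] : AddCommGroup (Red hc N) :=
  inferInstanceAs (AddCommGroup (N ⧸ LinearMap.range (hc.mulT N)))

theorem red_killed (N : Type u) [AddCommGroup N] [Module R' N]
    (x : N ⧸ LinearMap.range (hc.mulT N)) : t • x = 0 := by
  obtain ⟨n, rfl⟩ := (LinearMap.range (hc.mulT N)).mkQ_surjective x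
  rw [← map_smul]
  have : t • n ∈ LinearMap.range (hc.mulT N) := ⟨n, rfl⟩
  exact (Submodule.Quotient.mk_eq_zero _).mpr this

noncomputable instance (N : Type u) [AddCommGroup N] [Module R' N] : Module R (Red hc N) :=
  hc.toModule (N ⧸ LinearMap.range (hc.mulT N)) (red_killed hc N)

/-- the quotient map -/
noncomputable def redMk (N : Type u) [AddCommGroup N] [Module R' N] : N →ₛₗ[f] Red hc N where
  toFun n := (LinearMap.range (hc.mulT N)).mkQ n
  map_add' := map_add _
  map_smul' b n := by
    have key : ∀ (b b' : R') (x : N ⧸ LinearMap.range (hc.mulT N)), f b = f b' →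
        b • x = b' • x := by
      intro b b' x h
      have h1 : f (b - b') = 0 := by rw [map_sub, h, sub_self]
      obtain ⟨y, hy⟩ := (hc.ker _).mp h1
      have h2 : (b - b') • x = 0 := by rw [hy, mul_smul, red_killed]
      rwa [sub_smul, sub_eq_zero] at h2
    rw [map_smul]
    exact key _ _ _ (Function.surjInv_eq hc.surj (f b)).symm

theorem redMk_surjective (N : Type u) [AddCommGroup N] [Module R' N] :
    Function.Surjective (redMk hc N) := (LinearMap.range (hc.mulT N)).mkQ_surjective

theorem redMk_eq_zero {N : Type u} [AddCommGroup N] [Module R' N] (n : N) :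
    redMk hc N n = 0 ↔ ∃ m, n = t • m := by
  have h1 : redMk hc N n = 0 ↔ n ∈ LinearMap.range (hc.mulT N) :=
    Submodule.Quotient.mk_eq_zero _
  rw [h1, LinearMap.mem_range]
  constructor
  · rintro ⟨m, hm⟩
    exact ⟨m, hm.symm⟩
  · rintro ⟨m, hm⟩
    exact ⟨m, hm.symm⟩

/-- universal property of the reduction -/
theorem red_lift {N X : Type u} [AddCommGroup N] [Module R' N] [AddCommGroup X] [Module R X]
    (g : N →ₛₗ[f] X) : ∃ g' : Red hc N →ₗ[R] X, ∀ n, g' (redMk hc N n) = g n := by
  have hker : ∀ n, redMk hc N n = 0 → g n = 0 := by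
    intro n hn
    obtain ⟨m, rfl⟩ := (redMk_eq_zero hc n).mp hn
    rw [LinearMap.map_smulₛₗ, hc.ft, zero_smul]
  have hwd : ∀ n n', redMk hc N n = redMk hc N n' → g n = g n' := by
    intro n n' h
    have : redMk hc N (n - n') = 0 := by rw [map_sub, h, sub_self]
    have h2 := hker _ this
    rwa [map_sub, sub_eq_zero] at h2
  let s := Function.surjInv (redMk_surjective hc N)
  have hs : ∀ x, redMk hc N (s x) = x := Function.surjInv_eq (redMk_surjective hc N)
  refine ⟨{ toFun := fun x => g (s x), map_add' := ?_, map_smul' := ?_ }, ?_⟩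
  · intro x y
    rw [← map_add]
    apply hwd
    rw [hs, map_add, hs, hs]
  · intro a x
    obtain ⟨b, rfl⟩ := hc.surj a
    rw [RingHom.id_apply, ← LinearMap.map_smulₛₗ]
    apply hwd
    rw [hs, LinearMap.map_smulₛₗ, hs]
  · intro n
    exact hwd _ _ (hs _)

theorem red_projective (N : Type u) [AddCommGroup N] [Module R' N] [Module.Projective R' N] :
    Module.Projective R (Red hc N) := by
  refine Module.Projective.of_lifting_property ?_
  intro X Y _ _ _ _ e h he
  let _ : Module R' X := Module.compHom X f
  let _ : Module R' Y := Module.compHom Y f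
  let e' : X →ₗ[R'] Y := { toFun := e, map_add' := map_add e, map_smul' := fun b x => map_smul e (f b) x }
  let h' : N →ₗ[R'] Y :=
    { toFun := fun n => h (redMk hc N n)
      map_add' := fun n m => by rw [map_add, map_add]
      map_smul' := fun b n => by
        rw [LinearMap.map_smulₛₗ, map_smul]
        rfl }
  obtain ⟨k, hk⟩ := Module.projective_lifting_property e' h' he
  let k' : N →ₛₗ[f] X := { toFun := k, map_add' := map_add k, map_smul' := fun b n => map_smul k b n }
  obtain ⟨g, hg⟩ := red_lift hc k'
  refine ⟨g, ?_⟩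
  ext x
  obtain ⟨n, rfl⟩ := redMk_surjective hc N x
  rw [LinearMap.comp_apply, hg]
  exact congrArg (fun h => h n) hk

/-- functoriality -/
theorem red_map {N N' : Type u} [AddCommGroup N] [Module R' N] [AddCommGroup N'] [Module R' N']
    (g : N →ₗ[R'] N') : ∃ g' : Red hc N →ₗ[R] Red hc N', ∀ n, g' (redMk hc N n) =
      redMk hc N' (g n) := by
  let g1 : N →ₛₗ[f] Red hc N' :=
    { toFun := fun n => redMk hc N' (g n)
      map_add' := fun n m => by rw [map_add, map_add]
      map_smul' := fun b n => by rw [map_smul, LinearMap.map_smulₛₗ] }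
  exact red_lift hc g1

theorem pd_red : ∀ (n : ℕ) (N : Type u) [AddCommGroup N] [Module R' N],
    (∀ x : N, t • x = 0 → x = 0) → HasProjectiveDimensionLT (ModuleCat.of R' N) (n + 1) →
    HasProjectiveDimensionLT (ModuleCat.of R (Red hc N)) (n + 1) := by
  intro n
  induction n with
  | zero =>
    intro N _ _ hreg hpd
    have h1 : Projective (ModuleCat.of R' N) :=
      projective_iff_hasProjectiveDimensionLT_one.mpr hpd
    have h2 : Module.Projective R' N := (IsProjective.iff_projective N).mpr h1
    have h3 := red_projective hc N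
    have h4 : Projective (ModuleCat.of R (Red hc N)) := (IsProjective.iff_projective _).mp h3
    infer_instance
  | succ n ih =>
    intro N _ _ hreg hpd
    let F := N →₀ R'
    let q : F →ₗ[R'] N := Finsupp.linearCombination R' (id : N → N)
    have hq : Function.Surjective q := fun x => ⟨Finsupp.single x 1, by
      change Finsupp.linearCombination R' id (Finsupp.single x 1) = x
      rw [Finsupp.linearCombination_single, one_smul, id]⟩
    have hF : Projective (ModuleCat.of R' F) := (IsProjective.iff_projective F).mp inferInstance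
    have hregF : ∀ x : F, t • x = 0 → x = 0 := by
      intro x hx
      ext m
      have := congrArg (fun h : F => h m) hx
      exact hc.reg _ this
    have hS := LinearMap.shortExact_shortComplexKer hq
    have hF' : Projective q.shortComplexKer.X₂ := hF
    have hk : HasProjectiveDimensionLT (ModuleCat.of R' (LinearMap.ker q)) (n + 1) :=
      hS.hasProjectiveDimensionLT_X₁ (n + 1) inferInstance hpd
    have hk' := ih (LinearMap.ker q) (by
      intro x hx
      apply Subtype.ext
      exact hregF x (congrArg Subtype.val hx)) hk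
    obtain ⟨j, hj⟩ := red_map (N := LinearMap.ker q) (N' := F) hc (LinearMap.ker q).subtype
    obtain ⟨p, hp⟩ := red_map (N := F) (N' := N) hc q
    let S : ShortComplex (ModuleCat.{u} R) :=
      { X₁ := ModuleCat.of R (Red hc (LinearMap.ker q))
        X₂ := ModuleCat.of R (Red hc F)
        X₃ := ModuleCat.of R (Red hc N)
        f := ModuleCat.ofHom j
        g := ModuleCat.ofHom p
        zero := by
          ext x
          obtain ⟨y, rfl⟩ := redMk_surjective hc _ x
          change p (j (redMk hc _ y)) = 0
          rw [hj, hp]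
          have : q ((LinearMap.ker q).subtype y) = 0 := y.2
          rw [this, map_zero] }
    have hSex : S.ShortExact := by
      have hjinj : Function.Injective j := by
        rw [injective_iff_map_eq_zero]
        intro x hx
        obtain ⟨y, rfl⟩ := redMk_surjective hc _ x
        rw [hj] at hx
        obtain ⟨m, hm⟩ := (redMk_eq_zero hc _).mp hx
        rw [redMk_eq_zero]
        have hqm : q m = 0 := by
          apply hreg
          rw [← map_smul, ← hm]
          exact y.2
        exact ⟨⟨m, hqm⟩, Subtype.ext hm⟩
      have hpsur : Function.Surjective p := by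
        intro x
        obtain ⟨y, rfl⟩ := redMk_surjective hc _ x
        obtain ⟨z, rfl⟩ := hq y
        exact ⟨redMk hc _ z, hp z⟩
      have hex : Function.Exact j p := by
        intro x
        constructor
        · intro hx
          obtain ⟨y, rfl⟩ := redMk_surjective hc _ x
          rw [hp] at hx
          obtain ⟨m, hm⟩ := (redMk_eq_zero hc _).mp hx
          obtain ⟨m', rfl⟩ := hq m
          have h0 : q (y - t • m') = 0 := by rw [map_sub, map_smul, hm, sub_self]
          refine ⟨redMk hc _ ⟨y - t • m', h0⟩, ?_⟩
          rw [hj]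
          change redMk hc F (y - t • m') = _
          rw [map_sub, LinearMap.map_smulₛₗ, hc.ft, zero_smul, sub_zero]
        · rintro ⟨z, rfl⟩
          obtain ⟨y, rfl⟩ := redMk_surjective hc _ z
          rw [hj, hp]
          have : q ((LinearMap.ker q).subtype y) = 0 := y.2
          rw [this, map_zero]
      exact
      { exact := (ShortComplex.ShortExact.moduleCat_exact_iff_function_exact _).mpr hex
        mono_f := (ModuleCat.mono_iff_injective _).mpr hjinj
        epi_g := (ModuleCat.epi_iff_surjective _).mpr hpsur }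
    have hX2 : Projective S.X₂ := by
      have h3 := red_projective hc F
      exact (IsProjective.iff_projective _).mp h3
    exact hSex.hasProjectiveDimensionLT_X₃ (n + 1) hk' inferInstance

end Cut

/-- The canonical free cover of a module. -/
noncomputable def cov (R : Type u) [Ring R] (M : Type u) [AddCommGroup M] [Module R M] :
    (M →₀ R) →ₗ[R] M := Finsupp.linearCombination R (id : M → M)

theorem cov_single (R : Type u) [Ring R] (M : Type u) [AddCommGroup M] [Module R M] (m : M)
    (r : R) : cov R M (Finsupp.single m r) = r • m := by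
  unfold cov
  rw [Finsupp.linearCombination_single, id]

theorem cov_surjective (R : Type u) [Ring R] (M : Type u) [AddCommGroup M] [Module R M] :
    Function.Surjective (cov R M) := fun m => ⟨Finsupp.single m 1, by
      rw [cov_single, one_smul]⟩

/-- The module `M` is a direct summand of `Q / tQ` through the canonical map, where `Q` is the
kernel of the free cover of `M` over `R`. -/
def SplitAt (R : Type u) [Ring R] (t : R) (M : Type u) [AddCommGroup M] [Module R M] : Prop :=
  ∃ ρ : LinearMap.ker (cov R M) →ₗ[R] M, ∀ (p : M →₀ R) (h : t • p ∈ LinearMap.ker (cov R M)),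
    ρ ⟨t • p, h⟩ = cov R M p

section Split

variable {R' R : Type u} [Ring R'] [Ring R]

theorem split_pass (φ : R' →+* R) (t : R') (M : Type u) [AddCommGroup M] [Module R M]
    [Module R' M] (hcomp : ∀ (b : R') (m : M), b • m = φ b • m) (h : SplitAt R (φ t) M) :
    SplitAt R' t M := by
  obtain ⟨ρ, hρ⟩ := h
  let μ : (M →₀ R') →+ (M →₀ R) := Finsupp.mapRange.addMonoidHom φ.toAddMonoidHom
  have hμs : ∀ (b : R') (p : M →₀ R'), μ (b • p) = φ b • μ p := by
    intro b p
    ext m
    simp [μ]
  have hμc : ∀ p, cov R M (μ p) = cov R' M p := by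
    intro p
    induction p using Finsupp.induction_linear with
    | zero => simp
    | add p q hp hq => rw [map_add, map_add, hp, hq, map_add]
    | single m r =>
      have : μ (Finsupp.single m r) = Finsupp.single m (φ r) := by simp [μ]
      rw [this, cov_single, cov_single, hcomp]
  have hmem : ∀ q : LinearMap.ker (cov R' M), μ q.1 ∈ LinearMap.ker (cov R M) := by
    intro q
    rw [LinearMap.mem_ker, hμc]
    exact q.2
  refine ⟨{ toFun := fun q => ρ ⟨μ q.1, hmem q⟩, map_add' := ?_, map_smul' := ?_ }, ?_⟩
  · intro x y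
    rw [← map_add]
    congr 1
    apply Subtype.ext
    exact map_add μ x.1 y.1
  · intro b x
    rw [RingHom.id_apply, hcomp, ← map_smul]
    congr 1
    apply Subtype.ext
    exact hμs b x.1
  · intro p h
    have h' : φ t • μ p ∈ LinearMap.ker (cov R M) := by
      rw [← hμs, LinearMap.mem_ker, hμc]
      exact h
    have h2 := hρ (μ p) h'
    rw [hμc] at h2
    rw [← h2]
    change ρ _ = ρ _
    congr 1
    apply Subtype.ext
    exact hμs t p

variable {f : R' →+* R} {t : R'} (hc : IsCut f t)

include hc in
theorem smul_mem_ker (M : Type u) [AddCommGroup M] [Module R M]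
    [Module R' M] (hcomp : ∀ (b : R') (m : M), b • m = f b • m) (p : M →₀ R') :
    t • p ∈ LinearMap.ker (cov R' M) := by
  rw [LinearMap.mem_ker, map_smul, hcomp, hc.ft, zero_smul]

theorem exists_kappa (M : Type u) [AddCommGroup M] [Module R M]
    [Module R' M] (hcomp : ∀ (b : R') (m : M), b • m = f b • m) :
    ∃ κ : M →ₗ[R] Red hc (LinearMap.ker (cov R' M)), ∀ (p : M →₀ R')
      (h : t • p ∈ LinearMap.ker (cov R' M)), κ (cov R' M p) = redMk hc _ ⟨t • p, h⟩ := by
  have hm := smul_mem_ker hc M hcomp
  let μ : (M →₀ R') →ₗ[R'] LinearMap.ker (cov R' M) :=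
    (hc.mulT (M →₀ R')).codRestrict (LinearMap.ker (cov R' M)) hm
  have hk : ∀ p, cov R' M p = 0 → redMk hc _ (μ p) = 0 := by
    intro p hp
    rw [redMk_eq_zero]
    exact ⟨⟨p, hp⟩, rfl⟩
  have hwd : ∀ p p', cov R' M p = cov R' M p' → redMk hc _ (μ p) = redMk hc _ (μ p') := by
    intro p p' h
    have h1 : cov R' M (p - p') = 0 := by rw [map_sub, h, sub_self]
    have h2 := hk _ h1
    rwa [map_sub, map_sub, sub_eq_zero] at h2
  let s : M → (M →₀ R') := fun m => Finsupp.single m 1
  have hs : ∀ m, cov R' M (s m) = m := fun m => by rw [cov_single, one_smul]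
  refine ⟨{ toFun := fun m => redMk hc _ (μ (s m)), map_add' := ?_, map_smul' := ?_ }, ?_⟩
  · intro x y
    rw [← map_add, ← map_add]
    apply hwd
    rw [hs, map_add, hs, hs]
  · intro a x
    obtain ⟨b, rfl⟩ := hc.surj a
    rw [RingHom.id_apply, ← LinearMap.map_smulₛₗ, ← map_smul]
    apply hwd
    rw [hs, map_smul, hs, hcomp]
  · intro p h
    exact hwd _ _ (hs _)

include hc in
theorem split_step (M : Type u) [AddCommGroup M] [Module R M]
    [Module R' M] (hcomp : ∀ (b : R') (m : M), b • m = f b • m) (hs : SplitAt R' t M) (n : ℕ)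
    (hpd : HasProjectiveDimensionLT (ModuleCat.of R' M) (n + 2)) :
    HasProjectiveDimensionLT (ModuleCat.of R M) (n + 1) := by
  obtain ⟨ρ, hρ⟩ := hs
  obtain ⟨κ, hκ⟩ := exists_kappa hc M hcomp
  have hS := LinearMap.shortExact_shortComplexKer (cov_surjective R' M)
  have hF' : Projective (cov R' M).shortComplexKer.X₂ :=
    (IsProjective.iff_projective (M →₀ R')).mp inferInstance
  have hk : HasProjectiveDimensionLT (ModuleCat.of R' (LinearMap.ker (cov R' M))) (n + 1) :=
    hS.hasProjectiveDimensionLT_X₁ (n + 1) inferInstance hpd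
  have hk' := pd_red hc n (LinearMap.ker (cov R' M)) (by
    intro x hx
    apply Subtype.ext
    refine Finsupp.ext fun m => ?_
    have := congrArg (fun h : M →₀ R' => h m) (congrArg Subtype.val hx)
    exact hc.reg _ this) hk
  let ρ1 : LinearMap.ker (cov R' M) →ₛₗ[f] M :=
    { toFun := ρ
      map_add' := map_add ρ
      map_smul' := fun b x => by rw [map_smul, hcomp] }
  obtain ⟨ρ2, hρ2⟩ := red_lift (N := LinearMap.ker (cov R' M)) hc ρ1
  refine pd_retract (X := ModuleCat.of R (Red hc (LinearMap.ker (cov R' M))))
    ⟨ModuleCat.ofHom κ, ModuleCat.ofHom ρ2, ?_⟩ (n + 1) hk'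
  ext m
  change ρ2 (κ m) = m
  have h1 : cov R' M (Finsupp.single m 1) = m := by rw [cov_single, one_smul]
  have h2 := hκ (Finsupp.single m 1) (smul_mem_ker hc M hcomp _)
  rw [h1] at h2
  rw [h2, hρ2]
  change ρ _ = m
  rw [hρ, h1]

include hc in
theorem split_of_ext (M : Type u) [AddCommGroup M] [Module R M]
    [Module R' M] (hcomp : ∀ (b : R') (m : M), b • m = f b • m)
    (hext : Subsingleton (Ext (ModuleCat.of R M) (ModuleCat.of R M) 2)) : SplitAt R' t M := by
  obtain ⟨κ, hκ⟩ := exists_kappa hc M hcomp
  -- the map `P / tP → M`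
  let c1 : (M →₀ R') →ₛₗ[f] M :=
    { toFun := cov R' M
      map_add' := map_add _
      map_smul' := fun b x => by rw [map_smul, hcomp] }
  obtain ⟨pb, hpb⟩ := red_lift (N := M →₀ R') hc c1
  have hpbs : Function.Surjective pb := by
    intro m
    obtain ⟨p, rfl⟩ := cov_surjective R' M m
    exact ⟨redMk hc _ p, hpb p⟩
  obtain ⟨g, hg⟩ := red_map (N := LinearMap.ker (cov R' M)) (N' := M →₀ R') hc
    (LinearMap.ker (cov R' M)).subtype
  have hgm : ∀ x, g x ∈ LinearMap.ker pb := by
    intro x
    obtain ⟨y, rfl⟩ := redMk_surjective hc _ x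
    rw [LinearMap.mem_ker, hg, hpb]
    exact y.2
  let g' : Red hc (LinearMap.ker (cov R' M)) →ₗ[R] LinearMap.ker pb :=
    g.codRestrict (LinearMap.ker pb) hgm
  have hg's : Function.Surjective g' := by
    rintro ⟨z, hz⟩
    obtain ⟨p, rfl⟩ := redMk_surjective hc _ z
    have hp : cov R' M p = 0 := by
      rw [LinearMap.mem_ker, hpb] at hz
      exact hz
    refine ⟨redMk hc _ ⟨p, hp⟩, ?_⟩
    apply Subtype.ext
    exact hg ⟨p, hp⟩
  have hkm : ∀ m, κ m ∈ LinearMap.ker g' := by
    intro m
    rw [LinearMap.mem_ker]
    apply Subtype.ext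
    obtain ⟨p, rfl⟩ := cov_surjective R' M m
    rw [hκ p (smul_mem_ker hc M hcomp p)]
    change g _ = 0
    rw [hg, redMk_eq_zero]
    exact ⟨p, rfl⟩
  let κ' : M →ₗ[R] LinearMap.ker g' := κ.codRestrict (LinearMap.ker g') hkm
  have hκ' : Function.Bijective κ' := by
    constructor
    · rw [injective_iff_map_eq_zero]
      intro m hm
      have h1 : κ m = 0 := congrArg Subtype.val hm
      have h3 : cov R' M (Finsupp.single m 1) = m := by rw [cov_single, one_smul]
      have h2 := hκ (Finsupp.single m 1) (smul_mem_ker hc M hcomp _)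
      rw [h3, h1] at h2
      obtain ⟨q, hq⟩ := (redMk_eq_zero hc _).mp h2.symm
      have h4 : t • Finsupp.single m (1 : R') = t • q.1 := congrArg Subtype.val hq
      have h5 : Finsupp.single m (1 : R') = q.1 := by
        refine Finsupp.ext fun m' => ?_
        have h6 := congrArg (fun h : M →₀ R' => h m') h4
        have h7 : t * (Finsupp.single m (1 : R') m' - q.1 m') = 0 := by
          rw [mul_sub, sub_eq_zero]
          exact h6
        exact sub_eq_zero.mp (hc.reg _ h7)
      rw [← h3, h5]
      exact q.2
    · rintro ⟨x, hx⟩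
      obtain ⟨q, rfl⟩ := redMk_surjective hc _ x
      rw [LinearMap.mem_ker] at hx
      have h1 : g (redMk hc _ q) = 0 := congrArg Subtype.val hx
      rw [hg, redMk_eq_zero] at h1
      obtain ⟨p, hp⟩ := h1
      refine ⟨cov R' M p, ?_⟩
      apply Subtype.ext
      change κ (cov R' M p) = _
      rw [hκ p (smul_mem_ker hc M hcomp p)]
      congr 1
      apply Subtype.ext
      exact hp.symm
  let e := LinearEquiv.ofBijective κ' hκ'
  have hproj := red_projective hc (M →₀ R')
  have hE := ext_shift pb hpbs (ModuleCat.of R M) 0 hext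
  obtain ⟨h, hh⟩ := ext_one g' hg's (ModuleCat.of R M) hE e.symm.toLinearMap
  refine ⟨{ toFun := fun q => h (redMk hc _ q), map_add' := ?_, map_smul' := ?_ }, ?_⟩
  · intro x y
    rw [map_add, map_add]
  · intro b x
    rw [LinearMap.map_smulₛₗ, map_smul, RingHom.id_apply, hcomp]
  · intro p hp
    change h (redMk hc _ ⟨t • p, hp⟩) = cov R' M p
    rw [← hκ p hp]
    have h1 := congrArg (fun k => k (e (cov R' M p))) hh
    simp only [LinearMap.comp_apply, LinearEquiv.coe_coe, LinearEquiv.symm_apply_apply] at h1
    exact h1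

end Split

end Pool.Agent.H26
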