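import Mathlib

/-!
Definitions used in the statements on rigid modules.  A right module over `A` is a left module
over `Aᵐᵒᵖ`, so everything is stated for left modules over a ring `R` and used for `R = Aᵐᵒᵖ`.
-/

namespace Pool.Agent.H26

universe u

open CategoryTheory CategoryTheory.Abelian CategoryTheory.Limits

/-- `M` is `k`-rigid: `Ext^i(M, M) = 0` for `1 ≤ i ≤ k`. -/
def IsRigid {R : Type u} [Ring R] (k : ℕ) (M : ModuleCat.{u} R) : Prop :=
  ∀ i : ℕ, 1 ≤ i → i ≤ k → Subsingleton (Ext M M i)

/-- The isomorphism class of a module. -/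
def isoClass {R : Type u} [Ring R] (M : ModuleCat.{u} R) :
    Quotient (isIsomorphicSetoid (ModuleCat.{u} R)) :=
  Quotient.mk (isIsomorphicSetoid (ModuleCat.{u} R)) M

/-- The number of isomorphism classes of indecomposable direct summands of `M`. -/
noncomputable def size {R : Type u} [Ring R] (M : ModuleCat.{u} R) : ℕ∞ :=
  Set.encard {c | ∃ N : ModuleCat.{u} R, Indecomposable N ∧ Nonempty (Retract N M) ∧
    isoClass N = c}

/-- The number of isomorphism classes of simple modules. -/
noncomputable def numSimples (R : Type u) [Ring R] : ℕ∞ :=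
  Set.encard {c | ∃ S : ModuleCat.{u} R, Simple S ∧ isoClass S = c}

/-- The supremum of the sizes of the finitely generated `k`-rigid modules. -/
noncomputable def o (k : ℕ) (R : Type u) [Ring R] : ℕ∞ :=
  ⨆ M : {M : ModuleCat.{u} R // Module.Finite R M ∧ IsRigid k M}, size M.1

end Pool.Agent.H26
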