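import Pool.Agent.H26.Rigid

namespace Pool.Agent.H26

universe u

open CategoryTheory CategoryTheory.Abelian

section

variable {B : Type u} [Ring B]

theorem exists_factor {P M Z : Type*} [AddCommGroup P] [Module B P] [AddCommGroup M] [Module B M]
    [AddCommGroup Z] [Module B Z] (p : P →ₗ[B] M) (hp : Function.Surjective p)
    (f : P →ₗ[B] Z) (hf : ∀ x, p x = 0 → f x = 0) : ∃ g : M →ₗ[B] Z, g ∘ₗ p = f := by
  have hf' : LinearMap.ker p ≤ LinearMap.ker f := fun x hx => hf x hx
  refine ⟨(LinearMap.ker p).liftQ f hf' ∘ₗ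
    (p.quotKerEquivOfSurjective hp).symm.toLinearMap, ?_⟩
  ext x
  simp only [LinearMap.comp_apply, LinearEquiv.coe_coe]
  have : (p.quotKerEquivOfSurjective hp).symm (p x) = (LinearMap.ker p).mkQ x := by
    rw [LinearEquiv.symm_apply_eq]
    rfl
  rw [this]
  simp

variable {P M : Type u} [AddCommGroup P] [Module B P] [AddCommGroup M] [Module B M]

theorem ext_shift [Module.Projective B P] (p : P →ₗ[B] M) (hp : Function.Surjective p)
    (Z : ModuleCat.{u} B) (n : ℕ) (h : Subsingleton (Ext (ModuleCat.of B M) Z (n + 2))) :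
    Subsingleton (Ext (ModuleCat.of B (LinearMap.ker p)) Z (n + 1)) := by
  have hS := LinearMap.shortExact_shortComplexKer hp
  have hproj : Projective (ModuleCat.of B P) := (IsProjective.iff_projective P).mp inferInstance
  refine subsingleton_of_forall_eq 0 fun x₁ => ?_
  have e : 1 + (n + 1) = n + 2 := by omega
  obtain ⟨x₂, hx₂⟩ := Ext.contravariant_sequence_exact₁ hS Z x₁ e (h.elim _ _)
  rw [← hx₂]
  have : x₂ = 0 := by
    have hproj' : Projective (p.shortComplexKer.X₂) := hproj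
    exact Ext.eq_zero_of_projective x₂
  rw [this, Ext.comp_zero]

theorem ext_one (p : P →ₗ[B] M) (hp : Function.Surjective p)
    (Z : ModuleCat.{u} B) (h : Subsingleton (Ext (ModuleCat.of B M) Z 1))
    (f : LinearMap.ker p →ₗ[B] Z) : ∃ g : P →ₗ[B] Z, g ∘ₗ (LinearMap.ker p).subtype = f := by
  have hS := LinearMap.shortExact_shortComplexKer hp
  let x₁ : Ext p.shortComplexKer.X₁ Z 0 := Ext.mk₀ (ModuleCat.ofHom f)
  obtain ⟨x₂, hx₂⟩ := Ext.contravariant_sequence_exact₁ hS Z x₁ (add_zero 1) (h.elim _ _)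
  obtain ⟨g, rfl⟩ := Ext.mk₀_bijective _ _ |>.2 x₂
  rw [Ext.mk₀_comp_mk₀] at hx₂
  have := (Ext.mk₀_bijective _ _).1 hx₂
  refine ⟨g.hom, ?_⟩
  have h2 := congrArg ModuleCat.Hom.hom this
  exact h2

/-- If `Ext^1(M, ker p) = 0` for a surjection `p : P → M` from a projective module, then `M` is
projective. -/
theorem projective_of_ext_one [Module.Projective B P] (p : P →ₗ[B] M)
    (hp : Function.Surjective p)
    (h : Subsingleton (Ext (ModuleCat.of B M) (ModuleCat.of B (LinearMap.ker p)) 1)) :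
    Module.Projective B M := by
  obtain ⟨r, hr⟩ := ext_one p hp (ModuleCat.of B (LinearMap.ker p)) h LinearMap.id
  obtain ⟨s, hs⟩ := exists_factor p hp (LinearMap.id - (LinearMap.ker p).subtype ∘ₗ r) (by
    intro x hx
    have : r x = ⟨x, hx⟩ := congrArg (fun h => h ⟨x, hx⟩) hr
    simp [this])
  refine Module.Projective.of_split s p ?_
  ext m
  obtain ⟨x, rfl⟩ := hp m
  have h1 : s (p x) = x - (r x : P) := congrArg (fun h => h x) hs
  have h2 : p (r x : P) = 0 := (r x).2
  simp [h1, h2]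

theorem exists_res [IsNoetherianRing B] (M : ModuleCat.{u} B) [Module.Finite B M]
    (h3 : ∀ N : ModuleCat.{u} B, Module.Finite B N → Subsingleton (Ext M N 3)) :
    ∃ (P0 P1 P2 : ModuleCat.{u} B) (p : P0 →ₗ[B] M) (d1 : P1 →ₗ[B] P0) (d2 : P2 →ₗ[B] P1),
      Module.Finite B P0 ∧ Module.Finite B P1 ∧ Module.Finite B P2 ∧
      Module.Projective B P0 ∧ Module.Projective B P1 ∧ Module.Projective B P2 ∧
      Function.Surjective p ∧ Function.Exact d1 p ∧ Function.Exact d2 d1 ∧
      (∀ Z : ModuleCat.{u} B, Subsingleton (Ext M Z 1) → E1 d1 d2 Z) ∧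
      (∀ Z : ModuleCat.{u} B, Subsingleton (Ext M Z 2) → E2 d2 Z) := by
  obtain ⟨n0, p, hp⟩ := Module.Finite.exists_fin' B M
  have hfin1 : Module.Finite B (LinearMap.ker p) := inferInstance
  obtain ⟨n1, q, hq⟩ := Module.Finite.exists_fin' B (LinearMap.ker p)
  have hfin2 : Module.Finite B (LinearMap.ker q) := inferInstance
  obtain ⟨n2, r, hr⟩ := Module.Finite.exists_fin' B (LinearMap.ker q)
  have hproj2 : Module.Projective B (LinearMap.ker q) := by
    apply projective_of_ext_one r hr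
    apply ext_shift q hq _ 0
    apply ext_shift p hp _ 1
    exact h3 _ inferInstance
  refine ⟨ModuleCat.of B (Fin n0 → B), ModuleCat.of B (Fin n1 → B),
    ModuleCat.of B (LinearMap.ker q), p, (LinearMap.ker p).subtype ∘ₗ q,
    (LinearMap.ker q).subtype, inferInstance, inferInstance, hfin2, inferInstance, inferInstance,
    hproj2, hp, ?_, ?_, ?_, ?_⟩
  · intro x
    constructor
    · intro hx
      obtain ⟨y, hy⟩ := hq ⟨x, hx⟩
      exact ⟨y, congrArg Subtype.val hy⟩
    · rintro ⟨y, rfl⟩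
      exact (q y).2
  · intro x
    constructor
    · intro hx
      exact ⟨⟨x, Subtype.ext hx⟩, rfl⟩
    · rintro ⟨y, rfl⟩
      exact congrArg Subtype.val y.2
  · intro Z hZ f hf
    obtain ⟨f', hf'⟩ := exists_factor q hq f (by
      intro x hx
      exact congrArg (fun h => h ⟨x, hx⟩) hf)
    obtain ⟨g, hg⟩ := ext_one p hp Z hZ f'
    exact ⟨g, by rw [← LinearMap.comp_assoc, hg, hf']⟩
  · intro Z hZ f
    exact ext_one q hq Z (ext_shift p hp Z 0 hZ) f

end

end Pool.Agent.H26
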