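import Pool.Agent.H26.Defs

namespace Pool.Agent.H26

universe u

open CategoryTheory CategoryTheory.Abelian CategoryTheory.Limits

/-- `N` is an `n`-th syzygy of `X`: there is an exact sequence
`0 → N → P_{n-1} → ⋯ → P_0 → X → 0` with all `P_i` finitely generated projective. -/
def IsSyzygyOf {R : Type u} [Ring R] : ℕ → ModuleCat.{u} R → ModuleCat.{u} R → Prop
  | 0, X, N => Nonempty (X ≅ N)
  | n + 1, X, N => ∃ (P : ModuleCat.{u} R) (p : P →ₗ[R] X), Module.Finite R P ∧ Projective P ∧
      Function.Surjective p ∧ IsSyzygyOf n (ModuleCat.of R (LinearMap.ker p)) N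

/-- The number of isomorphism classes of indecomposable non-projective direct summands of
`n`-th syzygies of finitely generated modules. -/
noncomputable def numSyzygies (n : ℕ) (R : Type u) [Ring R] : ℕ∞ :=
  Set.encard {c | ∃ N N' X : ModuleCat.{u} R, Indecomposable N ∧ ¬ Projective N ∧
    Nonempty (Retract N N') ∧ IsSyzygyOf n X N' ∧ Module.Finite R X ∧ isoClass N = c}

/-- `M` is a generator: the regular module is a direct summand of a finite power of `M`. -/
def IsGenerator {R : Type u} [Ring R] (M : ModuleCat.{u} R) : Prop :=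
  ∃ a : ℕ, Nonempty (Retract (ModuleCat.of R R) (ModuleCat.of R (Fin a → M)))

end Pool.Agent.H26
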