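import Pool.Agent.H26.Periodic
import Pool.Agent.H26.GenDefs

namespace Pool.Agent.H26

universe u

open CategoryTheory CategoryTheory.Abelian CategoryTheory.Limits

section Pow

variable {B : Type u} [Ring B]

/-- `Ext^n(X, M) = 0` implies `Ext^n(X, M^m) = 0`. -/
theorem ext_pow_zero (X M : ModuleCat.{u} B) (n : ℕ)
    (h : Subsingleton (Ext X M n)) (m : ℕ) :
    Subsingleton (Ext X (ModuleCat.of B (Fin m → M)) n) := by
  classical
  refine subsingleton_of_forall_eq 0 fun x => ?_
  have hid : (𝟙 (ModuleCat.of B (Fin m → M))) =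
      ∑ i, (ModuleCat.ofHom (LinearMap.proj (R := B) (φ := fun _ : Fin m => M) i) ≫
        ModuleCat.ofHom (LinearMap.single B (fun _ : Fin m => M) i)) := by
    apply ModuleCat.hom_ext
    rw [ModuleCat.hom_sum]
    refine LinearMap.ext fun v => ?_
    rw [LinearMap.sum_apply]
    exact (Finset.univ_sum_single v).symm
  have h2 : x.comp (Ext.mk₀ (𝟙 (ModuleCat.of B (Fin m → M)))) (add_zero n) = x := by simp
  rw [← h2, hid, Ext.mk₀_sum, Ext.comp_sum]
  apply Finset.sum_eq_zero
  intro i _
  have h3 : x.comp (Ext.mk₀ (ModuleCat.ofHom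
    (LinearMap.proj (R := B) (φ := fun _ : Fin m => M) i))) (add_zero n) = 0 := h.elim _ _
  have h4 : x.comp (Ext.mk₀ (ModuleCat.ofHom (LinearMap.proj (R := B) (φ := fun _ : Fin m => M) i) ≫
        ModuleCat.ofHom (LinearMap.single B (fun _ : Fin m => M) i))) (add_zero n) =
      (x.comp (Ext.mk₀ (ModuleCat.ofHom
    (LinearMap.proj (R := B) (φ := fun _ : Fin m => M) i))) (add_zero n)).comp
      (Ext.mk₀ (ModuleCat.ofHom (LinearMap.single B (fun _ : Fin m => M) i))) (add_zero n) := by
    rw [← Ext.mk₀_comp_mk₀]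
    simp
  rw [h4, h3, Ext.zero_comp]

end Pow

section HomSes

variable (K : Type*) [Field K] {B : Type*} [Ring B] [Algebra K B]

/-- `0 → Hom(X, Z) → Hom(P, Z) → Hom(ker p, Z) → 0` counted, when every map `ker p → Z` extends. -/
theorem hd_ses_left {P X : Type*} [AddCommGroup P] [Module K P] [Module B P]
    [IsScalarTower K B P] [Module.Finite K P]
    [AddCommGroup X] [Module K X] [Module B X] [IsScalarTower K B X] [Module.Finite K X]
    {Z : Type*} [AddCommGroup Z] [Module K Z] [Module B Z] [IsScalarTower K B Z]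
    [Module.Finite K Z]
    (p : P →ₗ[B] X) (hp : Function.Surjective p)
    (h : ∀ f : LinearMap.ker p →ₗ[B] Z, ∃ g : P →ₗ[B] Z, g ∘ₗ (LinearMap.ker p).subtype = f) :
    hd K B P Z = hd K B X Z + hd K B (LinearMap.ker p) Z := by
  have f1 := LinearMap.finrank_range_add_finrank_ker (prec (N := Z) K (LinearMap.ker p).subtype)
  have k1 : Function.Injective (prec (N := Z) K p) := by
    intro f g hfg
    ext m
    obtain ⟨x, rfl⟩ := hp m
    exact congrArg (fun h => h x) hfg
  have k2 : LinearMap.ker (prec (N := Z) K (LinearMap.ker p).subtype) =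
      LinearMap.range (prec (N := Z) K p) := by
    ext f
    rw [LinearMap.mem_ker, LinearMap.mem_range]
    constructor
    · intro hf
      have hf' : LinearMap.ker p ≤ LinearMap.ker f := by
        intro x hx
        exact congrArg (fun h => h ⟨x, hx⟩) hf
      refine ⟨(LinearMap.ker p).liftQ f hf' ∘ₗ
        (p.quotKerEquivOfSurjective hp).symm.toLinearMap, ?_⟩
      ext x
      simp only [prec_apply, LinearMap.comp_apply, LinearEquiv.coe_coe]
      have : (p.quotKerEquivOfSurjective hp).symm (p x) = (LinearMap.ker p).mkQ x := by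
        rw [LinearEquiv.symm_apply_eq]
        rfl
      rw [this]
      simp
    · rintro ⟨g, rfl⟩
      ext x
      simp
  have k3 : LinearMap.range (prec (N := Z) K (LinearMap.ker p).subtype) = ⊤ := by
    rw [LinearMap.range_eq_top]
    exact h
  rw [k2, k3, finrank_top, LinearMap.finrank_range_of_inj k1] at f1
  unfold hd
  omega

/-- `0 → Hom(M, ker p) → Hom(M, N) → Hom(M, Y) → 0` counted, when every map `M → Y` lifts. -/
theorem hd_ses_right {M N Y : Type*} [AddCommGroup M] [Module K M] [Module B M]
    [IsScalarTower K B M] [Module.Finite K M]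
    [AddCommGroup N] [Module K N] [Module B N] [IsScalarTower K B N] [Module.Finite K N]
    [AddCommGroup Y] [Module K Y] [Module B Y] [IsScalarTower K B Y] [Module.Finite K Y]
    (p : N →ₗ[B] Y) (h : ∀ f : M →ₗ[B] Y, ∃ g : M →ₗ[B] N, p ∘ₗ g = f) :
    hd K B M N = hd K B M Y + hd K B M (LinearMap.ker p) := by
  have h1 := LinearMap.finrank_range_add_finrank_ker (postc (M := M) K p)
  have hinj : Function.Injective (postc (M := M) K (LinearMap.ker p).subtype) := by
    intro f g hfg
    refine LinearMap.ext fun x => Subtype.ext ?_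
    exact congrArg (fun h => h x) hfg
  have hkr : LinearMap.ker (postc (M := M) K p) =
      LinearMap.range (postc (M := M) K (LinearMap.ker p).subtype) := by
    ext f
    rw [LinearMap.mem_ker, LinearMap.mem_range]
    constructor
    · intro hf
      have hf' : ∀ x, f x ∈ LinearMap.ker p := by
        intro x
        exact congrArg (fun h => h x) hf
      exact ⟨f.codRestrict (LinearMap.ker p) hf', by ext x; rfl⟩
    · rintro ⟨g, rfl⟩
      refine LinearMap.ext fun x => ?_
      exact (g x).2
  have hr : LinearMap.range (postc (M := M) K p) = ⊤ := by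
    rw [LinearMap.range_eq_top]
    exact h
  rw [hkr, LinearMap.finrank_range_of_inj hinj, hr, finrank_top] at h1
  unfold hd
  omega

theorem hd_prod {P Q : Type*} [AddCommGroup P] [Module K P] [Module B P]
    [IsScalarTower K B P] [Module.Finite K P]
    [AddCommGroup Q] [Module K Q] [Module B Q] [IsScalarTower K B Q] [Module.Finite K Q]
    {Z : Type*} [AddCommGroup Z] [Module K Z] [Module B Z] [IsScalarTower K B Z]
    [Module.Finite K Z] : hd K B (P × Q) Z = hd K B P Z + hd K B Q Z := by
  unfold hd
  rw [← Module.finrank_prod]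
  refine LinearEquiv.finrank_eq ?_
  exact { toFun := fun f => (f ∘ₗ LinearMap.inl B P Q, f ∘ₗ LinearMap.inr B P Q)
          map_add' := fun f g => rfl
          map_smul' := fun c f => rfl
          invFun := fun g => g.1.coprod g.2
          left_inv := fun f => by
            ext x <;> simp
          right_inv := fun g => by
            ext x <;> simp }

end HomSes

section Decomp

variable (K : Type*) [Field K] {B : Type u} [Ring B] [Algebra K B]

/-- A finite-dimensional module all of whose indecomposable summands lie in the list `V`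
has Hom-dimension vector a combination of those of `V`. -/
theorem exists_mult {s : ℕ} (V : Fin s → ModuleCat.{u} B) [∀ j, Module K (V j)]
    [∀ j, IsScalarTower K B (V j)] [∀ j, Module.Finite K (V j)] :
    ∀ (d : ℕ) (X : Type u) [AddCommGroup X] [Module K X] [Module B X]
    [IsScalarTower K B X] [Module.Finite K X], Module.finrank K X ≤ d →
    (∀ N : ModuleCat.{u} B, Indec B N → (∃ (i : N →ₗ[B] X) (r : X →ₗ[B] N),
      r ∘ₗ i = LinearMap.id) → ∃ j, Nonempty (N ≃ₗ[B] V j)) →
    ∃ c : Fin s → ℤ, ∀ (Z : Type u) [AddCommGroup Z] [Module K Z] [Module B Z]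
      [IsScalarTower K B Z] [Module.Finite K Z],
      (hd K B X Z : ℤ) = ∑ j, c j * hd K B (V j) Z := by
  intro d
  induction d with
  | zero =>
    intro X _ _ _ _ _ hX hV
    have : Subsingleton X := by
      have h0 : Module.finrank K X = 0 := by omega
      exact Module.finrank_zero_iff.mp h0
    refine ⟨0, fun Z _ _ _ _ _ => ?_⟩
    have : Subsingleton (X →ₗ[B] Z) := ⟨fun f g => by
      ext x; rw [Subsingleton.elim x 0, map_zero, map_zero]⟩
    have h0 : hd K B X Z = 0 := Module.finrank_zero_of_subsingleton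
    simp [h0]
  | succ d ih =>
    intro X _ _ _ _ _ hX hV
    rcases subsingleton_or_nontrivial X with hs | hnt
    · refine ⟨0, fun Z _ _ _ _ _ => ?_⟩
      have : Subsingleton (X →ₗ[B] Z) := ⟨fun f g => by
        ext x; rw [Subsingleton.elim x 0, map_zero, map_zero]⟩
      have h0 : hd K B X Z = 0 := Module.finrank_zero_of_subsingleton
      simp [h0]
    by_cases hind : Indec B X
    · obtain ⟨j, ⟨e⟩⟩ := hV (ModuleCat.of B X) hind ⟨LinearMap.id, LinearMap.id, rfl⟩
      refine ⟨Pi.single j 1, fun Z _ _ _ _ _ => ?_⟩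
      rw [Finset.sum_eq_single j]
      · rw [Pi.single_eq_same, one_mul]
        exact_mod_cast hd_congr K e (LinearEquiv.refl B Z)
      · intro b _ hb
        rw [Pi.single_eq_of_ne hb, zero_mul]
      · intro h
        exact absurd (Finset.mem_univ j) h
    have : ∃ P Q : Submodule B X, IsCompl P Q ∧ P ≠ ⊥ ∧ Q ≠ ⊥ := by
      by_contra hcon
      apply hind
      refine ⟨hnt, fun P Q hPQ => ?_⟩
      by_contra hc
      push Not at hc
      exact hcon ⟨P, Q, hPQ, hc.1, hc.2⟩
    have hfinS : ∀ P : Submodule B X, Module.Finite K P := by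
      intro P
      have : Module.Finite K (P.restrictScalars K) := inferInstance
      exact this
    have key : ∀ P Q : Submodule B X, IsCompl P Q → Q ≠ ⊥ →
        ∃ c : Fin s → ℤ, ∀ (Z : Type u) [AddCommGroup Z] [Module K Z] [Module B Z]
          [IsScalarTower K B Z] [Module.Finite K Z],
          (hd K B P Z : ℤ) = ∑ j, c j * hd K B (V j) Z := by
      intro P Q hPQ hQ
      have hPfin := hfinS P
      have hlt : Module.finrank K P < Module.finrank K X := by
        have : Module.finrank K (P.restrictScalars K) < Module.finrank K X := by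
          apply Submodule.finrank_lt
          intro h
          apply hQ
          have hP : P = ⊤ := by
            rw [eq_top_iff]
            intro x _
            have : x ∈ P.restrictScalars K := by rw [h]; trivial
            exact this
          have := hPQ.inf_eq_bot
          rwa [hP, top_inf_eq] at this
        exact this
      refine ih P (by omega) ?_
      rintro N hN ⟨i, r, hir⟩
      refine hV N hN ⟨P.subtype ∘ₗ i, r ∘ₗ Submodule.projectionOnto P Q hPQ, ?_⟩
      ext x
      have h1 : r (i x) = x := congrArg (fun h => h x) hir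
      simp [Submodule.projectionOnto_apply_left, h1]
    obtain ⟨P, Q, hPQ, hP, hQ⟩ := this
    obtain ⟨c, hc⟩ := key P Q hPQ hQ
    obtain ⟨c', hc'⟩ := key Q P hPQ.symm hP
    refine ⟨c + c', fun Z _ _ _ _ _ => ?_⟩
    have hPf := hfinS P
    have hQf := hfinS Q
    have h1 : hd K B X Z = hd K B P Z + hd K B Q Z := by
      rw [← hd_prod K]
      exact hd_congr K (Submodule.prodEquivOfIsCompl P Q hPQ).symm (LinearEquiv.refl B Z)
    have h2 : (hd K B X Z : ℤ) = hd K B P Z + hd K B Q Z := by exact_mod_cast h1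
    rw [h2, hc Z, hc' Z, ← Finset.sum_add_distrib]
    refine Finset.sum_congr rfl fun j _ => ?_
    rw [Pi.add_apply]
    ring

end Decomp

section Chi

variable (K : Type*) [Field K] {B : Type u} [Ring B] [Algebra K B]

/-- The dimension of `Hom(X, Z)` as a combination of the `Hom(V_j, Z)`, when the Ext-groups vanish
up to degree `n` and the `n`-th syzygies of `X` decompose into members of the list `V`. -/
theorem exists_chi [Module.Finite K B] {s : ℕ} (V : Fin s → ModuleCat.{u} B)
    [∀ j, Module K (V j)] [∀ j, IsScalarTower K B (V j)] [∀ j, Module.Finite K (V j)]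
    (hVp : ∀ N : ModuleCat.{u} B, Module.Finite B N → Indec B N → Module.Projective B N →
      ∃ j, Nonempty (N ≃ₗ[B] V j)) :
    ∀ (n : ℕ) (X : Type u) [AddCommGroup X] [Module K X] [Module B X]
    [IsScalarTower K B X] [Module.Finite K X],
    (∀ N' : ModuleCat.{u} B, IsSyzygyOf n (ModuleCat.of B X) N' → ∀ N : ModuleCat.{u} B,
      Indec B N → Nonempty (Retract N N') → ∃ j, Nonempty (N ≃ₗ[B] V j)) →
    ∃ c : Fin s → ℤ, ∀ (Z : Type u) [AddCommGroup Z] [Module K Z] [Module B Z]
      [IsScalarTower K B Z] [Module.Finite K Z],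
      (∀ l, 1 ≤ l → l ≤ n → Subsingleton (Ext (ModuleCat.of B X) (ModuleCat.of B Z) l)) →
      (hd K B X Z : ℤ) = ∑ j, c j * hd K B (V j) Z := by
  intro n
  induction n with
  | zero =>
    intro X _ _ _ _ _ hV
    obtain ⟨c, hc⟩ := exists_mult K V (Module.finrank K X) X le_rfl (by
      rintro N hN ⟨i, r, hir⟩
      refine hV (ModuleCat.of B X) ⟨Iso.refl _⟩ N hN ⟨⟨ModuleCat.ofHom i, ModuleCat.ofHom r, ?_⟩⟩
      ext x
      exact congrArg (fun h => h x) hir)
    exact ⟨c, fun Z _ _ _ _ _ _ => hc Z⟩
  | succ n ih =>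
    intro X _ _ _ _ _ hV
    have hXf : Module.Finite B X := Module.Finite.of_restrictScalars_finite K B X
    obtain ⟨m, p, hp⟩ := Module.Finite.exists_fin' B X
    have hnoeth : IsNoetherianRing B := isNoetherian_of_tower K (inferInstance : IsNoetherian K B)
    have hproj : ∀ m : ℕ, Projective (ModuleCat.of B (Fin m → B)) := fun m =>
      (IsProjective.iff_projective _).mp inferInstance
    have hkf : Module.Finite K (LinearMap.ker p) := by
      have : Module.Finite K ((LinearMap.ker p).restrictScalars K) := inferInstance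
      exact this
    obtain ⟨c, hc⟩ := ih (LinearMap.ker p) (by
      intro N' hN'
      exact hV N' ⟨ModuleCat.of B (Fin m → B), p, (inferInstance : Module.Finite B (Fin m → B)),
        hproj m, hp, hN'⟩)
    obtain ⟨c', hc'⟩ := exists_mult K V (Module.finrank K (Fin m → B)) (Fin m → B) le_rfl (by
      rintro N hN ⟨i, r, hir⟩
      have hsur : Function.Surjective r := fun x => ⟨i x, congrArg (fun h => h x) hir⟩
      exact hVp N (Module.Finite.of_surjective r hsur) hN (Module.Projective.of_split i r hir))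
    refine ⟨c' - c, fun Z _ _ _ _ _ hZ => ?_⟩
    have h1 := hd_ses_left K (Z := Z) p hp
      (ext_one p hp (ModuleCat.of B Z) (hZ 1 le_rfl (by omega)))
    have h2 := hc Z (by
      intro l hl hln
      obtain ⟨l', rfl⟩ : ∃ l', l = l' + 1 := ⟨l - 1, by omega⟩
      exact ext_shift p hp (ModuleCat.of B Z) l' (hZ (l' + 2) (by omega) (by omega)))
    have h3 := hc' Z
    have h4 : (hd K B (Fin m → B) Z : ℤ) = hd K B X Z + hd K B (LinearMap.ker p) Z := by
      exact_mod_cast h1
    have h5 : (hd K B X Z : ℤ) = ∑ j, c' j * hd K B (V j) Z - ∑ j, c j * hd K B (V j) Z := by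
      rw [← h2, ← h3, h4]
      ring
    rw [h5, ← Finset.sum_sub_distrib]
    refine Finset.sum_congr rfl fun j _ => ?_
    rw [Pi.sub_apply]
    ring

/-- `Ext^1(M, ker p) = 0` for a right approximation `p : M^a → Y`, if `Ext^1(M, M^a) = 0`. -/
theorem ext_one_ker {N Y : Type u} [AddCommGroup N] [Module B N] [AddCommGroup Y] [Module B Y]
    (p : N →ₗ[B] Y) (hp : Function.Surjective p) (M : ModuleCat.{u} B)
    (happ : ∀ f : M →ₗ[B] Y, ∃ f' : M →ₗ[B] N, p ∘ₗ f' = f)
    (h1 : Subsingleton (Ext M (ModuleCat.of B N) 1)) :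
    Subsingleton (Ext M (ModuleCat.of B (LinearMap.ker p)) 1) := by
  have hS := LinearMap.shortExact_shortComplexKer hp
  refine subsingleton_of_forall_eq 0 fun x₁ => ?_
  obtain ⟨x₃, hx₃⟩ := Ext.covariant_sequence_exact₁ M hS x₁ (h1.elim _ _) (n₀ := 0) rfl
  obtain ⟨f, rfl⟩ := (Ext.mk₀_bijective _ _).2 x₃
  obtain ⟨f', hf'⟩ := happ f.hom
  have hff : f = ModuleCat.ofHom f' ≫ p.shortComplexKer.g := by
    ext x
    exact (congrArg (fun h => h x) hf').symm
  rw [← hx₃, hff, ← Ext.mk₀_comp_mk₀]
  rw [Ext.comp_assoc_of_second_deg_zero, ShortComplex.ShortExact.comp_extClass, Ext.comp_zero]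

end Chi

section Claim

variable (K : Type*) [Field K] {B : Type u} [Ring B] [Algebra K B]

theorem exists_approx_single (M Y : Type u) [AddCommGroup M] [Module K M] [Module B M]
    [IsScalarTower K B M] [Module.Finite K M] [AddCommGroup Y] [Module K Y] [Module B Y]
    [IsScalarTower K B Y] [Module.Finite K Y] :
    ∃ (a : ℕ) (p : (Fin a → M) →ₗ[B] Y),
      ∀ f : M →ₗ[B] Y, ∃ f' : M →ₗ[B] (Fin a → M), p ∘ₗ f' = f := by
  obtain ⟨n, p, hp⟩ := exists_approx (B := B) K (fun _ : Unit => M) Y
  let e : (Fin (n ()) → M) →ₗ[B] (∀ i : Unit, Fin (n i) → M) :=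
    LinearMap.pi (fun _ => LinearMap.id)
  refine ⟨n (), p ∘ₗ e, fun f => ?_⟩
  obtain ⟨f', hf'⟩ := hp () f
  refine ⟨LinearMap.proj () ∘ₗ f', ?_⟩
  rw [← hf']
  ext x
  rfl

theorem approx_surjective {M Y : ModuleCat.{u} B} (hgen : IsGenerator M) {a : ℕ}
    (p : (Fin a → M) →ₗ[B] Y)
    (hp : ∀ f : M →ₗ[B] Y, ∃ f' : M →ₗ[B] (Fin a → M), p ∘ₗ f' = f) :
    Function.Surjective p := by
  classical
  obtain ⟨b, ⟨r⟩⟩ := hgen
  intro y
  let h : B →ₗ[B] Y := LinearMap.toSpanSingleton B Y y
  choose f' hf' using fun k : Fin b =>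
    hp (h ∘ₗ r.r.hom ∘ₗ LinearMap.single B (fun _ : Fin b => (M : Type u)) k)
  let v : Fin b → M := r.i.hom (1 : B)
  refine ⟨∑ k, f' k (v k), ?_⟩
  have h1 : ∀ k, p (f' k (v k)) = h (r.r.hom (Pi.single k (v k))) := by
    intro k
    exact congrArg (fun h => h (v k)) (hf' k)
  rw [map_sum]
  simp only [h1]
  rw [← map_sum, ← map_sum, Finset.univ_sum_single]
  have h2 : r.r.hom v = (1 : B) :=
    congrArg (fun f => ModuleCat.Hom.hom f (1 : B)) r.retract
  rw [h2]
  simp [h]

theorem gen_claim (n : ℕ) (M : ModuleCat.{u} B) [Module K M] [IsScalarTower K B M]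
    [Module.Finite K M] (hgen : IsGenerator M) (hM : IsRigid n M)
    {ι : Type} [Fintype ι] (N : ι → Type u)
    [∀ i, AddCommGroup (N i)] [∀ i, Module K (N i)] [∀ i, Module B (N i)]
    [∀ i, IsScalarTower K B (N i)] [∀ i, Module.Finite K (N i)]
    (r : ∀ i, Retract (ModuleCat.of B (N i)) M) (φ : ι → ℤ)
    (hφ : ∀ (Z : Type u) [AddCommGroup Z] [Module K Z] [Module B Z] [IsScalarTower K B Z]
      [Module.Finite K Z], (∀ l, 1 ≤ l → l ≤ n → Subsingleton (Ext M (ModuleCat.of B Z) l)) →
      ∑ i, φ i * (hd K B (N i) Z : ℤ) = 0) :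
    ∀ j : ℕ, ∀ (Y : Type u) [AddCommGroup Y] [Module K Y] [Module B Y] [IsScalarTower K B Y]
      [Module.Finite K Y],
      (∀ l, 1 ≤ l → l + j ≤ n → Subsingleton (Ext M (ModuleCat.of B Y) l)) →
      ∑ i, φ i * (hd K B (N i) Y : ℤ) = 0 := by
  intro j
  induction j with
  | zero =>
    intro Y _ _ _ _ _ hY
    exact hφ Y (fun l hl hln => hY l hl (by omega))
  | succ j ih =>
    intro Y _ _ _ _ _ hY
    obtain ⟨a, p, hp⟩ := exists_approx_single (B := B) K M Y
    have hsur : Function.Surjective p :=
      approx_surjective (Y := ModuleCat.of B Y) hgen p hp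
    have hpow : ∀ l, 1 ≤ l → l ≤ n → Subsingleton (Ext M (ModuleCat.of B (Fin a → M)) l) :=
      fun l hl hln => ext_pow_zero M M l (hM l hl hln) a
    have hkf : Module.Finite K (LinearMap.ker p) := by
      have : Module.Finite K ((LinearMap.ker p).restrictScalars K) := inferInstance
      exact this
    have h1 := ih (LinearMap.ker p) (by
      intro l hl hln
      by_cases hl1 : l = 1
      · subst hl1
        exact ext_one_ker p hsur M hp (hpow 1 le_rfl (by omega))
      · obtain ⟨l', rfl⟩ : ∃ l', l = l' + 1 := ⟨l - 1, by omega⟩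
        exact ext_shift_right p hsur M l' (hY l' (by omega) (by omega))
          (hpow (l' + 1) (by omega) (by omega)))
    have h2 := hφ (Fin a → M) hpow
    have h3 : ∀ i, (hd K B (N i) Y : ℤ) =
        hd K B (N i) (Fin a → M) - hd K B (N i) (LinearMap.ker p) := by
      intro i
      have h4 := hd_ses_right K (M := N i) p (by
        intro f
        obtain ⟨f', hf'⟩ := hp (f ∘ₗ (r i).r.hom)
        refine ⟨f' ∘ₗ (r i).i.hom, ?_⟩
        rw [← LinearMap.comp_assoc, hf', LinearMap.comp_assoc]
        have h5 : (r i).r.hom ∘ₗ (r i).i.hom = LinearMap.id :=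
          congrArg ModuleCat.Hom.hom (r i).retract
        rw [h5, LinearMap.comp_id])
      have h6 : (hd K B (N i) (Fin a → M) : ℤ) =
          hd K B (N i) Y + hd K B (N i) (LinearMap.ker p) := by exact_mod_cast h4
      rw [h6]
      ring
    simp only [h3, mul_sub, Finset.sum_sub_distrib]
    rw [h1, h2, sub_zero]

end Claim

section Projectives

variable {B : Type u} [Ring B]

theorem projective_unique {N N' S : Type*} [AddCommGroup N] [Module B N]
    [AddCommGroup N'] [Module B N'] [AddCommGroup S] [Module B S] [IsArtinian B N]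
    [IsNoetherian B N] [Module.Projective B N] [Module.Projective B N'] (hN : Indec B N)
    (hN' : Indec B N') [IsSimpleModule B S]
    (f : N →ₗ[B] S) (hf : f ≠ 0) (f' : N' →ₗ[B] S) (hf' : f' ≠ 0) :
    Nonempty (N ≃ₗ[B] N') := by
  have hs : Function.Surjective f := LinearMap.surjective_of_ne_zero hf
  have hs' : Function.Surjective f' := LinearMap.surjective_of_ne_zero hf'
  obtain ⟨a, ha⟩ := Module.projective_lifting_property f' f hs'
  obtain ⟨b, hb⟩ := Module.projective_lifting_property f f' hs
  have hba : f ∘ₗ (b ∘ₗ a : Module.End B N) = f := by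
    rw [← LinearMap.comp_assoc, hb, ha]
  have hnt := hN.1
  rcases hN.isUnit_or_isNilpotent (b ∘ₗ a) with hu | ⟨n, hn⟩
  · rw [Module.End.isUnit_iff] at hu
    exact Indec.equiv_of_comp_isUnit hN' a b hu
  · exfalso
    have hpow : ∀ m : ℕ, f ∘ₗ ((b ∘ₗ a : Module.End B N) ^ m) = f := by
      intro m
      induction m with
      | zero => rfl
      | succ m ihm =>
        rw [pow_succ]
        change f ∘ₗ (((b ∘ₗ a : Module.End B N) ^ m) ∘ₗ (b ∘ₗ a)) = f
        rw [← LinearMap.comp_assoc, ihm, hba]
    apply hf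
    rw [← hpow n, hn]
    ext x
    simp

variable (K : Type*) [Field K] [Algebra K B]

theorem numProj_le [Module.Finite K B] :
    Set.encard {c | ∃ N : ModuleCat.{u} B, Indecomposable N ∧ Projective N ∧ Module.Finite B N ∧
      isoClass N = c} ≤ numSimples B := by
  have hnoeth : IsNoetherianRing B := isNoetherian_of_tower K (inferInstance : IsNoetherian K B)
  have hart : IsArtinianRing B := isArtinian_of_tower K (inferInstance : IsArtinian K B)
  have h1 : ∀ N : ModuleCat.{u} B, Indecomposable N → Module.Finite B N →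
      ∃ S : ModuleCat.{u} B, Simple S ∧ ∃ f : N →ₗ[B] S, f ≠ 0 := by
    intro N hN hNf
    have hnt : Nontrivial N := (indec_of_indecomposable hN).1
    obtain ⟨T, hT, -⟩ := (eq_top_or_exists_le_coatom (⊥ : Submodule B N)).resolve_left
      (by exact bot_ne_top)
    have hsimple : IsSimpleModule B (N ⧸ T) := isSimpleModule_iff_isCoatom.mpr hT
    refine ⟨ModuleCat.of B (N ⧸ T), simple_iff_isSimpleModule.mpr hsimple, T.mkQ, ?_⟩
    intro h
    apply hT.1
    rw [← Submodule.ker_mkQ T, h, LinearMap.ker_zero]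
  unfold numSimples
  classical
  let F : Quotient (isIsomorphicSetoid (ModuleCat.{u} B)) →
      Quotient (isIsomorphicSetoid (ModuleCat.{u} B)) := fun c =>
    if h : ∃ N : ModuleCat.{u} B, Indecomposable N ∧ Projective N ∧ Module.Finite B N ∧
      isoClass N = c then
      isoClass (h1 h.choose h.choose_spec.1 h.choose_spec.2.2.1).choose else c
  refine Set.encard_le_encard_of_injOn (f := F) ?_ ?_
  · rintro c hc
    have hF : F c = isoClass (h1 hc.choose hc.choose_spec.1 hc.choose_spec.2.2.1).choose :=
      dif_pos hc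
    rw [hF]
    exact ⟨_, (h1 hc.choose hc.choose_spec.1 hc.choose_spec.2.2.1).choose_spec.1, rfl⟩
  · intro c hc c' hc' hcc
    have hF : F c = isoClass (h1 hc.choose hc.choose_spec.1 hc.choose_spec.2.2.1).choose :=
      dif_pos hc
    have hF' : F c' = isoClass (h1 hc'.choose hc'.choose_spec.1 hc'.choose_spec.2.2.1).choose :=
      dif_pos hc'
    rw [hF, hF'] at hcc
    obtain ⟨e⟩ := (isoClass_eq_iff _ _).mp hcc
    obtain ⟨hS, f, hf⟩ := (h1 hc.choose hc.choose_spec.1 hc.choose_spec.2.2.1).choose_spec
    obtain ⟨hS', f', hf'⟩ := (h1 hc'.choose hc'.choose_spec.1 hc'.choose_spec.2.2.1).choose_spec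
    have hSm := isSimpleModule_of_simple (h1 hc'.choose hc'.choose_spec.1 hc'.choose_spec.2.2.1).choose
    have hfin := hc.choose_spec.2.2.1
    have hpr := hc.choose_spec.2.1
    have hpr' := hc'.choose_spec.2.1
    have hp : Module.Projective B hc.choose := ModuleCat.projective_of_module_projective _
    have hp' : Module.Projective B hc'.choose := ModuleCat.projective_of_module_projective _
    have hf2 : e.toLinearMap ∘ₗ f ≠ 0 := by
      intro h
      apply hf
      ext x
      have := congrArg (fun h => h x) h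
      simpa using this
    have := projective_unique (indec_of_indecomposable hc.choose_spec.1)
      (indec_of_indecomposable hc'.choose_spec.1) (e.toLinearMap ∘ₗ f) hf2 f' hf'
    have h2 := (isoClass_eq_iff _ _).mpr this
    rw [hc.choose_spec.2.2.2, hc'.choose_spec.2.2.2] at h2
    exact h2

end Projectives

section GenMain

variable (K : Type*) [Field K] {B : Type u} [Ring B] [Algebra K B]

theorem syzygy_finite [IsNoetherianRing B] : ∀ (n : ℕ) (X N : ModuleCat.{u} B),
    Module.Finite B X → IsSyzygyOf n X N → Module.Finite B N := by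
  intro n
  induction n with
  | zero =>
    rintro X N hX ⟨e⟩
    exact module_finite_of_retract (M := X) ⟨e.inv, e.hom, by simp⟩
  | succ n ih =>
    rintro X N hX ⟨P, p, hP, -, -, h⟩
    exact ih _ N (inferInstance : Module.Finite B (LinearMap.ker p)) h

open ModuleCat in
/-- An `n`-rigid generator has at most `w + r` indecomposable summands, `r` the number of
indecomposable non-projective `n`-th syzygies. -/
theorem gen_size_le [Module.Finite K B] (n : ℕ) (M : ModuleCat.{u} B) (hfin : Module.Finite B M)
    (hgen : IsGenerator M) (hM : IsRigid n M) :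
    size M ≤ numSimples B + numSyzygies n B := by
  have hnoeth : IsNoetherianRing B := isNoetherian_of_tower K (inferInstance : IsNoetherian K B)
  by_cases htop : numSyzygies n B = ⊤
  · rw [htop, add_top]
    exact le_top
  let V1 : Set (Quotient (isIsomorphicSetoid (ModuleCat.{u} B))) :=
    {c | ∃ N : ModuleCat.{u} B, Indecomposable N ∧ Projective N ∧ Module.Finite B N ∧
      isoClass N = c}
  let V2 : Set (Quotient (isIsomorphicSetoid (ModuleCat.{u} B))) :=
    {c | ∃ N N' X : ModuleCat.{u} B, Indecomposable N ∧ ¬ Projective N ∧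
    Nonempty (Retract N N') ∧ IsSyzygyOf n X N' ∧ Module.Finite B X ∧ isoClass N = c}
  have hV12 : (V1 ∪ V2).encard ≤ numSimples B + numSyzygies n B :=
    (Set.encard_union_le V1 V2).trans (add_le_add (numProj_le K) le_rfl)
  refine le_trans ?_ hV12
  have hVfin : (V1 ∪ V2).encard ≠ ⊤ := by
    apply ne_top_of_le_ne_top _ hV12
    exact WithTop.add_ne_top.mpr ⟨(numSimples_lt_top K).ne, htop⟩
  obtain ⟨s, hs⟩ := ENat.ne_top_iff_exists.mp hVfin
  rw [← hs]
  by_contra hlt
  push Not at hlt
  have hVfinite : (V1 ∪ V2).Finite := Set.finite_of_encard_eq_coe hs.symm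
  have hVcard : Nat.card (V1 ∪ V2 : Set _) = s := by
    have h1 := Set.Finite.cast_ncard_eq hVfinite
    rw [← hs] at h1
    have h2 : (V1 ∪ V2).ncard = s := by exact_mod_cast h1
    exact h2
  have : Finite (V1 ∪ V2 : Set _) := hVfinite
  let e' : Fin s ≃ (V1 ∪ V2 : Set _) := (Finite.equivFinOfCardEq hVcard).symm
  have hex : ∀ j : Fin s, ∃ N : ModuleCat.{u} B, Module.Finite B N ∧ isoClass N = (e' j).1 := by
    intro j
    rcases (e' j).2 with ⟨N, -, -, hNf, hN⟩ | ⟨N, N', X, -, -, ⟨R⟩, hs, hX, hN⟩
    · exact ⟨N, hNf, hN⟩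
    · have := syzygy_finite n X N' hX hs
      exact ⟨N, module_finite_of_retract R, hN⟩
  choose V hVf hVc using hex
  have hVK : ∀ j, Module.Finite K (V j) := fun j => by
    have := hVf j
    exact Module.Finite.trans B (V j)
  have hVmem : ∀ N : ModuleCat.{u} B, isoClass N ∈ V1 ∪ V2 → ∃ j, Nonempty (N ≃ₗ[B] V j) := by
    intro N hN
    obtain ⟨j, hj⟩ := e'.surjective ⟨isoClass N, hN⟩
    refine ⟨j, (isoClass_eq_iff _ _).mp ?_⟩
    rw [hVc j, hj]
  have hVp : ∀ N : ModuleCat.{u} B, Module.Finite B N → Indec B N → Module.Projective B N →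
      ∃ j, Nonempty (N ≃ₗ[B] V j) := by
    intro N hNf hN hNp
    apply hVmem
    left
    exact ⟨N, indecomposable_of_indec hN,
      ModuleCat.projective_of_categoryTheory_projective N, hNf, rfl⟩
  -- the summands of M
  have hle : ((s + 1 : ℕ) : ℕ∞) ≤ size M := by
    have := Order.add_one_le_of_lt hlt
    exact_mod_cast this
  obtain ⟨t, hts, htc⟩ := Set.exists_subset_encard_eq hle
  have htfin : t.Finite := Set.finite_of_encard_eq_coe htc
  have hcard : Nat.card t = s + 1 := by
    have h1 := Set.Finite.cast_ncard_eq htfin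
    rw [htc] at h1
    have h2 : t.ncard = s + 1 := by exact_mod_cast h1
    exact h2
  have : Finite t := htfin
  let e : Fin (s + 1) ≃ t := (Finite.equivFinOfCardEq hcard).symm
  choose N hN1 hN2 hN3 using fun i => hts (e i).2
  have r : ∀ i, Retract (N i) M := fun i => (hN2 i).some
  have hNfin : ∀ i, Module.Finite B (N i) := fun i => module_finite_of_retract (r i)
  have hNK : ∀ i, Module.Finite K (N i) := fun i => by
    have := hNfin i
    exact Module.Finite.trans B (N i)
  have hMK : Module.Finite K M := Module.Finite.trans B M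
  have hchi := fun i => exists_chi K V hVp n (N i) (by
    intro N' hN' N0 hN0 ⟨R⟩
    apply hVmem
    by_cases hp : Projective N0
    · left
      have := syzygy_finite n (ModuleCat.of B (N i)) N' (hNfin i) hN'
      exact ⟨N0, indecomposable_of_indec hN0, hp, module_finite_of_retract R, rfl⟩
    · right
      exact ⟨N0, N', _, indecomposable_of_indec hN0, hp, ⟨R⟩, hN', hNfin i, rfl⟩)
  choose c hc using hchi
  let L : (Fin (s + 1) → ℤ) →ₗ[ℤ] (Fin s → ℤ) := Matrix.mulVecLin (Matrix.of fun j i => c i j)
  have hL : ¬ Function.Injective L := by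
    intro hinj
    have := card_le_of_injective ℤ L hinj
    rw [Fintype.card_fin, Fintype.card_fin] at this
    omega
  obtain ⟨φ, hφ0, hφ⟩ : ∃ φ, L φ = 0 ∧ φ ≠ 0 := by
    by_contra hcon
    push Not at hcon
    exact hL ((injective_iff_map_eq_zero L).mpr hcon)
  apply hφ
  have key : ∀ j, ∑ i, φ i * c i j = 0 := by
    intro j
    have := congrFun hφ0 j
    simp only [L, Matrix.mulVecLin_apply, Matrix.mulVec, dotProduct, Matrix.of_apply,
      Pi.zero_apply] at this
    rw [← this]
    exact Finset.sum_congr rfl fun i _ => mul_comm _ _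
  apply bongartz K (fun i => (N i : Type u)) (fun i => indec_of_indecomposable (hN1 i))
    (fun i j hij => by
      have h1 := (isoClass_eq_iff _ _).mpr hij
      rw [hN3 i, hN3 j] at h1
      exact e.injective (Subtype.ext h1)) φ
  intro Y _ _ _ _ _
  refine gen_claim K n M hgen hM (fun i => (N i : Type u)) (fun i => r i) φ ?_ n Y
    (fun l hl hln => by omega)
  intro Z _ _ _ _ _ hZ
  have h1 : ∀ i, (hd K B (N i) Z : ℤ) = ∑ j, c i j * hd K B (V j) Z := fun i =>
    hc i Z (fun l hl hln => ext_retract_left (r i) (hZ l hl hln))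
  simp only [h1, Finset.mul_sum]
  rw [Finset.sum_comm]
  apply Finset.sum_eq_zero
  intro j _
  simp only [← mul_assoc]
  rw [← Finset.sum_mul, key j, zero_mul]

end GenMain

end Pool.Agent.H26
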