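import Pool.Agent.H26.GendoDefs

/-!
The algebra `GE K E = End_T (T ⊕ DE)` for the trivial extension `T = E ⋉ DE`: matrices
`[[(a, φ), x], [ξ, s]]` with `a x s : E` and `φ ξ : DE`.
-/

set_option linter.unusedSectionVars false
set_option linter.unusedSimpArgs false

namespace Pool.Agent.H26.Gendo

open MulOpposite

section Bimod

variable {K E : Type*} [Field K] [Ring E] [Algebra K E]

/-- left action on the dual: `(a φ)(y) = φ (y a)`. -/
def lact (a : E) (φ : Module.Dual K E) : Module.Dual K E := φ ∘ₗ LinearMap.mulRight K a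

/-- right action on the dual: `(φ a)(y) = φ (a y)`. -/
def ract (φ : Module.Dual K E) (a : E) : Module.Dual K E := φ ∘ₗ LinearMap.mulLeft K a

@[simp] theorem lact_apply (a : E) (φ : Module.Dual K E) (y : E) : lact a φ y = φ (y * a) := rfl
@[simp] theorem ract_apply (a : E) (φ : Module.Dual K E) (y : E) : ract φ a y = φ (a * y) := rfl

@[simp] theorem lact_one (φ : Module.Dual K E) : lact 1 φ = φ := by ext y; simp
@[simp] theorem ract_one (φ : Module.Dual K E) : ract φ 1 = φ := by ext y; simp
@[simp] theorem lact_zero' (φ : Module.Dual K E) : lact 0 φ = 0 := by ext y; simp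
@[simp] theorem lact_zero (a : E) : lact a (0 : Module.Dual K E) = 0 := by ext y; simp
@[simp] theorem ract_zero' (φ : Module.Dual K E) : ract φ 0 = 0 := by ext y; simp
@[simp] theorem ract_zero (a : E) : ract (0 : Module.Dual K E) a = 0 := by ext y; simp
theorem lact_lact (a b : E) (φ : Module.Dual K E) : lact a (lact b φ) = lact (a * b) φ := by
  ext y; simp [mul_assoc]
theorem ract_ract (a b : E) (φ : Module.Dual K E) : ract (ract φ a) b = ract φ (a * b) := by
  ext y; simp [mul_assoc]
theorem ract_lact (a b : E) (φ : Module.Dual K E) : ract (lact a φ) b = lact a (ract φ b) := by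
  ext y; simp [mul_assoc]
@[simp] theorem lact_add (a : E) (φ ψ : Module.Dual K E) :
    lact a (φ + ψ) = lact a φ + lact a ψ := by ext y; simp
@[simp] theorem ract_add (a : E) (φ ψ : Module.Dual K E) :
    ract (φ + ψ) a = ract φ a + ract ψ a := by ext y; simp
@[simp] theorem add_lact (a b : E) (φ : Module.Dual K E) :
    lact (a + b) φ = lact a φ + lact b φ := by ext y; simp [mul_add]
@[simp] theorem add_ract (a b : E) (φ : Module.Dual K E) :
    ract φ (a + b) = ract φ a + ract φ b := by ext y; simp [add_mul]
@[simp] theorem lact_smul (c : K) (a : E) (φ : Module.Dual K E) :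
    lact a (c • φ) = c • lact a φ := by ext y; simp
@[simp] theorem ract_smul (c : K) (a : E) (φ : Module.Dual K E) :
    ract (c • φ) a = c • ract φ a := by ext y; simp
@[simp] theorem smul_lact (c : K) (a : E) (φ : Module.Dual K E) :
    lact (c • a) φ = c • lact a φ := by ext y; simp
@[simp] theorem smul_ract (c : K) (a : E) (φ : Module.Dual K E) :
    ract φ (c • a) = c • ract φ a := by ext y; simp

end Bimod

/-- The trivial extension algebra `E ⋉ DE`. -/
def TE (K E : Type*) [Field K] [Ring E] [Algebra K E] := E × Module.Dual K E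

/-- The matrix algebra `[[(a, φ), x], [ξ, s]]`. -/
def GE (K E : Type*) [Field K] [Ring E] [Algebra K E] :=
  E × Module.Dual K E × E × Module.Dual K E × E

variable {K E : Type*} [Field K] [Ring E] [Algebra K E]

namespace TE

instance : AddCommGroup (TE K E) := inferInstanceAs (AddCommGroup (E × Module.Dual K E))
instance : Module K (TE K E) := inferInstanceAs (Module K (E × Module.Dual K E))
instance [Module.Finite K E] : Module.Finite K (TE K E) :=
  inferInstanceAs (Module.Finite K (E × Module.Dual K E))

/-- constructor -/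
def mk (a : E) (φ : Module.Dual K E) : TE K E := (a, φ)
/-- the component in `E` -/
def a (X : TE K E) : E := X.1
/-- the component in `DE` -/
def p (X : TE K E) : Module.Dual K E := X.2

@[ext] theorem ext {X Y : TE K E} (h1 : X.a = Y.a) (h2 : X.p = Y.p) : X = Y := Prod.ext h1 h2

instance : Mul (TE K E) := ⟨fun X Y => mk (X.a * Y.a) (lact X.a Y.p + ract X.p Y.a)⟩
instance : One (TE K E) := ⟨mk 1 0⟩

section
variable (X Y : TE K E) (c : K) (b : E) (φ : Module.Dual K E)
@[simp] theorem mk_a : (mk b φ).a = b := rfl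
@[simp] theorem mk_p : (mk b φ).p = φ := rfl
@[simp] theorem mul_a : (X * Y).a = X.a * Y.a := rfl
@[simp] theorem mul_p : (X * Y).p = lact X.a Y.p + ract X.p Y.a := rfl
@[simp] theorem one_a : (1 : TE K E).a = 1 := rfl
@[simp] theorem one_p : (1 : TE K E).p = 0 := rfl
@[simp] theorem zero_a : (0 : TE K E).a = 0 := rfl
@[simp] theorem zero_p : (0 : TE K E).p = 0 := rfl
@[simp] theorem add_a : (X + Y).a = X.a + Y.a := rfl
@[simp] theorem add_p : (X + Y).p = X.p + Y.p := rfl
@[simp] theorem neg_a : (-X).a = -X.a := rfl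
@[simp] theorem neg_p : (-X).p = -X.p := rfl
@[simp] theorem smul_a : (c • X).a = c • X.a := rfl
@[simp] theorem smul_p : (c • X).p = c • X.p := rfl
end

instance : Ring (TE K E) :=
  { (inferInstance : AddCommGroup (TE K E)), (inferInstance : Mul (TE K E)),
    (inferInstance : One (TE K E)) with
  mul_assoc X Y Z := by
    ext1
    · simp [mul_assoc]
    · simp only [mul_a, mul_p, lact_add, ract_add, lact_lact, ract_ract, ract_lact]
      abel
  one_mul X := by ext1 <;> simp
  mul_one X := by ext1 <;> simp
  left_distrib X Y Z := by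
    ext1
    · simp [mul_add]
    · simp only [add_a, add_p, mul_p, lact_add, ract_add, add_ract]
      abel
  right_distrib X Y Z := by
    ext1
    · simp [add_mul]
    · simp only [add_a, add_p, mul_p, lact_add, ract_add, add_lact]
      abel
  zero_mul X := by ext1 <;> simp
  mul_zero X := by ext1 <;> simp
  }

instance : Algebra K (TE K E) := Algebra.ofModule
  (by
    intro c X Y
    ext1 <;> simp)
  (by
    intro c X Y
    ext1 <;> simp)

end TE

namespace GE

instance : AddCommGroup (GE K E) :=
  inferInstanceAs (AddCommGroup (E × Module.Dual K E × E × Module.Dual K E × E))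
instance : Module K (GE K E) :=
  inferInstanceAs (Module K (E × Module.Dual K E × E × Module.Dual K E × E))
instance [Module.Finite K E] : Module.Finite K (GE K E) :=
  inferInstanceAs (Module.Finite K (E × Module.Dual K E × E × Module.Dual K E × E))

/-- constructor -/
def mk (a : E) (φ : Module.Dual K E) (x : E) (ξ : Module.Dual K E) (s : E) : GE K E :=
  (a, φ, x, ξ, s)
/-- component -/
def a (X : GE K E) : E := X.1
/-- component -/
def p (X : GE K E) : Module.Dual K E := X.2.1
/-- component -/
def x (X : GE K E) : E := X.2.2.1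
/-- component -/
def q (X : GE K E) : Module.Dual K E := X.2.2.2.1
/-- component -/
def s (X : GE K E) : E := X.2.2.2.2

@[ext] theorem ext {X Y : GE K E} (h1 : X.a = Y.a) (h2 : X.p = Y.p) (h3 : X.x = Y.x)
    (h4 : X.q = Y.q) (h5 : X.s = Y.s) : X = Y :=
  Prod.ext h1 (Prod.ext h2 (Prod.ext h3 (Prod.ext h4 h5)))

instance : Mul (GE K E) := ⟨fun X Y => mk (X.a * Y.a) (lact X.a Y.p + ract X.p Y.a + lact X.x Y.q)
  (X.a * Y.x + X.x * Y.s) (ract X.q Y.a + lact X.s Y.q) (X.s * Y.s)⟩
instance : One (GE K E) := ⟨mk 1 0 0 0 1⟩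

section
variable (X Y : GE K E) (c : K) (a₁ x₁ s₁ : E) (p₁ q₁ : Module.Dual K E)
@[simp] theorem mk_a : (mk a₁ p₁ x₁ q₁ s₁).a = a₁ := rfl
@[simp] theorem mk_p : (mk a₁ p₁ x₁ q₁ s₁).p = p₁ := rfl
@[simp] theorem mk_x : (mk a₁ p₁ x₁ q₁ s₁).x = x₁ := rfl
@[simp] theorem mk_q : (mk a₁ p₁ x₁ q₁ s₁).q = q₁ := rfl
@[simp] theorem mk_s : (mk a₁ p₁ x₁ q₁ s₁).s = s₁ := rfl
@[simp] theorem mul_a : (X * Y).a = X.a * Y.a := rfl
@[simp] theorem mul_p : (X * Y).p = lact X.a Y.p + ract X.p Y.a + lact X.x Y.q := rfl
@[simp] theorem mul_x : (X * Y).x = X.a * Y.x + X.x * Y.s := rfl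
@[simp] theorem mul_q : (X * Y).q = ract X.q Y.a + lact X.s Y.q := rfl
@[simp] theorem mul_s : (X * Y).s = X.s * Y.s := rfl
@[simp] theorem one_a : (1 : GE K E).a = 1 := rfl
@[simp] theorem one_p : (1 : GE K E).p = 0 := rfl
@[simp] theorem one_x : (1 : GE K E).x = 0 := rfl
@[simp] theorem one_q : (1 : GE K E).q = 0 := rfl
@[simp] theorem one_s : (1 : GE K E).s = 1 := rfl
@[simp] theorem zero_a : (0 : GE K E).a = 0 := rfl
@[simp] theorem zero_p : (0 : GE K E).p = 0 := rfl
@[simp] theorem zero_x : (0 : GE K E).x = 0 := rfl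
@[simp] theorem zero_q : (0 : GE K E).q = 0 := rfl
@[simp] theorem zero_s : (0 : GE K E).s = 0 := rfl
@[simp] theorem add_a : (X + Y).a = X.a + Y.a := rfl
@[simp] theorem add_p : (X + Y).p = X.p + Y.p := rfl
@[simp] theorem add_x : (X + Y).x = X.x + Y.x := rfl
@[simp] theorem add_q : (X + Y).q = X.q + Y.q := rfl
@[simp] theorem add_s : (X + Y).s = X.s + Y.s := rfl
@[simp] theorem smul_a : (c • X).a = c • X.a := rfl
@[simp] theorem smul_p : (c • X).p = c • X.p := rfl
@[simp] theorem smul_x : (c • X).x = c • X.x := rfl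
@[simp] theorem smul_q : (c • X).q = c • X.q := rfl
@[simp] theorem smul_s : (c • X).s = c • X.s := rfl
end

instance : Ring (GE K E) :=
  { (inferInstance : AddCommGroup (GE K E)), (inferInstance : Mul (GE K E)),
    (inferInstance : One (GE K E)) with
  mul_assoc X Y Z := by
    ext1
    · simp [mul_assoc]
    · simp only [mul_a, mul_p, mul_x, mul_q, lact_add, ract_add, add_lact, lact_lact, ract_ract,
        ract_lact]
      abel
    · simp only [mul_a, mul_x, mul_s, mul_add, add_mul, mul_assoc]
      abel
    · simp only [mul_a, mul_q, mul_s, lact_add, ract_add, lact_lact, ract_ract, ract_lact]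
      abel
    · simp [mul_assoc]
  one_mul X := by ext1 <;> simp
  mul_one X := by ext1 <;> simp
  left_distrib X Y Z := by
    ext1
    · simp [mul_add]
    · simp only [add_a, add_p, add_q, mul_p, lact_add, ract_add, add_ract]
      abel
    · simp only [add_x, add_s, mul_x, mul_add]
      abel
    · simp only [add_a, add_q, mul_q, lact_add, ract_add, add_ract]
      abel
    · simp [mul_add]
  right_distrib X Y Z := by
    ext1
    · simp [add_mul]
    · simp only [add_a, add_p, add_x, mul_p, lact_add, ract_add, add_lact]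
      abel
    · simp only [add_a, add_x, mul_x, add_mul]
      abel
    · simp only [add_s, add_q, mul_q, lact_add, ract_add, add_lact]
      abel
    · simp [add_mul]
  zero_mul X := by ext1 <;> simp
  mul_zero X := by ext1 <;> simp
  }

instance : Algebra K (GE K E) := Algebra.ofModule
  (by
    intro c X Y
    ext1 <;> simp)
  (by
    intro c X Y
    ext1 <;> simp)

end GE

/-! ### Standing assumptions -/

theorem not_semisimple_of {R : Type*} [Ring R] (x : R) (hx : x ≠ 0) (h : ∀ y, x * y * x = 0) :
    ¬ IsSemisimpleRing R := by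
  intro hR
  have h1 : ComplementedLattice (Submodule R R) := inferInstance
  obtain ⟨J, hJ⟩ := exists_isCompl (Submodule.span R {x})
  have htop : (1 : R) ∈ Submodule.span R {x} ⊔ J := by
    rw [hJ.sup_eq_top]; trivial
  obtain ⟨i, hi, j, hj, hij⟩ := Submodule.mem_sup.mp htop
  obtain ⟨r, rfl⟩ := Submodule.mem_span_singleton.mp hi
  have h2 : x * j = x := by
    have h3 : x * (r • x + j) = x := by rw [hij, mul_one]
    rw [mul_add, smul_eq_mul, ← mul_assoc, h, zero_add] at h3
    exact h3
  have h4 : x ∈ J := by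
    rw [← h2]
    exact J.smul_mem x hj
  have h5 : x ∈ Submodule.span R {x} ⊓ J := ⟨Submodule.mem_span_singleton_self x, h4⟩
  rw [hJ.inf_eq_bot] at h5
  exact hx h5

theorem exists_dual_ne_zero (h : ¬ IsSemisimpleRing E) : ∃ φ : Module.Dual K E, φ ≠ 0 := by
  by_contra hc
  push Not at hc
  have h1 : Subsingleton E := by
    refine subsingleton_of_forall_eq 0 fun x => ?_
    rw [← Module.forall_dual_apply_eq_zero_iff K x]
    intro φ
    rw [hc φ]
    rfl
  apply h
  exact inferInstance

theorem isAlg_op_TE (h : IsAlg K E) : IsAlg K (TE K E)ᵐᵒᵖ := by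
  have := h.finite
  refine ⟨Module.Finite.equiv (opLinearEquiv K), ?_, ?_⟩
  · intro e hc he
    obtain ⟨e, rfl⟩ := op_surjective e
    have he' : e * e = e := congrArg unop he
    have h1 : e.a = 0 ∨ e.a = 1 := by
      refine h.connected e.a ?_ (congrArg TE.a he')
      intro b
      have := congrArg (fun X => (unop X).a) (hc (op (TE.mk b 0)))
      exact this.symm
    have h2 : lact e.a e.p + ract e.p e.a = e.p := congrArg TE.p he'
    rcases h1 with h1 | h1
    · left
      rw [h1] at h2
      simp only [lact_zero', ract_zero', add_zero] at h2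
      rw [op_eq_zero_iff]
      exact TE.ext h1 h2.symm
    · right
      rw [h1] at h2
      simp only [lact_one, ract_one] at h2
      rw [op_eq_one_iff]
      exact TE.ext h1 (add_eq_left.mp h2)
  · obtain ⟨φ, hφ⟩ := exists_dual_ne_zero (K := K) h.not_semisimple
    refine not_semisimple_of (op (TE.mk 0 φ)) ?_ ?_
    · intro h0
      rw [op_eq_zero_iff] at h0
      exact hφ (congrArg TE.p h0)
    · intro y
      obtain ⟨y, rfl⟩ := op_surjective y
      rw [← op_mul, ← op_mul, op_eq_zero_iff]
      ext1 <;> simp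

theorem isAlg_op_GE (h : IsAlg K E) : IsAlg K (GE K E)ᵐᵒᵖ := by
  have := h.finite
  refine ⟨Module.Finite.equiv (opLinearEquiv K), ?_, ?_⟩
  · intro e hc he
    obtain ⟨e, rfl⟩ := op_surjective e
    have he' : e * e = e := congrArg unop he
    have hc' : ∀ x : GE K E, x * e = e * x := fun x => congrArg unop (hc (op x))
    have h1 : e.a = 0 ∨ e.a = 1 := by
      refine h.connected e.a ?_ (congrArg GE.a he')
      intro b
      have := congrArg GE.a (hc' (GE.mk b 0 0 0 0))
      exact this.symm
    have hx : e.x = 0 := by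
      have := congrArg GE.x (hc' (GE.mk 1 0 0 0 0))
      simpa using this
    have hq : e.q = 0 := by
      have := congrArg GE.q (hc' (GE.mk 1 0 0 0 0))
      simpa using this.symm
    have hs : e.s = e.a := by
      have := congrArg GE.x (hc' (GE.mk 0 0 1 0 0))
      simpa using this
    have h2 : lact e.a e.p + ract e.p e.a + lact e.x e.q = e.p := congrArg GE.p he'
    rw [hx, hq] at h2
    rcases h1 with h1 | h1
    · left
      rw [h1] at h2
      simp only [lact_zero', ract_zero', add_zero] at h2
      rw [op_eq_zero_iff]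
      exact GE.ext h1 h2.symm hx hq (hs.trans h1)
    · right
      rw [h1] at h2
      simp only [lact_one, ract_one, lact_zero, add_zero] at h2
      rw [op_eq_one_iff]
      exact GE.ext h1 (add_eq_left.mp h2) hx hq (hs.trans h1)
  · obtain ⟨φ, hφ⟩ := exists_dual_ne_zero (K := K) h.not_semisimple
    refine not_semisimple_of (op (GE.mk 0 φ 0 0 0)) ?_ ?_
    · intro h0
      rw [op_eq_zero_iff] at h0
      exact hφ (congrArg GE.p h0)
    · intro y
      obtain ⟨y, rfl⟩ := op_surjective y
      rw [← op_mul, ← op_mul, op_eq_zero_iff]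
      ext1 <;> simp

theorem isSymmetricAlg_op_TE : IsSymmetricAlg K (TE K E)ᵐᵒᵖ := by
  refine ⟨{ toFun := fun X => (unop X).p 1
            map_add' := fun _ _ => rfl
            map_smul' := fun _ _ => rfl }, ?_, ?_⟩
  · intro x y
    obtain ⟨x, rfl⟩ := op_surjective x
    obtain ⟨y, rfl⟩ := op_surjective y
    change (y * x).p 1 = (x * y).p 1
    simp [add_comm]
  · intro x hx
    obtain ⟨x, rfl⟩ := op_surjective x
    have h1 : ∀ y : TE K E, (y * x).p 1 = 0 := fun y => hx (op y)
    rw [op_eq_zero_iff]
    ext1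
    · rw [TE.zero_a, ← Module.forall_dual_apply_eq_zero_iff K x.a]
      intro φ
      have := h1 (TE.mk 0 φ)
      simpa using this
    · ext b
      have := h1 (TE.mk b 0)
      simpa using this

end Pool.Agent.H26.Gendo
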