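import Mathlib

/-!
Definitions for the statement on gendo-symmetric algebras.  Right modules over `B` are modules
over `Bᵐᵒᵖ`.
-/

namespace Pool.Agent.H26

universe u

/-- The standing assumptions on algebras: finite-dimensional, connected and not semisimple. -/
structure IsAlg (K A : Type*) [Field K] [Ring A] [Algebra K A] : Prop where
  finite : Module.Finite K A
  connected : ∀ e : A, (∀ x : A, e * x = x * e) → e * e = e → e = 0 ∨ e = 1
  not_semisimple : ¬ IsSemisimpleRing A

/-- `B` is a symmetric algebra: it has a symmetrizing linear form. -/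
def IsSymmetricAlg (K B : Type*) [Field K] [Ring B] [Algebra K B] : Prop :=
  ∃ f : B →ₗ[K] K, (∀ x y : B, f (x * y) = f (y * x)) ∧ ∀ x : B, (∀ y : B, f (x * y) = 0) → x = 0

/-- The right `B`-module `M` is a generator: `B` is a direct summand of some `M ^ n`. -/
def IsRightGenerator (B M : Type*) [Ring B] [AddCommGroup M] [Module Bᵐᵒᵖ M] : Prop :=
  ∃ (n : ℕ) (i : B →ₗ[Bᵐᵒᵖ] (Fin n → M)) (p : (Fin n → M) →ₗ[Bᵐᵒᵖ] B), p ∘ₗ i = LinearMap.id

/-- `A` is gendo-symmetric: it is isomorphic to the endomorphism algebra of a finite-dimensional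
generator `M` of the category of right modules over a symmetric algebra `B`. -/
def IsGendoSymmetric (K A : Type u) [Field K] [Ring A] [Algebra K A] : Prop :=
  ∃ (B : Type u) (_ : Ring B) (_ : Algebra K B) (M : Type u) (_ : AddCommGroup M)
    (_ : Module K M) (_ : Module Bᵐᵒᵖ M) (_ : IsScalarTower K Bᵐᵒᵖ M),
    IsAlg K B ∧ IsSymmetricAlg K B ∧ Module.Finite K M ∧ IsRightGenerator B M ∧
      Nonempty (A ≃ₐ[K] Module.End Bᵐᵒᵖ M)

end Pool.Agent.H26
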