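import Pool.Agent.H26.ExtConv
import Pool.Agent.H26.Defs

namespace Pool.Agent.H26

universe u

open CategoryTheory CategoryTheory.Abelian CategoryTheory.Limits

section Lemmas

variable {B : Type u} [Ring B]

theorem isoClass_eq_iff (M N : ModuleCat.{u} B) :
    isoClass M = isoClass N ↔ Nonempty (M ≃ₗ[B] N) := by
  unfold isoClass
  rw [Quotient.eq]
  constructor
  · rintro ⟨e⟩
    exact ⟨e.toLinearEquiv⟩
  · rintro ⟨e⟩
    exact ⟨e.toModuleIso⟩

theorem indec_of_indecomposable {N : ModuleCat.{u} B} (h : Indecomposable N) : Indec B N := by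
  constructor
  · rw [← not_subsingleton_iff_nontrivial]
    intro hs
    exact h.1 (ModuleCat.isZero_iff_subsingleton.mpr hs)
  · intro P Q hPQ
    have e1 : (P × Q) ≃ₗ[B] N := Submodule.prodEquivOfIsCompl P Q hPQ
    have e2 : N ≅ ModuleCat.of B P ⊞ ModuleCat.of B Q :=
      e1.toModuleIso.symm ≪≫ (ModuleCat.biprodIsoProd (ModuleCat.of B P) (ModuleCat.of B Q)).symm
    rcases h.2 _ _ e2 with h1 | h1
    · left
      have := ModuleCat.isZero_iff_subsingleton.mp h1
      exact (Submodule.subsingleton_iff_eq_bot).mp this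
    · right
      have := ModuleCat.isZero_iff_subsingleton.mp h1
      exact (Submodule.subsingleton_iff_eq_bot).mp this

theorem indecomposable_of_indec {N : ModuleCat.{u} B} (h : Indec B N) : Indecomposable N := by
  constructor
  · intro hz
    have := ModuleCat.isZero_iff_subsingleton.mp hz
    exact (not_subsingleton_iff_nontrivial.mpr h.1) this
  · intro Y Z e
    let e1 : N ≃ₗ[B] (Y × Z) := (e ≪≫ ModuleCat.biprodIsoProd Y Z).toLinearEquiv
    have hc : IsCompl ((LinearMap.range (LinearMap.inl B Y Z)).map e1.symm.toLinearMap)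
        ((LinearMap.range (LinearMap.inr B Y Z)).map e1.symm.toLinearMap) := by
      have := (LinearMap.isCompl_range_inl_inr (R := B) (M := Y) (M₂ := Z))
      exact (this.map (Submodule.orderIsoMapComap e1.symm))
    rcases h.2 _ _ hc with h1 | h1
    · left
      rw [ModuleCat.isZero_iff_subsingleton]
      refine subsingleton_of_forall_eq 0 fun y => ?_
      have h2 : e1.symm (y, 0) = 0 := by
        rw [← Submodule.mem_bot B, ← h1]
        exact ⟨(y, 0), ⟨y, rfl⟩, rfl⟩
      have h3 : ((y, 0) : Y × Z) = 0 := by
        rw [← e1.apply_symm_apply (y, 0), h2, map_zero]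
      exact congrArg Prod.fst h3
    · right
      rw [ModuleCat.isZero_iff_subsingleton]
      refine subsingleton_of_forall_eq 0 fun y => ?_
      have h2 : e1.symm (0, y) = 0 := by
        rw [← Submodule.mem_bot B, ← h1]
        exact ⟨(0, y), ⟨y, rfl⟩, rfl⟩
      have h3 : ((0, y) : Y × Z) = 0 := by
        rw [← e1.apply_symm_apply (0, y), h2, map_zero]
      exact congrArg Prod.snd h3

theorem rigid_retract {M N N' : ModuleCat.{u} B} {i : ℕ} (h : Subsingleton (Ext M M i))
    (r : Retract N M) (r' : Retract N' M) : Subsingleton (Ext N N' i) := by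
  refine subsingleton_of_forall_eq 0 fun x => ?_
  have h1 : (Ext.mk₀ r.r).comp (x.comp (Ext.mk₀ r'.i) (add_zero i)) (zero_add i) = 0 :=
    h.elim _ _
  have h2 : (Ext.mk₀ r.i).comp (((Ext.mk₀ r.r).comp (x.comp (Ext.mk₀ r'.i) (add_zero i))
    (zero_add i)).comp (Ext.mk₀ r'.r) (add_zero i)) (zero_add i) = x := by
    simp
  rw [← h2, h1]
  simp

theorem module_finite_of_retract {M N : ModuleCat.{u} B} [Module.Finite B M] (r : Retract N M) :
    Module.Finite B N := by
  refine Module.Finite.of_surjective r.r.hom ?_
  intro x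
  refine ⟨r.i.hom x, ?_⟩
  have := congrArg (fun f => ModuleCat.Hom.hom f x) r.retract
  exact this

end Lemmas

section Simples

variable (K : Type*) [Field K] {B : Type u} [Ring B] [Algebra K B]

/-- The simple quotients of a finite-dimensional module fall into finitely many
isomorphism classes. -/
theorem exists_list_simples : ∀ (d : ℕ) (X : Type u) [AddCommGroup X] [Module K X] [Module B X]
    [IsScalarTower K B X] [Module.Finite K X], Module.finrank K X ≤ d →
    ∃ (n : ℕ) (S : Fin n → ModuleCat.{u} B), ∀ (Z : Type u) [AddCommGroup Z] [Module B Z],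
      IsSimpleModule B Z → (∃ f : X →ₗ[B] Z, f ≠ 0) → ∃ j, Nonempty (Z ≃ₗ[B] S j) := by
  intro d
  induction d with
  | zero =>
    intro X _ _ _ _ _ hX
    have : Subsingleton X := by
      have h0 : Module.finrank K X = 0 := by omega
      exact Module.finrank_zero_iff.mp h0
    refine ⟨0, fun i => i.elim0, ?_⟩
    rintro Z _ _ _ ⟨f, hf⟩
    exfalso
    apply hf
    ext x
    rw [Subsingleton.elim x 0, map_zero, map_zero]
  | succ d ih =>
    intro X _ _ _ _ _ hX
    rcases subsingleton_or_nontrivial X with hs | hn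
    · refine ⟨0, fun i => i.elim0, ?_⟩
      rintro Z _ _ _ ⟨f, hf⟩
      exfalso
      apply hf
      ext x
      rw [Subsingleton.elim x 0, map_zero, map_zero]
    have hfin : Module.Finite B X := Module.Finite.of_restrictScalars_finite K B X
    obtain ⟨T, hT, -⟩ := (eq_top_or_exists_le_coatom (⊥ : Submodule B X)).resolve_left
      (by exact bot_ne_top)
    have hsimple : IsSimpleModule B (X ⧸ T) := isSimpleModule_iff_isCoatom.mpr hT
    have hTfin : Module.Finite K T := by
      have : Module.Finite K (T.restrictScalars K) := inferInstance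
      exact this
    have hlt : Module.finrank K T < Module.finrank K X := by
      have : Module.finrank K (T.restrictScalars K) < Module.finrank K X := by
        apply Submodule.finrank_lt
        intro h
        apply hT.1
        rw [eq_top_iff]
        intro x _
        have : x ∈ T.restrictScalars K := by rw [h]; trivial
        exact this
      exact this
    obtain ⟨n, S, hS⟩ := ih T (by omega)
    refine ⟨n + 1, Fin.cons (ModuleCat.of B (X ⧸ T)) S, ?_⟩
    rintro Z _ _ hZ ⟨f, hf⟩
    by_cases h0 : f ∘ₗ T.subtype = 0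
    · refine ⟨0, ?_⟩
      have hker : T ≤ LinearMap.ker f := by
        intro x hx
        have := congrArg (fun h => h ⟨x, hx⟩) h0
        exact this
      let g : (X ⧸ T) →ₗ[B] Z := T.liftQ f hker
      have hg : g ≠ 0 := by
        intro hg
        apply hf
        ext x
        have : g (T.mkQ x) = f x := rfl
        rw [← this, hg]
        rfl
      have := LinearMap.bijective_of_ne_zero hg
      exact ⟨(LinearEquiv.ofBijective g this).symm⟩
    · obtain ⟨j, hj⟩ := hS Z hZ ⟨_, h0⟩
      exact ⟨j.succ, hj⟩

theorem numSimples_lt_top [Module.Finite K B] : numSimples B < ⊤ := by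
  obtain ⟨n, S, hS⟩ := exists_list_simples (B := B) K (Module.finrank K B) B le_rfl
  unfold numSimples
  rw [Set.encard_lt_top_iff]
  refine Set.Finite.subset (Set.finite_range fun j => isoClass (S j)) ?_
  rintro c ⟨Z, hZ, rfl⟩
  have hZ' : IsSimpleModule B Z := isSimpleModule_of_simple Z
  have hnt : Nontrivial Z := IsSimpleModule.nontrivial B Z
  obtain ⟨z, hz⟩ := exists_ne (0 : Z)
  obtain ⟨j, hj⟩ := hS Z hZ' ⟨LinearMap.toSpanSingleton B Z z, by
    intro h
    apply hz
    have := congrArg (fun f => f 1) h
    simpa using this⟩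
  exact ⟨j, ((isoClass_eq_iff _ _).mpr hj).symm⟩

end Simples

section Upper

open ModuleCat

variable (K : Type*) [Field K] {B : Type u} [Ring B] [Algebra K B]

theorem size_le [Module.Finite K B] (M : ModuleCat.{u} B) (hfin : Module.Finite B M)
    (h3 : ∀ N : ModuleCat.{u} B, Module.Finite B N → Subsingleton (Ext M N 3))
    (hM : IsRigid 2 M) : size M ≤ numSimples B := by
  have hnoeth : IsNoetherianRing B := isNoetherian_of_tower K (inferInstance : IsNoetherian K B)
  obtain ⟨w, hw⟩ := ENat.ne_top_iff_exists.mp (numSimples_lt_top K (B := B)).ne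
  rw [← hw]
  by_contra hlt
  push Not at hlt
  have hle : ((w + 1 : ℕ) : ℕ∞) ≤ size M := by
    have := Order.add_one_le_of_lt hlt
    exact_mod_cast this
  obtain ⟨t, hts, htc⟩ := Set.exists_subset_encard_eq hle
  have htfin : t.Finite := Set.finite_of_encard_eq_coe htc
  have hcard : Nat.card t = w + 1 := by
    have h1 := Set.Finite.cast_ncard_eq htfin
    rw [htc] at h1
    have h2 : t.ncard = w + 1 := by exact_mod_cast h1
    exact h2
  have : Finite t := htfin
  let e : Fin (w + 1) ≃ t := (Finite.equivFinOfCardEq hcard).symm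
  choose N hN1 hN2 hN3 using fun i => hts (e i).2
  have r : ∀ i, Retract (N i) M := fun i => (hN2 i).some
  have hNfin : ∀ i, Module.Finite B (N i) := fun i => module_finite_of_retract (r i)
  have hSfin : Set.Finite {c | ∃ S : ModuleCat.{u} B, Simple S ∧ isoClass S = c} :=
    Set.finite_of_encard_eq_coe hw.symm
  have hScard : Nat.card {c | ∃ S : ModuleCat.{u} B, Simple S ∧ isoClass S = c} = w := by
    have h1 := Set.Finite.cast_ncard_eq hSfin
    have h2 : Set.encard {c | ∃ S : ModuleCat.{u} B, Simple S ∧ isoClass S = c} = w := hw.symm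
    rw [h2] at h1
    have h3 : Set.ncard {c | ∃ S : ModuleCat.{u} B, Simple S ∧ isoClass S = c} = w := by
      exact_mod_cast h1
    exact h3
  have : Finite {c | ∃ S : ModuleCat.{u} B, Simple S ∧ isoClass S = c} := hSfin
  let e' := (Finite.equivFinOfCardEq hScard).symm
  choose S hS1 hS2 using fun i : Fin w => (e' i).2
  have hr : ∀ i, ∀ N' : ModuleCat.{u} B, Module.Finite B N' → Subsingleton (Ext (N i) N' 3) := by
    intro i N' hN'
    have h1 := h3 N' hN'
    refine subsingleton_of_forall_eq 0 fun x => ?_
    have h2 : (Ext.mk₀ (r i).r).comp x (zero_add 3) = 0 := h1.elim _ _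
    have h3 : (Ext.mk₀ (r i).i).comp ((Ext.mk₀ (r i).r).comp x (zero_add 3)) (zero_add 3) = x := by
      simp
    rw [← h3, h2, Ext.comp_zero]
  choose P0 P1 P2 p d1 d2 hf0 hf1 hf2 hp0 hp1 hp2 hp hex1 hex2 hE1 hE2 using
    fun i => exists_res (N i) (hr i)
  have hfin' : ∀ X : ModuleCat.{u} B, Module.Finite B X → Module.Finite K X := fun X hX =>
    Module.Finite.trans B X
  have hfN : ∀ i, Module.Finite K (N i) := fun i => hfin' _ (hNfin i)
  have hfP0 : ∀ i, Module.Finite K (P0 i) := fun i => hfin' _ (hf0 i)
  have hfP1 : ∀ i, Module.Finite K (P1 i) := fun i => hfin' _ (hf1 i)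
  have hfP2 : ∀ i, Module.Finite K (P2 i) := fun i => hfin' _ (hf2 i)
  have main := rigid_card_le K (ι := Fin (w + 1)) (fun i => N i) (fun i => P0 i) (fun i => P1 i)
    (fun i => P2 i) p d1 d2 hp hex1 hex2
    (fun i j => hE1 i (N j) (rigid_retract (hM 1 le_rfl (by norm_num)) (r i) (r j)))
    (fun i j => hE2 i (N j) (rigid_retract (hM 2 (by norm_num) le_rfl) (r i) (r j)))
    (fun i => indec_of_indecomposable (hN1 i))
    (fun i j hij => by
      have h1 := (isoClass_eq_iff _ _).mpr hij
      rw [hN3 i, hN3 j] at h1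
      exact e.injective (Subtype.ext h1))
    w (fun i => S i)
    (fun Z _ _ hZ => by
      have hZ' : Simple (ModuleCat.of B Z) := simple_iff_isSimpleModule.mpr hZ
      obtain ⟨j, hj⟩ := e'.surjective ⟨isoClass (ModuleCat.of B Z), ⟨_, hZ', rfl⟩⟩
      refine ⟨j, (isoClass_eq_iff (ModuleCat.of B Z) (S j)).mp ?_⟩
      rw [hS2 j, hj])
  rw [Fintype.card_fin] at main
  omega

end Upper

section Lower

variable (K : Type*) [Field K] {B : Type u} [Ring B] [Algebra K B]

/-- A finite-dimensional module with a nonzero map to `S` has an indecomposable direct summand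
with a nonzero map to `S`. -/
theorem exists_indec_summand (S : Type*) [AddCommGroup S] [Module B S] :
    ∀ (d : ℕ) (X : Type u) [AddCommGroup X] [Module K X] [Module B X]
    [IsScalarTower K B X] [Module.Finite K X], Module.finrank K X ≤ d →
    (∃ f : X →ₗ[B] S, f ≠ 0) → ∃ (N : ModuleCat.{u} B), Indec B N ∧
      (∃ (i : N →ₗ[B] X) (r : X →ₗ[B] N), r ∘ₗ i = LinearMap.id) ∧
      ∃ f : N →ₗ[B] S, f ≠ 0 := by
  intro d
  induction d with
  | zero =>
    rintro X _ _ _ _ _ hX ⟨f, hf⟩
    exfalso
    have : Subsingleton X := by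
      have h0 : Module.finrank K X = 0 := by omega
      exact Module.finrank_zero_iff.mp h0
    apply hf
    ext x
    rw [Subsingleton.elim x 0, map_zero, map_zero]
  | succ d ih =>
    rintro X _ _ _ _ _ hX ⟨f, hf⟩
    by_cases hind : Indec B X
    · exact ⟨ModuleCat.of B X, hind, ⟨LinearMap.id, LinearMap.id, rfl⟩, f, hf⟩
    have hnt : Nontrivial X := by
      rw [← not_subsingleton_iff_nontrivial]
      intro hs
      apply hf
      ext x
      rw [Subsingleton.elim x 0, map_zero, map_zero]
    have : ∃ P Q : Submodule B X, IsCompl P Q ∧ P ≠ ⊥ ∧ Q ≠ ⊥ := by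
      by_contra hcon
      apply hind
      refine ⟨hnt, fun P Q hPQ => ?_⟩
      by_contra hc
      push Not at hc
      exact hcon ⟨P, Q, hPQ, hc.1, hc.2⟩
    have key : ∀ P Q : Submodule B X, IsCompl P Q → Q ≠ ⊥ → f ∘ₗ P.subtype ≠ 0 →
        ∃ (N : ModuleCat.{u} B), Indec B N ∧
        (∃ (i : N →ₗ[B] X) (r : X →ₗ[B] N), r ∘ₗ i = LinearMap.id) ∧
        ∃ f : N →ₗ[B] S, f ≠ 0 := by
      intro P Q hPQ hQ hfP
      have hPfin : Module.Finite K P := by
        have : Module.Finite K (P.restrictScalars K) := inferInstance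
        exact this
      have hlt : Module.finrank K P < Module.finrank K X := by
        have : Module.finrank K (P.restrictScalars K) < Module.finrank K X := by
          apply Submodule.finrank_lt
          intro h
          apply hQ
          have hP : P = ⊤ := by
            rw [eq_top_iff]
            intro x _
            have : x ∈ P.restrictScalars K := by rw [h]; trivial
            exact this
          have := hPQ.inf_eq_bot
          rwa [hP, top_inf_eq] at this
        exact this
      obtain ⟨N, hN, ⟨i, r, hir⟩, g, hg⟩ := ih P (by omega) ⟨_, hfP⟩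
      refine ⟨N, hN, ⟨P.subtype ∘ₗ i, r ∘ₗ Submodule.projectionOnto P Q hPQ, ?_⟩, g, hg⟩
      ext x
      have h1 : r (i x) = x := congrArg (fun h => h x) hir
      simp [Submodule.projectionOnto_apply_left, h1]
    obtain ⟨P, Q, hPQ, hP, hQ⟩ := this
    by_cases h1 : f ∘ₗ P.subtype = 0
    · apply key Q P hPQ.symm hP
      intro h2
      apply hf
      ext x
      have hx : x ∈ P ⊔ Q := by rw [hPQ.sup_eq_top]; trivial
      obtain ⟨y, hy, z, hz, rfl⟩ := Submodule.mem_sup.mp hx
      have e1 : f y = 0 := congrArg (fun h => h ⟨y, hy⟩) h1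
      have e2 : f z = 0 := congrArg (fun h => h ⟨z, hz⟩) h2
      rw [map_add, e1, e2]
      simp
    · exact key P Q hPQ hQ h1

/-- An indecomposable projective module has at most one simple quotient. -/
theorem simple_quotient_unique {N S S' : Type*} [AddCommGroup N] [Module B N]
    [AddCommGroup S] [Module B S] [AddCommGroup S'] [Module B S'] [IsArtinian B N]
    [IsNoetherian B N] [Module.Projective B N] (hN : Indec B N) [IsSimpleModule B S]
    [IsSimpleModule B S'] (f : N →ₗ[B] S) (hf : f ≠ 0) (f' : N →ₗ[B] S') (hf' : f' ≠ 0) :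
    Nonempty (S ≃ₗ[B] S') := by
  have hs : Function.Surjective f := LinearMap.surjective_of_ne_zero hf
  have hs' : Function.Surjective f' := LinearMap.surjective_of_ne_zero hf'
  by_cases hk : f ∘ₗ (LinearMap.ker f').subtype = 0
  · -- `ker f' ≤ ker f`
    obtain ⟨g, hg⟩ := exists_factor f' hs' f (by
      intro x hx
      exact congrArg (fun h => h ⟨x, hx⟩) hk)
    have hg0 : g ≠ 0 := by
      rintro rfl
      apply hf
      rw [← hg]
      ext x
      simp
    exact ⟨(LinearEquiv.ofBijective g (LinearMap.bijective_of_ne_zero hg0)).symm⟩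
  · exfalso
    have hsur : Function.Surjective (f ∘ₗ (LinearMap.ker f').subtype) :=
      LinearMap.surjective_of_ne_zero hk
    obtain ⟨e, he⟩ := Module.projective_lifting_property _ f hsur
    let e' : Module.End B N := (LinearMap.ker f').subtype ∘ₗ e
    have hfe : f ∘ₗ e' = f := by
      rw [← LinearMap.comp_assoc]
      exact he
    rcases hN.isUnit_or_isNilpotent e' with hu | ⟨n, hn⟩
    · rw [Module.End.isUnit_iff] at hu
      apply hf'
      ext x
      obtain ⟨y, rfl⟩ := hu.2 x
      exact (e y).2
    · have hpow : ∀ m : ℕ, f ∘ₗ (e' ^ m) = f := by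
        intro m
        induction m with
        | zero => rfl
        | succ m ihm =>
          rw [pow_succ]
          change f ∘ₗ ((e' ^ m) ∘ₗ e') = f
          rw [← LinearMap.comp_assoc, ihm, hfe]
      apply hf
      rw [← hpow n, hn]
      ext x
      simp

theorem numSimples_le_size [Module.Finite K B] :
    numSimples B ≤ size (ModuleCat.of B B) := by
  have hnoeth : IsNoetherianRing B := isNoetherian_of_tower K (inferInstance : IsNoetherian K B)
  have hart : IsArtinianRing B := isArtinian_of_tower K (inferInstance : IsArtinian K B)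
  have h1 : ∀ S : ModuleCat.{u} B, Simple S → ∃ (N : ModuleCat.{u} B), Indec B N ∧
      (∃ (i : N →ₗ[B] B) (r : B →ₗ[B] N), r ∘ₗ i = LinearMap.id) ∧
      ∃ f : N →ₗ[B] S, f ≠ 0 := by
    intro S hS
    have hS' : IsSimpleModule B S := isSimpleModule_of_simple S
    have hnt : Nontrivial S := IsSimpleModule.nontrivial B S
    obtain ⟨z, hz⟩ := exists_ne (0 : S)
    refine exists_indec_summand K S (Module.finrank K B) B le_rfl
      ⟨LinearMap.toSpanSingleton B S z, fun h => hz ?_⟩
    have := congrArg (fun f => f 1) h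
    simpa using this
  unfold numSimples size
  classical
  let F : Quotient (isIsomorphicSetoid (ModuleCat.{u} B)) →
      Quotient (isIsomorphicSetoid (ModuleCat.{u} B)) := fun c =>
    if h : ∃ S : ModuleCat.{u} B, Simple S ∧ isoClass S = c then
      isoClass (h1 h.choose h.choose_spec.1).choose else c
  refine Set.encard_le_encard_of_injOn (f := F) ?_ ?_
  · rintro c hc
    have hF : F c = isoClass (h1 hc.choose hc.choose_spec.1).choose := dif_pos hc
    rw [hF]
    obtain ⟨hN, ⟨i, r, hir⟩, -⟩ := (h1 hc.choose hc.choose_spec.1).choose_spec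
    refine ⟨_, indecomposable_of_indec hN, ⟨⟨ModuleCat.ofHom i, ModuleCat.ofHom r, ?_⟩⟩, rfl⟩
    ext x
    exact congrArg (fun h => h x) hir
  · intro c hc c' hc' hcc
    have hF : F c = isoClass (h1 hc.choose hc.choose_spec.1).choose := dif_pos hc
    have hF' : F c' = isoClass (h1 hc'.choose hc'.choose_spec.1).choose := dif_pos hc'
    obtain ⟨hN, ⟨i, r, hir⟩, f, hf⟩ := (h1 hc.choose hc.choose_spec.1).choose_spec
    obtain ⟨hN', ⟨i', r', hir'⟩, f', hf'⟩ := (h1 hc'.choose hc'.choose_spec.1).choose_spec
    rw [hF, hF'] at hcc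
    obtain ⟨e⟩ := (isoClass_eq_iff _ _).mp hcc
    have hS : IsSimpleModule B hc.choose := by
      have := hc.choose_spec.1
      exact isSimpleModule_of_simple _
    have hS' : IsSimpleModule B hc'.choose := by
      have := hc'.choose_spec.1
      exact isSimpleModule_of_simple _
    have hproj : Module.Projective B (h1 hc.choose hc.choose_spec.1).choose :=
      Module.Projective.of_split i r hir
    have hsur : Function.Surjective r := fun x => ⟨i x, congrArg (fun h => h x) hir⟩
    have hn1 : IsNoetherian B (h1 hc.choose hc.choose_spec.1).choose :=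
      isNoetherian_of_surjective r (LinearMap.range_eq_top.mpr hsur)
    have hn2 : IsArtinian B (h1 hc.choose hc.choose_spec.1).choose :=
      isArtinian_of_surjective B r hsur
    have hf'' : f' ∘ₗ e.toLinearMap ≠ 0 := by
      intro h
      apply hf'
      ext x
      have := congrArg (fun h => h (e.symm x)) h
      simpa using this
    have := simple_quotient_unique hN f hf (f' ∘ₗ e.toLinearMap) hf''
    have h2 := (isoClass_eq_iff _ _).mpr this
    rw [hc.choose_spec.2, hc'.choose_spec.2] at h2
    exact h2

theorem isRigid_self (k : ℕ) : IsRigid k (ModuleCat.of B B) := by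
  intro i hi _
  have hproj : Projective (ModuleCat.of B B) := (IsProjective.iff_projective B).mp inferInstance
  obtain ⟨j, rfl⟩ : ∃ j, i = j + 1 := ⟨i - 1, by omega⟩
  exact Ext.subsingleton_of_projective _ _ _

end Lower

section Final

variable (K : Type*) [Field K] {B : Type u} [Ring B] [Algebra K B]

theorem o_eq [Module.Finite K B] (k : ℕ) (hk : 2 ≤ k)
    (h : ∀ M : ModuleCat.{u} B, Module.Finite B M → IsRigid k M →
      ∀ N : ModuleCat.{u} B, Module.Finite B N → Subsingleton (Ext M N 3)) :
    o k B = numSimples B := by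
  apply le_antisymm
  · unfold o
    refine iSup_le fun M => ?_
    refine size_le K M.1 M.2.1 (h M.1 M.2.1 M.2.2) ?_
    intro i hi hi2
    exact M.2.2 i hi (hi2.trans hk)
  · refine (numSimples_le_size K).trans ?_
    unfold o
    exact le_iSup (fun M : {M : ModuleCat.{u} B // Module.Finite B M ∧ IsRigid k M} => size M.1)
      ⟨ModuleCat.of B B, (inferInstance : Module.Finite B B), isRigid_self k⟩

end Final

end Pool.Agent.H26
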