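import Pool.Agent.H26.Gendo
import Pool.Agent.H26.Wrap

/-!
The exact fully faithful functor `V ↦ V ⊕ V` from `E`-modules to `GE K E`-modules.  It preserves
projective modules, hence all Ext groups.
-/

set_option linter.unusedSectionVars false

namespace Pool.Agent.H26.Gendo

open CategoryTheory CategoryTheory.Abelian CategoryTheory.Limits

universe u

/-- The underlying group `V ⊕ V` of the module over `GE K E` attached to the `E`-module `V`. -/
def Dbl (V : Type*) := V × V

namespace Dbl

variable {K E : Type*} [Field K] [Ring E] [Algebra K E]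
variable {V W : Type*} [AddCommGroup V] [Module E V] [AddCommGroup W] [Module E W]

instance : AddCommGroup (Dbl V) := inferInstanceAs (AddCommGroup (V × V))

/-- constructor -/
def mk (v w : V) : Dbl V := (v, w)
/-- component -/
def l (d : Dbl V) : V := d.1
/-- component -/
def r (d : Dbl V) : V := d.2

@[ext] theorem ext {d d' : Dbl V} (h1 : d.l = d'.l) (h2 : d.r = d'.r) : d = d' := Prod.ext h1 h2

instance : SMul (GE K E) (Dbl V) := ⟨fun g d => mk (g.a • d.l + g.x • d.r) (g.s • d.r)⟩

section
variable (d d' : Dbl V) (g : GE K E) (v w : V)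
@[simp] theorem mk_l : (mk v w).l = v := rfl
@[simp] theorem mk_r : (mk v w).r = w := rfl
@[simp] theorem add_l : (d + d').l = d.l + d'.l := rfl
@[simp] theorem add_r : (d + d').r = d.r + d'.r := rfl
@[simp] theorem zero_l : (0 : Dbl V).l = 0 := rfl
@[simp] theorem zero_r : (0 : Dbl V).r = 0 := rfl
@[simp] theorem smul_l : (g • d).l = g.a • d.l + g.x • d.r := rfl
@[simp] theorem smul_r : (g • d).r = g.s • d.r := rfl
end

instance : Module (GE K E) (Dbl V) where
  one_smul m := by ext1 <;> simp
  mul_smul g g' m := by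
    ext1
    · simp only [smul_l, smul_r, GE.mul_a, GE.mul_x, add_smul, mul_smul, smul_add]
      abel
    · simp [mul_smul]
  smul_zero r := by ext1 <;> simp
  smul_add r m m' := by
    ext1
    · simp only [smul_l, add_l, add_r, smul_add]
      abel
    · simp [smul_add]
  add_smul r r' m := by
    ext1
    · simp only [smul_l, add_l, GE.add_a, GE.add_x, add_smul]
      abel
    · simp [add_smul]
  zero_smul m := by ext1 <;> simp

/-- `f ⊕ f`. -/
def map (K : Type*) [Field K] [Algebra K E] (f : V →ₗ[E] W) : Dbl V →ₗ[GE K E] Dbl W where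
  toFun d := mk (f d.l) (f d.r)
  map_add' d d' := by ext1 <;> simp
  map_smul' g d := by ext1 <;> simp

@[simp] theorem map_l (f : V →ₗ[E] W) (d : Dbl V) : (map K f d).l = f d.l := rfl
@[simp] theorem map_r (f : V →ₗ[E] W) (d : Dbl V) : (map K f d).r = f d.r := rfl

/-- every morphism is of the form `g ⊕ g`. -/
theorem exists_eq_map (f : Dbl V →ₗ[GE K E] Dbl W) : ∃ g : V →ₗ[E] W, f = map K g := by
  have h1 : ∀ w : V, f (mk 0 w) = mk 0 (f (mk 0 w)).r := by
    intro w
    have h2 : f ((GE.mk 0 0 0 0 1 : GE K E) • mk 0 w) = (GE.mk 0 0 0 0 1 : GE K E) • f (mk 0 w) :=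
      f.map_smul _ _
    have h3 : ((GE.mk 0 0 0 0 1 : GE K E) • mk 0 w : Dbl V) = mk 0 w := by
      ext1 <;> simp
    rw [h3] at h2
    rw [h2]
    ext1 <;> simp
  have h4 : ∀ v : V, f (mk v 0) = mk (f (mk 0 v)).r 0 := by
    intro v
    have h2 : f ((GE.mk 0 0 1 0 0 : GE K E) • mk 0 v) = (GE.mk 0 0 1 0 0 : GE K E) • f (mk 0 v) :=
      f.map_smul _ _
    have h3 : ((GE.mk 0 0 1 0 0 : GE K E) • mk 0 v : Dbl V) = mk v 0 := by
      ext1 <;> simp
    rw [h3] at h2
    rw [h2]
    ext1 <;> simp
  refine ⟨{ toFun := fun w => (f (mk 0 w)).r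
            map_add' := fun v w => ?_
            map_smul' := fun s w => ?_ }, ?_⟩
  · have h5 : (mk 0 (v + w) : Dbl V) = mk 0 v + mk 0 w := by ext1 <;> simp
    rw [h5, map_add]
    rfl
  · have h5 : (mk 0 (s • w) : Dbl V) = (GE.mk 0 0 0 0 s : GE K E) • mk 0 w := by ext1 <;> simp
    rw [h5, map_smul]
    rfl
  · refine LinearMap.ext fun d => ?_
    have h5 : d = mk d.l 0 + mk 0 d.r := by ext1 <;> simp
    conv_lhs => rw [h5, map_add, h1, h4]
    ext1
    · simp
    · simp

theorem map_injective (f g : V →ₗ[E] W) (h : map K f = map K g) : f = g := by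
  refine LinearMap.ext fun v => ?_
  exact congrArg (fun F : Dbl V →ₗ[GE K E] Dbl W => (F (mk v v)).l) h

theorem finite [Module.Finite E V] : Module.Finite (GE K E) (Dbl V) := by
  obtain ⟨s, hs⟩ := (Module.Finite.fg_top : (⊤ : Submodule E V).FG)
  classical
  refine ⟨⟨s.image (fun v => (mk 0 v : Dbl V)), ?_⟩⟩
  rw [eq_top_iff]
  rintro d -
  have key : ∀ v : V, (mk 0 v : Dbl V) ∈
      Submodule.span (GE K E) ((s.image (fun v => (mk 0 v : Dbl V)) : Finset (Dbl V)) :
        Set (Dbl V)) := by
    intro v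
    have hv : v ∈ Submodule.span E (s : Set V) := by rw [hs]; trivial
    induction hv using Submodule.span_induction with
    | mem x hx =>
      apply Submodule.subset_span
      simp only [Finset.coe_image]
      exact ⟨x, hx, rfl⟩
    | zero => exact Submodule.zero_mem _
    | add x y _ _ hx hy =>
      have h5 : (mk 0 (x + y) : Dbl V) = mk 0 x + mk 0 y := by ext1 <;> simp
      rw [h5]
      exact Submodule.add_mem _ hx hy
    | smul a x _ hx =>
      have h5 : (mk 0 (a • x) : Dbl V) = (GE.mk 0 0 0 0 a : GE K E) • mk 0 x := by ext1 <;> simp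
      rw [h5]
      exact Submodule.smul_mem _ _ hx
  have h6 : d = (GE.mk 0 0 1 0 0 : GE K E) • mk 0 d.l + mk 0 d.r := by ext1 <;> simp
  rw [h6]
  exact Submodule.add_mem _ (Submodule.smul_mem _ _ (key _)) (key _)

end Dbl

section Functor

variable (K E : Type u) [Field K] [Ring E] [Algebra K E]

/-- The functor `V ↦ V ⊕ V`. -/
def dbl : ModuleCat.{u} E ⥤ ModuleCat.{u} (GE K E) where
  obj V := ModuleCat.of (GE K E) (Dbl V)
  map f := ModuleCat.ofHom (Dbl.map K f.hom)
  map_id _ := rfl
  map_comp _ _ := rfl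

instance : (dbl K E).Additive where
  map_add {X Y f g} := by
    apply ModuleCat.hom_ext
    refine LinearMap.ext fun d => ?_
    rfl

instance : (dbl K E).Full where
  map_surjective f := by
    obtain ⟨g, hg⟩ := Dbl.exists_eq_map f.hom
    exact ⟨ModuleCat.ofHom g, ModuleCat.hom_ext hg.symm⟩

instance : (dbl K E).Faithful where
  map_injective {X Y f g} h := by
    apply ModuleCat.hom_ext
    exact Dbl.map_injective _ _ (congrArg ModuleCat.Hom.hom h)

theorem dbl_map_exact (S : ShortComplex (ModuleCat.{u} E)) (h : S.Exact) :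
    (S.map (dbl K E)).Exact := by
  rw [CategoryTheory.ShortComplex.ShortExact.moduleCat_exact_iff_function_exact] at h ⊢
  intro d
  change Dbl.map K S.g.hom d = 0 ↔ d ∈ Set.range (Dbl.map K S.f.hom)
  constructor
  · intro hd
    obtain ⟨y, hy⟩ := (h d.l).mp (congrArg Dbl.l hd)
    obtain ⟨z, hz⟩ := (h d.r).mp (congrArg Dbl.r hd)
    exact ⟨Dbl.mk y z, Dbl.ext hy hz⟩
  · rintro ⟨y, rfl⟩
    exact Dbl.ext ((h _).mpr ⟨y.l, rfl⟩) ((h _).mpr ⟨y.r, rfl⟩)

instance : PreservesFiniteLimits (dbl K E) := by
  have := ((Functor.exact_tfae (dbl K E)).out 1 3).mp (dbl_map_exact K E)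
  exact this.1

instance : PreservesFiniteColimits (dbl K E) := by
  have := ((Functor.exact_tfae (dbl K E)).out 1 3).mp (dbl_map_exact K E)
  exact this.2

end Functor

namespace Dbl

variable {K E : Type*} [Field K] [Ring E] [Algebra K E]
variable {P : Type*} [AddCommGroup P] [Module E P]

/-- auxiliary map -/
noncomputable def auxA (K : Type*) [Field K] [Algebra K E] : (P →₀ E) →+ (Dbl P →₀ GE K E) :=
  Finsupp.liftAddHom fun p => (Finsupp.singleAddHom (mk 0 p)).comp
    { toFun := fun c => (GE.mk 0 0 c 0 0 : GE K E)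
      map_zero' := rfl
      map_add' := fun c d => by ext1 <;> simp }

/-- auxiliary map -/
noncomputable def auxB (K : Type*) [Field K] [Algebra K E] : (P →₀ E) →+ (Dbl P →₀ GE K E) :=
  Finsupp.liftAddHom fun p => (Finsupp.singleAddHom (mk 0 p)).comp
    { toFun := fun c => (GE.mk 0 0 0 0 c : GE K E)
      map_zero' := rfl
      map_add' := fun c d => by ext1 <;> simp }

theorem auxA_single (p : P) (c : E) : auxA K (Finsupp.single p c) =
    Finsupp.single (mk 0 p) (GE.mk 0 0 c 0 0 : GE K E) := by
  unfold auxA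
  rw [Finsupp.liftAddHom_apply_single]
  rfl

theorem auxB_single (p : P) (c : E) : auxB K (Finsupp.single p c) =
    Finsupp.single (mk 0 p) (GE.mk 0 0 0 0 c : GE K E) := by
  unfold auxB
  rw [Finsupp.liftAddHom_apply_single]
  rfl

theorem smul_auxA (g : GE K E) (u : P →₀ E) : g • auxA K u = auxA K (g.a • u) := by
  induction u using Finsupp.induction_linear with
  | zero => simp
  | add u v hu hv => rw [map_add, smul_add, hu, hv, smul_add, map_add]
  | single p c =>
    rw [auxA_single, Finsupp.smul_single, Finsupp.smul_single, auxA_single]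
    congr 1
    ext1 <;> simp

theorem smul_auxB (g : GE K E) (u : P →₀ E) :
    g • auxB K u = auxA K (g.x • u) + auxB K (g.s • u) := by
  induction u using Finsupp.induction_linear with
  | zero => simp
  | add u v hu hv =>
    rw [map_add, smul_add, hu, hv, smul_add, smul_add, map_add, map_add]
    abel
  | single p c =>
    rw [auxB_single, Finsupp.smul_single, Finsupp.smul_single, Finsupp.smul_single, auxA_single,
      auxB_single, ← Finsupp.single_add]
    congr 1
    ext1 <;> simp

theorem lc_auxA (u : P →₀ E) : Finsupp.linearCombination (GE K E) id (auxA K u) =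
    mk (Finsupp.linearCombination E id u) 0 := by
  induction u using Finsupp.induction_linear with
  | zero => simp; rfl
  | add u v hu hv =>
    rw [map_add, map_add, hu, hv, map_add]
    ext1 <;> simp
  | single p c =>
    rw [auxA_single]
    simp only [Finsupp.linearCombination_single]
    ext1 <;> simp

theorem lc_auxB (u : P →₀ E) : Finsupp.linearCombination (GE K E) id (auxB K u) =
    mk 0 (Finsupp.linearCombination E id u) := by
  induction u using Finsupp.induction_linear with
  | zero => simp; rfl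
  | add u v hu hv =>
    rw [map_add, map_add, hu, hv, map_add]
    ext1 <;> simp
  | single p c =>
    rw [auxB_single]
    simp only [Finsupp.linearCombination_single]
    ext1 <;> simp

theorem projective [hP : Module.Projective E P] : Module.Projective (GE K E) (Dbl P) := by
  obtain ⟨s, hs⟩ := hP.out
  refine ⟨⟨{ toFun := fun d => auxA K (s d.l) + auxB K (s d.r)
             map_add' := fun d d' => ?_
             map_smul' := fun g d => ?_ }, ?_⟩⟩
  · rw [add_l, add_r, map_add, map_add, map_add, map_add]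
    abel
  · rw [smul_l, smul_r, map_add, map_smul, map_smul, map_smul, map_add, RingHom.id_apply,
      smul_add, smul_auxA, smul_auxB, add_assoc]
  · intro d
    change Finsupp.linearCombination (GE K E) id (auxA K (s d.l) + auxB K (s d.r)) = d
    rw [map_add, lc_auxA, lc_auxB, hs, hs]
    ext1 <;> simp

end Dbl

section Functor

variable (K E : Type u) [Field K] [Ring E] [Algebra K E]

instance : (dbl K E).PreservesProjectiveObjects where
  projective_obj {X} hX := by
    have h1 : Module.Projective E X := (IsProjective.iff_projective X).mpr hX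
    have h2 : Module.Projective (GE K E) (Dbl X) := Dbl.projective
    exact (IsProjective.iff_projective _).mp h2

variable {K E}

theorem isZero_of_dbl {X : ModuleCat.{u} E} (h : IsZero ((dbl K E).obj X)) : IsZero X := by
  rw [IsZero.iff_id_eq_zero] at h ⊢
  apply (dbl K E).map_injective
  rw [(dbl K E).map_id, h, (dbl K E).map_zero]

theorem indecomposable_dbl {N : ModuleCat.{u} E} (hN : Indecomposable N) :
    Indecomposable ((dbl K E).obj N) := by
  refine ⟨fun h => hN.1 (isZero_of_dbl h), ?_⟩
  intro Y Z e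
  -- the idempotent of `N`
  obtain ⟨g, hg⟩ := (dbl K E).map_surjective (e.hom ≫ biprod.fst ≫ biprod.inl ≫ e.inv)
  have hidem : g ≫ g = g := by
    apply (dbl K E).map_injective
    rw [(dbl K E).map_comp, hg]
    simp
  have hN' := indec_of_indecomposable hN
  have hid : g.hom ∘ₗ g.hom = g.hom := congrArg ModuleCat.Hom.hom hidem
  have hc : IsCompl (LinearMap.range g.hom) (LinearMap.ker g.hom) :=
    LinearMap.IsIdempotentElem.isCompl hid
  rcases hN'.2 _ _ hc with h1 | h1
  · left
    have h0 : g = 0 := ModuleCat.hom_ext (LinearMap.range_eq_bot.mp h1)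
    rw [h0, (dbl K E).map_zero] at hg
    rw [IsZero.iff_id_eq_zero]
    have h2 : (biprod.inl ≫ e.inv) ≫ (e.hom ≫ biprod.fst ≫ biprod.inl ≫ e.inv) ≫
        e.hom ≫ biprod.fst = 𝟙 Y := by simp
    rw [← h2, ← hg]
    simp
  · right
    have h0 : g = 𝟙 N := by
      apply ModuleCat.hom_ext
      have hinj : Function.Injective g.hom := LinearMap.ker_eq_bot.mp h1
      refine LinearMap.ext fun x => hinj ?_
      exact congrArg (fun f : N →ₗ[E] N => f x) hid
    rw [h0, (dbl K E).map_id] at hg
    rw [IsZero.iff_id_eq_zero]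
    have h2 : (biprod.inr ≫ e.inv) ≫ (e.hom ≫ biprod.fst ≫ biprod.inl ≫ e.inv) ≫
        e.hom ≫ biprod.snd = 0 := by simp
    have h3 : (biprod.inr ≫ e.inv) ≫ 𝟙 ((dbl K E).obj N) ≫ e.hom ≫ biprod.snd = 𝟙 Z := by simp
    rw [← h3, hg, h2]

/-- The key inequality `o_k(E) ≤ o_k(GE)`. -/
theorem o_le_GE (k : ℕ) : o k E ≤ o k (GE K E) := by
  unfold o
  refine iSup_le fun ⟨M, hfin, hrig⟩ => ?_
  have hfin' : Module.Finite (GE K E) ((dbl K E).obj M) := Dbl.finite
  have hrig' : IsRigid k ((dbl K E).obj M) := by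
    intro i h1 h2
    have := hrig i h1 h2
    have hb := (dbl K E).mapExt_bijective_of_preservesProjectiveObjects M M i
    exact hb.2.subsingleton
  refine le_trans ?_ (le_iSup (fun M : {M : ModuleCat.{u} (GE K E) //
    Module.Finite (GE K E) M ∧ IsRigid k M} => size M.1) ⟨(dbl K E).obj M, hfin', hrig'⟩)
  unfold size
  let g : Quotient (isIsomorphicSetoid (ModuleCat.{u} E)) →
      Quotient (isIsomorphicSetoid (ModuleCat.{u} (GE K E))) :=
    Quotient.map (dbl K E).obj (fun a b ⟨i⟩ => ⟨(dbl K E).mapIso i⟩)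
  refine Set.encard_le_encard_of_injOn (f := g) ?_ ?_
  · rintro c ⟨N, hN, ⟨r⟩, rfl⟩
    exact ⟨(dbl K E).obj N, indecomposable_dbl hN, ⟨r.map (dbl K E)⟩, rfl⟩
  · rintro c ⟨N, hN, ⟨r⟩, rfl⟩ c' ⟨N', hN', ⟨r'⟩, rfl⟩ h
    have h' : isoClass ((dbl K E).obj N) = isoClass ((dbl K E).obj N') := h
    obtain ⟨i⟩ := Quotient.exact h'
    exact Quotient.sound ⟨(dbl K E).preimageIso i⟩

end Functor

end Pool.Agent.H26.Gendo
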