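import Pool.Agent.H26.Gendo

/-!
`(GE K E)ᵐᵒᵖ` is the endomorphism algebra of a generator over the symmetric algebra `(TE K E)ᵐᵒᵖ`.
-/

set_option linter.unusedSectionVars false

namespace Pool.Agent.H26.Gendo

open MulOpposite

/-- The module `T ⊕ E` over the trivial extension `T = E ⋉ DE`. -/
def MM (K E : Type*) [Field K] [Ring E] [Algebra K E] := TE K E × E

variable {K E : Type*} [Field K] [Ring E] [Algebra K E]

namespace MM

instance : AddCommGroup (MM K E) := inferInstanceAs (AddCommGroup (TE K E × E))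
instance : Module K (MM K E) := inferInstanceAs (Module K (TE K E × E))
instance [Module.Finite K E] : Module.Finite K (MM K E) :=
  inferInstanceAs (Module.Finite K (TE K E × E))

/-- constructor -/
def mk (t : TE K E) (x : E) : MM K E := (t, x)
/-- component -/
def t (m : MM K E) : TE K E := m.1
/-- component -/
def x (m : MM K E) : E := m.2

@[ext] theorem ext {m m' : MM K E} (h1 : m.t = m'.t) (h2 : m.x = m'.x) : m = m' := Prod.ext h1 h2

/-- a right module over `(TE K E)ᵐᵒᵖ` is a module over `(TE K E)ᵐᵒᵖᵐᵒᵖ`. -/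
instance : SMul (TE K E)ᵐᵒᵖᵐᵒᵖ (MM K E) := ⟨fun r m => mk (unop (unop r) * m.t) ((unop (unop r)).a * m.x)⟩

section
variable (m m' : MM K E) (c : K) (r : (TE K E)ᵐᵒᵖᵐᵒᵖ) (t₁ : TE K E) (x₁ : E)
@[simp] theorem mk_t : (mk t₁ x₁).t = t₁ := rfl
@[simp] theorem mk_x : (mk t₁ x₁).x = x₁ := rfl
@[simp] theorem add_t : (m + m').t = m.t + m'.t := rfl
@[simp] theorem add_x : (m + m').x = m.x + m'.x := rfl
@[simp] theorem zero_t : (0 : MM K E).t = 0 := rfl
@[simp] theorem zero_x : (0 : MM K E).x = 0 := rfl
@[simp] theorem smul_t : (c • m).t = c • m.t := rfl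
@[simp] theorem smul_x : (c • m).x = c • m.x := rfl
@[simp] theorem sm_t : (r • m).t = unop (unop r) * m.t := rfl
@[simp] theorem sm_x : (r • m).x = (unop (unop r)).a * m.x := rfl
end

instance : Module (TE K E)ᵐᵒᵖᵐᵒᵖ (MM K E) where
  one_smul m := by ext1 <;> simp
  mul_smul r r' m := by ext1 <;> simp [mul_assoc]
  smul_zero r := by ext1 <;> simp
  smul_add r m m' := by ext1 <;> simp [mul_add]
  add_smul r r' m := by ext1 <;> simp [add_mul]
  zero_smul m := by ext1 <;> simp

instance : IsScalarTower K (TE K E)ᵐᵒᵖᵐᵒᵖ (MM K E) where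
  smul_assoc c r m := by ext1 <;> simp

/-- right multiplication by an element of `GE`. -/
def rmulG (g : GE K E) (m : MM K E) : MM K E :=
  mk (m.t * TE.mk g.a g.p + TE.mk 0 (lact m.x g.q)) (m.t.a * g.x + m.x * g.s)

@[simp] theorem rmulG_t (g : GE K E) (m : MM K E) :
    (rmulG g m).t = m.t * TE.mk g.a g.p + TE.mk 0 (lact m.x g.q) := rfl
@[simp] theorem rmulG_x (g : GE K E) (m : MM K E) :
    (rmulG g m).x = m.t.a * g.x + m.x * g.s := rfl

/-- the action of `(GE K E)ᵐᵒᵖ` on `MM` by right multiplication, as an algebra map. -/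
def toEnd : (GE K E)ᵐᵒᵖ →ₐ[K] Module.End (TE K E)ᵐᵒᵖᵐᵒᵖ (MM K E) :=
  AlgHom.ofLinearMap
    { toFun := fun g =>
        { toFun := rmulG (unop g)
          map_add' := fun m m' => by
            ext1
            · ext1
              · simp [add_mul]
              · simp only [rmulG_t, add_t, add_x, TE.add_p, TE.mul_p, TE.mk_a, TE.mk_p, TE.add_a,
                  add_lact, ract_add]
                abel
            · simp only [rmulG_x, add_t, add_x, TE.add_a, add_mul]
              abel
          map_smul' := fun r m => by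
            ext1
            · ext1
              · simp [mul_assoc]
              · simp only [rmulG_t, sm_t, sm_x, TE.add_p, TE.mul_p, TE.mk_a, TE.mk_p, TE.mul_a,
                  lact_add, ract_add, lact_lact, ract_ract, ract_lact, RingHom.id_apply,
                  TE.add_a, add_zero]
                abel
            · simp only [rmulG_x, sm_t, sm_x, TE.mul_a, mul_add, mul_assoc, RingHom.id_apply] }
      map_add' := fun g g' => by
        refine LinearMap.ext fun m => ?_
        change rmulG (unop g + unop g') m = rmulG (unop g) m + rmulG (unop g') m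
        ext1
        · ext1
          · simp [mul_add]
          · simp only [rmulG_t, add_t, TE.add_p, TE.mul_p, TE.mk_a, TE.mk_p, GE.add_a, GE.add_p,
              GE.add_q, lact_add, add_ract]
            abel
        · simp only [rmulG_x, add_x, GE.add_x, GE.add_s, mul_add]
          abel
      map_smul' := fun c g => by
        refine LinearMap.ext fun m => ?_
        change rmulG (c • unop g) m = c • rmulG (unop g) m
        ext1
        · ext1
          · simp
          · simp
        · simp }
    (by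
      refine LinearMap.ext fun m => ?_
      change rmulG 1 m = m
      ext1
      · ext1
        · simp
        · simp
      · simp)
    (by
      intro g g'
      refine LinearMap.ext fun m => ?_
      change rmulG (unop g' * unop g) m = rmulG (unop g) (rmulG (unop g') m)
      ext1
      · ext1
        · simp [mul_assoc]
        · simp only [rmulG_t, rmulG_x, TE.add_a, TE.add_p, TE.mul_a, TE.mul_p, TE.mk_a, TE.mk_p,
            GE.mul_a, GE.mul_p, GE.mul_q, lact_add, ract_add, add_lact, lact_lact, ract_ract,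
            ract_lact, add_zero]
          abel
      · simp only [rmulG_t, rmulG_x, TE.add_a, TE.mul_a, TE.mk_a, add_zero, GE.mul_x, GE.mul_s,
          mul_add, add_mul, mul_assoc]
        abel)

@[simp] theorem toEnd_apply (g : (GE K E)ᵐᵒᵖ) (m : MM K E) : toEnd g m = rmulG (unop g) m := rfl

theorem toEnd_injective : Function.Injective (toEnd (K := K) (E := E)) := by
  intro g g' h
  have h1 : rmulG (unop g) (mk 1 0) = rmulG (unop g') (mk 1 0) :=
    congrArg (fun f : Module.End (TE K E)ᵐᵒᵖᵐᵒᵖ (MM K E) => f (mk 1 0)) h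
  have h2 : rmulG (unop g) (mk 0 1) = rmulG (unop g') (mk 0 1) :=
    congrArg (fun f : Module.End (TE K E)ᵐᵒᵖᵐᵒᵖ (MM K E) => f (mk 0 1)) h
  apply unop_injective
  have ha := congrArg (fun m : MM K E => m.t.a) h1
  have hp := congrArg (fun m : MM K E => m.t.p) h1
  have hx := congrArg (fun m : MM K E => m.x) h1
  have hq := congrArg (fun m : MM K E => m.t.p) h2
  have hs := congrArg (fun m : MM K E => m.x) h2
  refine GE.ext ?_ ?_ ?_ ?_ ?_
  · simpa using ha
  · simpa using hp
  · simpa using hx
  · simpa using hq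
  · simpa using hs

theorem toEnd_surjective : Function.Surjective (toEnd (K := K) (E := E)) := by
  intro f
  have hf1 : ∀ (r : TE K E) (m : MM K E), f (mk (r * m.t) (r.a * m.x)) =
      mk (r * (f m).t) (r.a * (f m).x) := fun r m => f.map_smul (op (op r)) m
  let m1 : MM K E := f (mk 1 0)
  let m2 : MM K E := f (mk 0 1)
  have ha0 : m2.t.a = 0 := by
    rw [← Module.forall_dual_apply_eq_zero_iff K]
    intro φ
    have h := hf1 (TE.mk 0 φ) (mk 0 1)
    have h0 : (mk (TE.mk 0 φ * (mk 0 1 : MM K E).t) ((TE.mk 0 φ : TE K E).a * (mk 0 1 : MM K E).x) :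
        MM K E) = 0 := by
      ext1 <;> simp
    rw [h0, map_zero] at h
    have h2 := congrArg (fun m : MM K E => m.t.p 1) h
    simpa using h2.symm
  refine ⟨op (GE.mk m1.t.a m1.t.p m1.x m2.t.p m2.x), ?_⟩
  refine LinearMap.ext fun m => ?_
  have hm : m = mk (m.t * (mk 1 0 : MM K E).t) (m.t.a * (mk 1 0 : MM K E).x) +
      mk (TE.mk m.x 0 * (mk 0 1 : MM K E).t) ((TE.mk m.x 0 : TE K E).a * (mk 0 1 : MM K E).x) := by
    ext1
    · simp
    · simp
  have h3 : f m = mk (m.t * m1.t) (m.t.a * m1.x) + mk (TE.mk m.x 0 * m2.t) (m.x * m2.x) := by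
    conv_lhs => rw [hm, map_add, hf1, hf1]
    rfl
  rw [h3]
  change rmulG (GE.mk m1.t.a m1.t.p m1.x m2.t.p m2.x) m = _
  ext1
  · ext1
    · simp [ha0]
    · simp [ha0]
  · simp

/-- The algebra isomorphism `(GE K E)ᵐᵒᵖ ≃ End (MM K E)`. -/
noncomputable def equivEnd : (GE K E)ᵐᵒᵖ ≃ₐ[K] Module.End (TE K E)ᵐᵒᵖᵐᵒᵖ (MM K E) :=
  AlgEquiv.ofBijective toEnd ⟨toEnd_injective, toEnd_surjective⟩

theorem isGenerator : IsRightGenerator (TE K E)ᵐᵒᵖ (MM K E) := by
  refine ⟨1, LinearMap.pi fun _ =>
    { toFun := fun b => mk (unop b) 0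
      map_add' := fun b b' => by ext1 <;> simp
      map_smul' := fun r b => by ext1 <;> simp },
    { toFun := fun m => op (m 0).t
      map_add' := fun m m' => rfl
      map_smul' := fun r m => rfl }, ?_⟩
  refine LinearMap.ext fun b => ?_
  rfl

end MM

end Pool.Agent.H26.Gendo

namespace Pool.Agent.H26

universe u

/-- `(GE K E)ᵐᵒᵖ` is gendo-symmetric. -/
theorem isGendoSymmetric_op_GE (K E : Type u) [Field K] [Ring E] [Algebra K E] (h : IsAlg K E) :
    IsGendoSymmetric K (Gendo.GE K E)ᵐᵒᵖ := by
  have := h.finite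
  exact ⟨(Gendo.TE K E)ᵐᵒᵖ, inferInstance, inferInstance, Gendo.MM K E, inferInstance,
    inferInstance, inferInstance, inferInstance, Gendo.isAlg_op_TE h, Gendo.isSymmetricAlg_op_TE,
    inferInstance, Gendo.MM.isGenerator, ⟨Gendo.MM.equivEnd⟩⟩

end Pool.Agent.H26
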