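import Pool.Agent.H26.GendoIso
import Pool.Agent.H26.GendoFunctor
import Pool.Agent.H77.B2T

/-!
For every algebra `A₀` there is a gendo-symmetric algebra `A` with `o_k(A₀) ≤ o_k(A)` for all `k`.
-/

namespace Pool.Agent.H26

open MulOpposite

universe u

theorem isAlg_op {K A : Type*} [Field K] [Ring A] [Algebra K A] (h : IsAlg K A) :
    IsAlg K Aᵐᵒᵖ := by
  have := h.finite
  refine ⟨Module.Finite.equiv (opLinearEquiv K), ?_, ?_⟩
  · intro e hc he
    obtain ⟨e, rfl⟩ := op_surjective e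
    rcases h.connected e (fun x => (congrArg unop (hc (op x))).symm) (congrArg unop he) with h1 | h1
    · left; rw [h1]; rfl
    · right; rw [h1]; rfl
  · rw [isSemisimpleRing_mulOpposite_iff]
    exact h.not_semisimple

/-- The algebra `(GE K E)ᵐᵒᵖ` is gendo-symmetric and `o_k` of its right modules is at least `o_k`
of the left modules over `E`. -/
theorem o_le_op_GE (K E : Type u) [Field K] [Ring E] [Algebra K E] (k : ℕ) :
    o k E ≤ o k ((Gendo.GE K E)ᵐᵒᵖ)ᵐᵒᵖ := by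
  rw [← Pool.Agent.H38.B2.o_congr (RingEquiv.opOp (Gendo.GE K E)) k]
  exact Gendo.o_le_GE k

theorem exists_gendoSymmetric (K A₀ : Type u) [Field K] [Ring A₀] [Algebra K A₀]
    (h : IsAlg K A₀) :
    ∃ (A : Type u) (_ : Ring A) (_ : Algebra K A), IsAlg K A ∧ IsGendoSymmetric K A ∧
      ∀ k : ℕ, o k A₀ᵐᵒᵖ ≤ o k Aᵐᵒᵖ :=
  ⟨(Gendo.GE K A₀ᵐᵒᵖ)ᵐᵒᵖ, inferInstance, inferInstance, Gendo.isAlg_op_GE (isAlg_op h),
    isGendoSymmetric_op_GE K A₀ᵐᵒᵖ (isAlg_op h), fun k => o_le_op_GE K A₀ᵐᵒᵖ k⟩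

end Pool.Agent.H26
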