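import Pool.Agent.H26.Core

namespace Pool.Agent.H26

universe u

section Trunc

variable (K : Type*) [Field K] {B : Type*} [Ring B] [Algebra K B]

/-- The truncation step: for every finite-dimensional `Y` there is `Z` with
`Ext^1(M_i, Z) = Ext^2(M_i, Z) = 0` and `dim Hom(M_i, Z) = dim Hom(M_i, Y)`. -/
theorem exists_trunc {ι : Type} [Fintype ι] (M P0 P1 P2 : ι → Type u)
    [∀ i, AddCommGroup (M i)] [∀ i, Module K (M i)] [∀ i, Module B (M i)]
    [∀ i, IsScalarTower K B (M i)] [∀ i, Module.Finite K (M i)]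
    [∀ i, AddCommGroup (P0 i)] [∀ i, Module B (P0 i)]
    [∀ i, AddCommGroup (P1 i)] [∀ i, Module B (P1 i)] [∀ i, Module.Projective B (P1 i)]
    [∀ i, AddCommGroup (P2 i)] [∀ i, Module B (P2 i)] [∀ i, Module.Projective B (P2 i)]
    (d1 : ∀ i, P1 i →ₗ[B] P0 i) (d2 : ∀ i, P2 i →ₗ[B] P1 i)
    (he1 : ∀ i j, E1 (d1 i) (d2 i) (M j)) (he2 : ∀ i j, E2 (d2 i) (M j))
    (Y : Type u) [AddCommGroup Y] [Module K Y] [Module B Y]
    [IsScalarTower K B Y] [Module.Finite K Y] :
    ∃ (Z : Type u) (_ : AddCommGroup Z) (_ : Module K Z) (_ : Module B Z)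
      (_ : IsScalarTower K B Z) (_ : Module.Finite K Z),
      (∀ i, E1 (d1 i) (d2 i) Z) ∧ (∀ i, E2 (d2 i) Z) ∧ ∀ i, hd K B (M i) Z = hd K B (M i) Y := by
  classical
  obtain ⟨n, p, hp⟩ := exists_approx (B := B) K M Y
  let N := ∀ i, Fin (n i) → M i
  have hN1 : ∀ i, E1 (d1 i) (d2 i) N := fun i => E1.pi fun j => E1.pi fun _ => he1 i j
  have hN2 : ∀ i, E2 (d2 i) N := fun i => E2.pi fun j => E2.pi fun _ => he2 i j
  have hnoeth : IsNoetherian B N := by
    have : IsNoetherian K N := inferInstance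
    exact isNoetherian_of_tower K this
  let S : Set (Submodule B N) := {T | T ≤ LinearMap.ker p ∧ ∀ i, E2 (d2 i) T}
  have hS : S.Nonempty := ⟨⊥, bot_le, fun i => E2.of_subsingleton⟩
  obtain ⟨T, ⟨hTker, hT2⟩, hmax⟩ := set_has_maximal_iff_noetherian.mpr hnoeth S hS
  refine ⟨N ⧸ T, inferInstance, inferInstance, inferInstance, inferInstance, inferInstance,
    fun i => E1.quot T (hN1 i) (hT2 i), fun i => (hN2 i).quot T.mkQ T.mkQ_surjective,
    fun i => ?_⟩
  let q : (N ⧸ T) →ₗ[B] Y := T.liftQ p hTker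
  unfold hd
  refine LinearEquiv.finrank_eq (LinearEquiv.ofBijective (postc (M := M i) K q) ⟨?_, ?_⟩)
  · rw [← LinearMap.ker_eq_bot, LinearMap.ker_eq_bot']
    intro h hh
    -- `T' = preimage of the image of h`
    have hqh : ∀ x, q (h x) = 0 := fun x => congrArg (fun h => h x) hh
    let T' : Submodule B N := (LinearMap.range h).comap T.mkQ
    have hTT' : T ≤ T' := by
      intro x hx
      change T.mkQ x ∈ LinearMap.range h
      have : T.mkQ x = 0 := by simpa using hx
      rw [this]
      exact Submodule.zero_mem _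
    have hT'ker : T' ≤ LinearMap.ker p := by
      intro x hx
      obtain ⟨m, hm⟩ := hx
      have := hqh m
      rw [hm] at this
      exact this
    have hT'2 : ∀ j, E2 (d2 j) T' := by
      intro j
      have hr : E2 (d2 j) (LinearMap.range h) :=
        (he2 j i).quot h.rangeRestrict (LinearMap.surjective_rangeRestrict h)
      let qq : T' →ₗ[B] LinearMap.range h :=
        (T.mkQ ∘ₗ T'.subtype).codRestrict (LinearMap.range h) (fun x => x.2)
      refine E2.extension (Submodule.inclusion hTT') qq ?_ ?_ (hT2 j) hr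
      · rintro ⟨y, hy⟩
        obtain ⟨x, hx⟩ := T.mkQ_surjective y
        refine ⟨⟨x, ?_⟩, ?_⟩
        · change T.mkQ x ∈ LinearMap.range h
          rw [hx]; exact hy
        · ext
          exact hx
      · intro x hx
        have hx' : T.mkQ (x : N) = 0 := congrArg Subtype.val hx
        have hxT : (x : N) ∈ T := by simpa using hx'
        exact ⟨⟨x, hxT⟩, by ext; rfl⟩
    have hEq : T' = T := by
      have h1 := hmax T' ⟨hT'ker, hT'2⟩
      exact (lt_or_eq_of_le hTT').elim (fun h => absurd h h1) (fun h => h.symm)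
    ext x
    obtain ⟨y, hy⟩ := T.mkQ_surjective (h x)
    have hyT' : y ∈ T' := by
      change T.mkQ y ∈ LinearMap.range h
      rw [hy]; exact ⟨x, rfl⟩
    rw [hEq] at hyT'
    rw [← hy]
    simpa using hyT'
  · intro f
    obtain ⟨f', hf'⟩ := hp i f
    refine ⟨T.mkQ ∘ₗ f', ?_⟩
    rw [postc_apply, ← LinearMap.comp_assoc]
    have : q ∘ₗ T.mkQ = p := T.liftQ_mkQ p hTker
    rw [this, hf']

end Trunc

section Devissage

variable (K : Type*) [Field K] {B : Type*} [Ring B] [Algebra K B]

theorem hd_eq_zero_of_subsingleton (P Z : Type*) [AddCommGroup P] [Module K P] [Module B P]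
    [IsScalarTower K B P] [AddCommGroup Z] [Module K Z] [Module B Z] [IsScalarTower K B Z]
    [Subsingleton Z] : hd K B P Z = 0 := by
  have : Subsingleton (P →ₗ[B] Z) := ⟨fun f g => by ext x; exact Subsingleton.elim _ _⟩
  unfold hd
  exact Module.finrank_zero_of_subsingleton

/-- An additive invariant that vanishes on the simple modules vanishes on all
finite-dimensional modules. -/
theorem devissage {ι : Type} [Fintype ι] (P0 P1 P2 : ι → Type u)
    [∀ i, AddCommGroup (P0 i)] [∀ i, Module K (P0 i)] [∀ i, Module B (P0 i)]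
    [∀ i, IsScalarTower K B (P0 i)] [∀ i, Module.Finite K (P0 i)]
    [∀ i, Module.Projective B (P0 i)]
    [∀ i, AddCommGroup (P1 i)] [∀ i, Module K (P1 i)] [∀ i, Module B (P1 i)]
    [∀ i, IsScalarTower K B (P1 i)] [∀ i, Module.Finite K (P1 i)]
    [∀ i, Module.Projective B (P1 i)]
    [∀ i, AddCommGroup (P2 i)] [∀ i, Module K (P2 i)] [∀ i, Module B (P2 i)]
    [∀ i, IsScalarTower K B (P2 i)] [∀ i, Module.Finite K (P2 i)]
    [∀ i, Module.Projective B (P2 i)]
    (φ : ι → ℤ)
    (hφ : ∀ (Z : Type u) [AddCommGroup Z] [Module K Z] [Module B Z] [IsScalarTower K B Z]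
      [Module.Finite K Z], IsSimpleModule B Z →
      ∑ i, φ i * ((hd K B (P0 i) Z : ℤ) - hd K B (P1 i) Z + hd K B (P2 i) Z) = 0) :
    ∀ (d : ℕ) (Z : Type u) [AddCommGroup Z] [Module K Z] [Module B Z] [IsScalarTower K B Z]
      [Module.Finite K Z], Module.finrank K Z ≤ d →
      ∑ i, φ i * ((hd K B (P0 i) Z : ℤ) - hd K B (P1 i) Z + hd K B (P2 i) Z) = 0 := by
  intro d
  induction d with
  | zero =>
    intro Z _ _ _ _ _ hZ
    have : Subsingleton Z := by
      have h0 : Module.finrank K Z = 0 := by omega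
      exact Module.finrank_zero_iff.mp h0
    simp [hd_eq_zero_of_subsingleton K (B := B)]
  | succ d ih =>
    intro Z _ _ _ _ _ hZ
    rcases subsingleton_or_nontrivial Z with hs | hn
    · simp [hd_eq_zero_of_subsingleton K (B := B)]
    have hfin : Module.Finite B Z := Module.Finite.of_restrictScalars_finite K B Z
    obtain ⟨T, hT, -⟩ := (eq_top_or_exists_le_coatom (⊥ : Submodule B Z)).resolve_left
      (by exact bot_ne_top)
    have hsimple : IsSimpleModule B (Z ⧸ T) := isSimpleModule_iff_isCoatom.mpr hT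
    have h1 := hφ (Z ⧸ T) hsimple
    have hTfin : Module.Finite K T := by
      have : Module.Finite K (T.restrictScalars K) := inferInstance
      exact this
    have hlt : Module.finrank K T < Module.finrank K Z := by
      have : Module.finrank K (T.restrictScalars K) < Module.finrank K Z := by
        apply Submodule.finrank_lt
        intro h
        apply hT.1
        rw [eq_top_iff]
        intro x _
        have : x ∈ T.restrictScalars K := by rw [h]; trivial
        exact this
      exact this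
    have h2 := ih T (by omega)
    have h3 : ∀ i, φ i * ((hd K B (P0 i) Z : ℤ) - hd K B (P1 i) Z + hd K B (P2 i) Z) =
        φ i * ((hd K B (P0 i) T : ℤ) - hd K B (P1 i) T + hd K B (P2 i) T) +
        φ i * ((hd K B (P0 i) (Z ⧸ T) : ℤ) - hd K B (P1 i) (Z ⧸ T) + hd K B (P2 i) (Z ⧸ T)) := by
      intro i
      have e0 : (hd K B (P0 i) Z : ℤ) = hd K B (P0 i) T + hd K B (P0 i) (Z ⧸ T) := by
        exact_mod_cast hd_projective K (P0 i) T
      have e1 : (hd K B (P1 i) Z : ℤ) = hd K B (P1 i) T + hd K B (P1 i) (Z ⧸ T) := by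
        exact_mod_cast hd_projective K (P1 i) T
      have e2 : (hd K B (P2 i) Z : ℤ) = hd K B (P2 i) T + hd K B (P2 i) (Z ⧸ T) := by
        exact_mod_cast hd_projective K (P2 i) T
      rw [e0, e1, e2]
      ring
    simp only [h3, Finset.sum_add_distrib]
    rw [h1, h2, add_zero]

end Devissage

section Bongartz

variable (K : Type*) [Field K] {B : Type*} [Ring B] [Algebra K B]

theorem bongartz_aux {ι : Type} [Fintype ι] (M : ι → Type u)
    [∀ i, AddCommGroup (M i)] [∀ i, Module K (M i)] [∀ i, Module B (M i)]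
    [∀ i, IsScalarTower K B (M i)] [∀ i, Module.Finite K (M i)]
    (hM : ∀ i, Indec B (M i)) (hne : ∀ i j, Nonempty (M i ≃ₗ[B] M j) → i = j)
    (φ : ι → ℤ)
    (hφ : ∀ (Y : Type u) [AddCommGroup Y] [Module K Y] [Module B Y] [IsScalarTower K B Y]
      [Module.Finite K Y], ∑ i, φ i * (hd K B (M i) Y : ℤ) = 0) (j : ι) : φ j ≤ 0 := by
  classical
  by_contra hj
  push Not at hj
  let I := {i : ι // φ i < 0}
  obtain ⟨n, p, hp⟩ := exists_approx (B := B) K (fun i : I => M i.1) (M j)
  let N := ∀ i : I, Fin (n i) → M i.1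
  have hker : Module.Finite K (LinearMap.ker p) := by
    have : Module.Finite K ((LinearMap.ker p).restrictScalars K) := inferInstance
    exact this
  let r : ι → ℕ := fun i => Module.finrank K (LinearMap.range (postc (M := M i) K p))
  have hr1 : ∀ i, r i + hd K B (M i) (LinearMap.ker p) = hd K B (M i) N := by
    intro i
    have h1 := LinearMap.finrank_range_add_finrank_ker (postc (M := M i) K p)
    have hinj : Function.Injective (postc (M := M i) K (LinearMap.ker p).subtype) := by
      intro f g hfg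
      refine LinearMap.ext fun x => Subtype.ext ?_
      exact congrArg (fun h => h x) hfg
    have hkr : LinearMap.ker (postc (M := M i) K p) =
        LinearMap.range (postc (M := M i) K (LinearMap.ker p).subtype) := by
      ext f
      rw [LinearMap.mem_ker, LinearMap.mem_range]
      constructor
      · intro hf
        have hf' : ∀ x, f x ∈ LinearMap.ker p := by
          intro x
          exact congrArg (fun h => h x) hf
        exact ⟨f.codRestrict (LinearMap.ker p) hf', by ext x; rfl⟩
      · rintro ⟨g, rfl⟩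
        refine LinearMap.ext fun x => ?_
        exact (g x).2
    rw [hkr, LinearMap.finrank_range_of_inj hinj] at h1
    exact h1
  have hr2 : ∀ i, r i ≤ hd K B (M i) (M j) := fun i => Submodule.finrank_le _
  have hr3 : ∀ i, φ i < 0 → r i = hd K B (M i) (M j) := by
    intro i hi
    have : LinearMap.range (postc (M := M i) K p) = ⊤ := by
      rw [LinearMap.range_eq_top]
      intro f
      exact hp ⟨i, hi⟩ f
    change Module.finrank K (LinearMap.range (postc (M := M i) K p)) = _
    rw [this, finrank_top]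
    rfl
  have hsum : ∑ i, φ i * ((hd K B (M i) (M j) : ℤ) - r i) = 0 := by
    have e1 := hφ (M j)
    have e2 := hφ N
    have e3 := hφ (LinearMap.ker p)
    have : ∀ i, φ i * ((hd K B (M i) (M j) : ℤ) - r i) =
        φ i * (hd K B (M i) (M j) : ℤ) - φ i * (hd K B (M i) N : ℤ) +
          φ i * (hd K B (M i) (LinearMap.ker p) : ℤ) := by
      intro i
      have h := hr1 i
      have h' : (hd K B (M i) N : ℤ) = r i + hd K B (M i) (LinearMap.ker p) := by
        exact_mod_cast h.symm
      rw [h']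
      ring
    simp only [this, Finset.sum_add_distrib, Finset.sum_sub_distrib]
    rw [e1, e2, e3]
    ring
  have hnn : ∀ i ∈ Finset.univ, 0 ≤ φ i * ((hd K B (M i) (M j) : ℤ) - r i) := by
    intro i _
    rcases lt_or_ge (φ i) 0 with hi | hi
    · rw [hr3 i hi]; simp
    · apply mul_nonneg hi
      have := hr2 i
      have : (r i : ℤ) ≤ hd K B (M i) (M j) := by exact_mod_cast this
      linarith
  have hz := (Finset.sum_eq_zero_iff_of_nonneg hnn).mp hsum j (Finset.mem_univ j)
  have hrj : r j = hd K B (M j) (M j) := by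
    rcases mul_eq_zero.mp hz with h | h
    · omega
    · have : (r j : ℤ) = hd K B (M j) (M j) := by linarith
      exact_mod_cast this
  have htop : LinearMap.range (postc (M := M j) K p) = ⊤ := by
    apply Submodule.eq_top_of_finrank_eq
    exact hrj
  obtain ⟨s, hs⟩ := LinearMap.range_eq_top.mp htop LinearMap.id
  rw [postc_apply] at hs
  -- split the identity
  have hart : IsArtinian B (M j) := by
    have : IsArtinian K (M j) := inferInstance
    exact isArtinian_of_tower K this
  have hnoe : IsNoetherian B (M j) := by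
    have : IsNoetherian K (M j) := inferInstance
    exact isNoetherian_of_tower K this
  let g : (Σ i : I, Fin (n i)) → Module.End B (M j) := fun k =>
    (p ∘ₗ LinearMap.single B (fun i : I => (Fin (n i) → M i.1)) k.1 ∘ₗ
      LinearMap.single B (fun _ : Fin (n k.1) => M k.1.1) k.2) ∘ₗ
    (LinearMap.proj (R := B) (φ := fun _ : Fin (n k.1) => M k.1.1) k.2 ∘ₗ
      LinearMap.proj (R := B) (φ := fun i : I => (Fin (n i) → M i.1)) k.1 ∘ₗ s)
  have hg : ∑ k, g k = 1 := by
    ext x
    rw [LinearMap.sum_apply]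
    have hx : p (s x) = x := by
      have := congrArg (fun h => h x) hs
      simpa using this
    have hdec : s x = ∑ k : (Σ i : I, Fin (n i)),
        (Pi.single k.1 (Pi.single k.2 (s x k.1 k.2)) : N) := by
      rw [← Finset.univ_sigma_univ, Finset.sum_sigma]
      ext i l
      rw [Finset.sum_apply, Finset.sum_apply]
      rw [Finset.sum_eq_single i]
      · rw [Finset.sum_apply, Finset.sum_apply, Finset.sum_eq_single l]
        · simp
        · intro b _ hb
          simp [Pi.single_eq_of_ne hb.symm]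
        · simp
      · intro b _ hb
        rw [Finset.sum_apply, Finset.sum_apply]
        apply Finset.sum_eq_zero
        intro c _
        rw [Pi.single_eq_of_ne hb.symm]
        rfl
      · simp
    conv_rhs => rw [Module.End.one_apply, ← hx, hdec, map_sum]
    refine Finset.sum_congr rfl fun k _ => ?_
    simp [g]
  obtain ⟨k, -, hk⟩ := (hM j).exists_isUnit_of_sum Finset.univ g (by rw [hg]; exact isUnit_one)
  rw [Module.End.isUnit_iff] at hk
  have hnt := (hM j).1
  have heq := Indec.equiv_of_comp_isUnit (hM k.1.1)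
    (LinearMap.proj (R := B) (φ := fun _ : Fin (n k.1) => M k.1.1) k.2 ∘ₗ
      LinearMap.proj (R := B) (φ := fun i : I => (Fin (n i) → M i.1)) k.1 ∘ₗ s)
    (p ∘ₗ LinearMap.single B (fun i : I => (Fin (n i) → M i.1)) k.1 ∘ₗ
      LinearMap.single B (fun _ : Fin (n k.1) => M k.1.1) k.2) hk
  have := hne j k.1.1 heq
  have h2 := k.1.2
  rw [← this] at h2
  omega

theorem bongartz {ι : Type} [Fintype ι] (M : ι → Type u)
    [∀ i, AddCommGroup (M i)] [∀ i, Module K (M i)] [∀ i, Module B (M i)]
    [∀ i, IsScalarTower K B (M i)] [∀ i, Module.Finite K (M i)]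
    (hM : ∀ i, Indec B (M i)) (hne : ∀ i j, Nonempty (M i ≃ₗ[B] M j) → i = j)
    (φ : ι → ℤ)
    (hφ : ∀ (Y : Type u) [AddCommGroup Y] [Module K Y] [Module B Y] [IsScalarTower K B Y]
      [Module.Finite K Y], ∑ i, φ i * (hd K B (M i) Y : ℤ) = 0) : φ = 0 := by
  ext j
  apply le_antisymm
  · exact bongartz_aux K M hM hne φ hφ j
  · have := bongartz_aux K M hM hne (-φ) (by
      intro Y _ _ _ _ _
      have := hφ Y
      simp only [Pi.neg_apply, neg_mul, Finset.sum_neg_distrib, this, neg_zero]) j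
    simpa using this

end Bongartz

section Main

variable (K : Type*) [Field K] {B : Type*} [Ring B] [Algebra K B]

theorem rigid_card_le {ι : Type} [Fintype ι] (M P0 P1 P2 : ι → Type u)
    [∀ i, AddCommGroup (M i)] [∀ i, Module K (M i)] [∀ i, Module B (M i)]
    [∀ i, IsScalarTower K B (M i)] [∀ i, Module.Finite K (M i)]
    [∀ i, AddCommGroup (P0 i)] [∀ i, Module K (P0 i)] [∀ i, Module B (P0 i)]
    [∀ i, IsScalarTower K B (P0 i)] [∀ i, Module.Finite K (P0 i)]
    [∀ i, Module.Projective B (P0 i)]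
    [∀ i, AddCommGroup (P1 i)] [∀ i, Module K (P1 i)] [∀ i, Module B (P1 i)]
    [∀ i, IsScalarTower K B (P1 i)] [∀ i, Module.Finite K (P1 i)]
    [∀ i, Module.Projective B (P1 i)]
    [∀ i, AddCommGroup (P2 i)] [∀ i, Module K (P2 i)] [∀ i, Module B (P2 i)]
    [∀ i, IsScalarTower K B (P2 i)] [∀ i, Module.Finite K (P2 i)]
    [∀ i, Module.Projective B (P2 i)]
    (p : ∀ i, P0 i →ₗ[B] M i) (d1 : ∀ i, P1 i →ₗ[B] P0 i) (d2 : ∀ i, P2 i →ₗ[B] P1 i)
    (hp : ∀ i, Function.Surjective (p i)) (h1 : ∀ i, Function.Exact (d1 i) (p i))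
    (h2 : ∀ i, Function.Exact (d2 i) (d1 i))
    (he1 : ∀ i j, E1 (d1 i) (d2 i) (M j)) (he2 : ∀ i j, E2 (d2 i) (M j))
    (hM : ∀ i, Indec B (M i)) (hne : ∀ i j, Nonempty (M i ≃ₗ[B] M j) → i = j)
    (w : ℕ) (S : Fin w → Type u) [∀ i, AddCommGroup (S i)] [∀ i, Module K (S i)]
    [∀ i, Module B (S i)] [∀ i, IsScalarTower K B (S i)]
    (hS : ∀ (Z : Type u) [AddCommGroup Z] [Module B Z], IsSimpleModule B Z →
      ∃ j, Nonempty (Z ≃ₗ[B] S j)) : Fintype.card ι ≤ w := by
  classical
  by_contra hlt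
  push Not at hlt
  let a : ι → Fin w → ℤ := fun i j =>
    (hd K B (P0 i) (S j) : ℤ) - hd K B (P1 i) (S j) + hd K B (P2 i) (S j)
  let L : (ι → ℤ) →ₗ[ℤ] (Fin w → ℤ) := Matrix.mulVecLin (Matrix.of fun j i => a i j)
  have hL : ¬ Function.Injective L := by
    intro hinj
    have := card_le_of_injective ℤ L hinj
    rw [Fintype.card_fin] at this
    omega
  obtain ⟨φ, hφ0, hφ⟩ : ∃ φ, L φ = 0 ∧ φ ≠ 0 := by
    by_contra hcon
    push Not at hcon
    exact hL ((injective_iff_map_eq_zero L).mpr hcon)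
  apply hφ
  have key : ∀ j, ∑ i, φ i * a i j = 0 := by
    intro j
    have := congrFun hφ0 j
    simp only [L, Matrix.mulVecLin_apply, Matrix.mulVec, dotProduct, Matrix.of_apply,
      Pi.zero_apply] at this
    rw [← this]
    exact Finset.sum_congr rfl fun i _ => mul_comm _ _
  apply bongartz K M hM hne φ
  intro Y _ _ _ _ _
  obtain ⟨Z, _, _, _, _, _, hZ1, hZ2, hZ3⟩ := exists_trunc K M P0 P1 P2 d1 d2 he1 he2 Y
  have e1 : ∀ i, (hd K B (M i) Y : ℤ) =
      hd K B (P0 i) Z - hd K B (P1 i) Z + hd K B (P2 i) Z := by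
    intro i
    rw [← hZ3 i]
    exact hd_three K (p i) (d1 i) (d2 i) (hp i) (h1 i) (h2 i) (hZ1 i) (hZ2 i)
  simp only [e1]
  refine devissage K P0 P1 P2 φ ?_ (Module.finrank K Z) Z le_rfl
  intro Z _ _ _ _ _ hZ
  obtain ⟨j, ⟨e⟩⟩ := hS Z hZ
  rw [← key j]
  refine Finset.sum_congr rfl fun i _ => ?_
  simp only [a]
  rw [hd_congr K (LinearEquiv.refl B (P0 i)) e, hd_congr K (LinearEquiv.refl B (P1 i)) e,
    hd_congr K (LinearEquiv.refl B (P2 i)) e]

end Main

end Pool.Agent.H26
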